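import Pool.Agent.H47.GR.Bridge

/-!
# Module Cof (board pa99_mod): the coefficients of `Gr x (Bk A x) m s`

PROOF: the statement is `Pool.Agent.H47.GR.coeff_Gr'` (helper47), for exactly these definitions.
-/

set_option autoImplicit false

open Finset Pool.H53.RQ PowerSeries

namespace Pool.Agent.H99.PA

theorem coeff_Gr (A : ℕ → ℕ → ℝ) (hA : ∀ a b, A a b = -A b a) (x : ℕ → ℝ) (m d : ℕ)
    (s : Finset ℕ) :
    coeff d (Gr x (Bk A x) m s) = ∑ T ∈ TT m d, pf A (dl T) * P x (dl T) s :=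
  Pool.Agent.H47.GR.coeff_Gr' A hA x m d s

end Pool.Agent.H99.PA
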