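import Pool.Agent.H99.PA.RhSum

/-!
# Module GrS (board pa99_mod, about 80 lines): the Schur kernel has normalised Pfaffian 1

PROOF.  (sum_Sk) `s' = s.erase i` has odd cardinality, `Gd x s'`, and `x i + x j ≠ 0` for `j ∈ s'`, so
`sum_pf` of module RhSum at `z = x i` gives `∑_{j∈s'} Sk x i j * rho x s' j = ∏_{j∈s'} Sk x i j`; and
`rho x s i * ∏_{j∈s'} Sk x i j = ∏ ((x_i+x_j)/(x_i-x_j)) ((x_i-x_j)/(x_i+x_j)) = 1` because all these
numbers are nonzero (`Gd`).
(Gr_Sk) induction on `n`: for `|s| = 2(n+1)` every `(s.erase i).erase j` has `2n` elements and is `Gd`, so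
`Gr = 1` there; the double sum is `∑_{i∈s} 1 = 2(n+1)` by sum_Sk (push the real scalars through
`algebraMap`: `Algebra.smul_def`), and `1/(2(n+1)) • (2(n+1) : R) = 1`.
-/

set_option autoImplicit false

open Finset Pool.H53.RQ

namespace Pool.Agent.H99.PA

private theorem GrS_erase {x : ℕ → ℝ} {s : Finset ℕ} (hs : Gd x s) (i : ℕ) : Gd x (s.erase i) :=
  fun a ha b hb hab => hs a (mem_of_mem_erase ha) b (mem_of_mem_erase hb) hab

theorem sum_Sk (x : ℕ → ℝ) (s : Finset ℕ) (hs : Gd x s) (hc : Even s.card) {i : ℕ} (hi : i ∈ s) :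
    ∑ j ∈ s.erase i, rho x s i * rho x (s.erase i) j * Sk x i j = 1 := by
  have hodd : ¬ Even (s.erase i).card := by
    rw [card_erase_of_mem hi]
    have h1 : 0 < s.card := card_pos.2 ⟨i, hi⟩
    obtain ⟨k, hk⟩ := hc
    rintro ⟨l, hl⟩
    omega
  have hij : ∀ j ∈ s.erase i, x i - x j ≠ 0 ∧ x i + x j ≠ 0 := fun j hj =>
    hs i hi j (mem_of_mem_erase hj) (ne_of_mem_erase hj).symm
  have h1 := sum_pf x (s.erase i) (GrS_erase hs i) (x i) (fun j hj => (hij j hj).2)
  rw [if_neg hodd, sub_zero] at h1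
  have h2 : ∑ j ∈ s.erase i, rho x s i * rho x (s.erase i) j * Sk x i j
      = rho x s i * ∑ j ∈ s.erase i, (x i - x j) / (x i + x j) * rho x (s.erase i) j := by
    rw [mul_sum]
    refine sum_congr rfl fun j _ => ?_
    unfold Sk
    ring
  rw [h2, h1, rho, ← prod_mul_distrib]
  refine prod_eq_one fun j hj => ?_
  obtain ⟨h3, h4⟩ := hij j hj
  field_simp

theorem Gr_Sk {R : Type} [CommRing R] [Algebra ℝ R] (x : ℕ → ℝ) (n : ℕ) (s : Finset ℕ)
    (hs : Gd x s) (hc : s.card = 2 * n) :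
    Gr x (fun i j => algebraMap ℝ R (Sk x i j)) n s = 1 := by
  induction n generalizing s with
  | zero => rfl
  | succ n ih =>
    have h1 : ∀ i ∈ s, ∑ j ∈ s.erase i, (rho x s i * rho x (s.erase i) j) •
        (algebraMap ℝ R (Sk x i j) * Gr x (fun i j => algebraMap ℝ R (Sk x i j)) n
          ((s.erase i).erase j)) = (1 : R) := by
      intro i hi
      have h2 : ∀ j ∈ s.erase i, (rho x s i * rho x (s.erase i) j) •
          (algebraMap ℝ R (Sk x i j) * Gr x (fun i j => algebraMap ℝ R (Sk x i j)) n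
            ((s.erase i).erase j)) = algebraMap ℝ R (rho x s i * rho x (s.erase i) j * Sk x i j) := by
        intro j hj
        have h3 : ((s.erase i).erase j).card = 2 * n := by
          rw [card_erase_of_mem hj, card_erase_of_mem hi, hc]
          omega
        rw [ih _ (GrS_erase (GrS_erase hs i) j) h3, mul_one, Algebra.smul_def, ← map_mul]
      rw [sum_congr rfl h2, ← map_sum, sum_Sk x s hs ⟨n + 1, by omega⟩ hi, map_one]
    show (1 / (2 * ((n : ℝ) + 1))) • ∑ i ∈ s, ∑ j ∈ s.erase i, (rho x s i * rho x (s.erase i) j) •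
        (algebraMap ℝ R (Sk x i j) * Gr x (fun i j => algebraMap ℝ R (Sk x i j)) n
          ((s.erase i).erase j)) = (1 : R)
    rw [sum_congr rfl h1, sum_const, hc, Algebra.smul_def, nsmul_eq_mul, mul_one]
    have h4 : ((2 * (n + 1) : ℕ) : R) = algebraMap ℝ R (2 * ((n : ℝ) + 1)) := by
      have : ((2 * (n + 1) : ℕ) : R) = algebraMap ℝ R ((2 * (n + 1) : ℕ) : ℝ) := by
        rw [map_natCast]
      rw [this]
      push_cast
      rfl
    rw [h4, ← map_mul]
    have h5 : (1 / (2 * ((n : ℝ) + 1))) * (2 * ((n : ℝ) + 1)) = 1 := by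
      have : (2 * ((n : ℝ) + 1)) ≠ 0 := by positivity
      field_simp
    rw [h5, map_one]

end Pool.Agent.H99.PA
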