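import Pool.Agent.H99.PA.Defs

/-!
# Module Sw (board pa99_mod, about 60 lines): exchange of two pairs in a sum over distinct elements

PROOF.  swap2: `Finset.sum_comm'` with `i ∈ s ∧ j ∈ s.erase i ↔ j ∈ s ∧ i ∈ s.erase j`.
swap4: the order (i,j,k,l) is changed by the transpositions (i,k,j,l), (k,i,j,l), (k,i,l,j), (k,l,i,j);
each one is swap2 for the set which remains at that place (`Finset.sum_congr` for the outer sums), with
`Finset.erase_right_comm` to bring the sets of the inner sums to the same form.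
-/

set_option autoImplicit false

open Finset

namespace Pool.Agent.H99.PA

theorem swap2 {M : Type} [AddCommMonoid M] (s : Finset ℕ) (f : ℕ → ℕ → M) :
    ∑ i ∈ s, ∑ j ∈ s.erase i, f i j = ∑ j ∈ s, ∑ i ∈ s.erase j, f i j := by
  apply Finset.sum_comm'
  intro i j
  simp only [Finset.mem_erase]
  constructor
  · rintro ⟨h1, h2, h3⟩
    exact ⟨⟨fun h => h2 h.symm, h1⟩, h3⟩
  · rintro ⟨⟨h1, h2⟩, h3⟩
    exact ⟨h2, fun h => h1 h.symm, h3⟩

theorem swap4 {M : Type} [AddCommMonoid M] (s : Finset ℕ) (f : ℕ → ℕ → ℕ → ℕ → M) :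
    ∑ i ∈ s, ∑ j ∈ s.erase i, ∑ k ∈ (s.erase i).erase j, ∑ l ∈ ((s.erase i).erase j).erase k,
        f i j k l =
      ∑ k ∈ s, ∑ l ∈ s.erase k, ∑ i ∈ (s.erase k).erase l, ∑ j ∈ ((s.erase k).erase l).erase i,
        f i j k l := by
  calc ∑ i ∈ s, ∑ j ∈ s.erase i, ∑ k ∈ (s.erase i).erase j,
        ∑ l ∈ ((s.erase i).erase j).erase k, f i j k l
      = ∑ i ∈ s, ∑ k ∈ s.erase i, ∑ j ∈ (s.erase i).erase k,
        ∑ l ∈ ((s.erase i).erase k).erase j, f i j k l := by
        refine Finset.sum_congr rfl fun i _ => ?_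
        rw [swap2 (s.erase i) fun j k => ∑ l ∈ ((s.erase i).erase j).erase k, f i j k l]
        refine Finset.sum_congr rfl fun k _ => Finset.sum_congr rfl fun j _ => ?_
        rw [Finset.erase_right_comm]
    _ = ∑ k ∈ s, ∑ i ∈ s.erase k, ∑ j ∈ (s.erase k).erase i,
        ∑ l ∈ ((s.erase k).erase i).erase j, f i j k l := by
        rw [swap2 s fun i k => ∑ j ∈ (s.erase i).erase k,
          ∑ l ∈ ((s.erase i).erase k).erase j, f i j k l]
        refine Finset.sum_congr rfl fun k _ => Finset.sum_congr rfl fun i _ => ?_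
        rw [Finset.erase_right_comm]
    _ = ∑ k ∈ s, ∑ i ∈ s.erase k, ∑ l ∈ (s.erase k).erase i,
        ∑ j ∈ ((s.erase k).erase i).erase l, f i j k l := by
        refine Finset.sum_congr rfl fun k _ => Finset.sum_congr rfl fun i _ => ?_
        exact swap2 ((s.erase k).erase i) fun j l => f i j k l
    _ = ∑ k ∈ s, ∑ l ∈ s.erase k, ∑ i ∈ (s.erase k).erase l,
        ∑ j ∈ ((s.erase k).erase l).erase i, f i j k l := by
        refine Finset.sum_congr rfl fun k _ => ?_
        rw [swap2 (s.erase k) fun i l => ∑ j ∈ ((s.erase k).erase i).erase l, f i j k l]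
        refine Finset.sum_congr rfl fun l _ => Finset.sum_congr rfl fun i _ => ?_
        rw [Finset.erase_right_comm]

end Pool.Agent.H99.PA
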