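import Pool.Agent.H99.PA.Rh
import Pool.Agent.H99.PA.Sw
import Pool.Agent.H99.PA.GrS

/-!
# Module GrAdd (board pa99_mod, about 150 lines): `Gr (S + B) n s = ∑_{m ≤ n} Gr B m s`

PROOF.
(Gr_empty) `Gr x B (m+1) ∅ = 0` (empty sum).
(Gr_comm) induction on `m`, for all `n` and `s` with `|s| = 2n`:
`∑_{i∈s} ∑_{j∈s-i} (ρ_i(s) ρ_j(s-i) S_{ij}) • Gr B m (s-i-j) = (2n - 2m) • Gr B m s`.
`m = 0`: by sum_Sk (module GrS) the sum is `∑_{i∈s} 1 = 2n`.
`m + 1`: if `n = 0` then `s = ∅`, the left side is an empty sum and `Gr B (m+1) ∅ = 0`.  Let `n ≥ 1`.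
Insert the definition of `Gr B (m+1) (s-i-j) = 1/(2(m+1)) ∑_{k} ∑_{l} (ρ_k(s-i-j) ρ_l(s-i-j-k)) •
(B_{kl} Gr B m (s-i-j-k-l))`, exchange the two pairs of sums (swap4), use rho_four (the four indices are
different elements of `s`) and `erase_right_comm`; the left side is
`1/(2(m+1)) ∑_{k∈s} ∑_{l∈s-k} (ρ_k(s) ρ_l(s-k)) • B_{kl} * (∑_{i} ∑_{j} (ρ_i(s-k-l) ρ_j(s-k-l-i) S_{ij}) •
Gr B m (s-k-l-i-j))`; the inner double sum is `(2(n-1) - 2m) • Gr B m (s-k-l)` by the induction hypothesis
for `s-k-l` (it has `2(n-1)` elements and is `Gd`); what remains is `(2n - 2(m+1)) • Gr B (m+1) s`.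
(Gr_add) induction on `n`.  `n = 0`: both sides are 1.  Step: by definition and the induction hypothesis for
`s-i-j`,
`Gr (S+B) (n+1) s = 1/(2(n+1)) ∑∑ (ρ_i ρ_j) • ((S_{ij} + B_{ij}) ∑_{m≤n} Gr B m (s-i-j))
 = 1/(2(n+1)) ∑_{m≤n} ((2(n+1) - 2m) • Gr B m s + (2(m+1)) • Gr B (m+1) s)`
(first part Gr_comm for `n+1`, second part the definition of `Gr B (m+1) s`).  With `g m = Gr B m s` this is
`∑_{m≤n} (1 - m/(n+1)) g m + ∑_{m≤n} ((m+1)/(n+1)) g (m+1) = ∑_{m ≤ n+1} g m`
(`Finset.sum_range_succ'`, `Finset.sum_range_succ`: the coefficient of `g m` is `1 - m/(n+1) + m/(n+1)`).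
-/

set_option autoImplicit false

open Finset Pool.H53.RQ

namespace Pool.Agent.H99.PA

variable {R : Type} [CommRing R] [Algebra ℝ R]

private theorem GrAdd_erase {x : ℕ → ℝ} {s : Finset ℕ} (hs : Gd x s) (i : ℕ) :
    Gd x (s.erase i) :=
  fun a ha b hb hab => hs a (mem_of_mem_erase ha) b (mem_of_mem_erase hb) hab

private theorem GrAdd_succ (x : ℕ → ℝ) (K : ℕ → ℕ → R) (n : ℕ) (s : Finset ℕ) :
    Gr x K (n + 1) s = (1 / (2 * ((n : ℝ) + 1))) • ∑ i ∈ s, ∑ j ∈ s.erase i,
      (rho x s i * rho x (s.erase i) j) • (K i j * Gr x K n ((s.erase i).erase j)) := rfl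

private theorem GrAdd_empty (x : ℕ → ℝ) (K : ℕ → ℕ → R) (n : ℕ) : Gr x K (n + 1) ∅ = 0 := by
  rw [GrAdd_succ]; simp

private theorem GrAdd_card {s : Finset ℕ} {n i j : ℕ} (hc : s.card = 2 * (n + 1)) (hi : i ∈ s)
    (hj : j ∈ s.erase i) : ((s.erase i).erase j).card = 2 * n := by
  rw [card_erase_of_mem hj, card_erase_of_mem hi, hc]
  omega

private theorem GrAdd_tele (g : ℕ → R) (N : ℕ) :
    ∑ m ∈ range (N + 1), ((1 - (m : ℝ) / (N + 1)) • g m + (((m : ℝ) + 1) / (N + 1)) • g (m + 1)) =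
      ∑ m ∈ range (N + 2), g m := by
  have h1 : ∀ m ∈ range (N + 1), ((1 - (m : ℝ) / (N + 1)) • g m +
      (((m : ℝ) + 1) / (N + 1)) • g (m + 1)) = g m + (((((m + 1 : ℕ) : ℝ)) / (N + 1)) • g (m + 1) -
        ((m : ℝ) / (N + 1)) • g m) := by
    intro m _
    rw [sub_smul, one_smul]
    push_cast
    abel
  rw [sum_congr rfl h1, sum_add_distrib,
    Finset.sum_range_sub (fun m : ℕ => (((m : ℕ) : ℝ) / (N + 1)) • g m) (N + 1),
    sum_range_succ _ (N + 1)]
  have h2 : (((N + 1 : ℕ) : ℝ)) / ((N : ℝ) + 1) = 1 := by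
    push_cast
    exact div_self (by positivity)
  rw [h2]
  simp

theorem Gr_comm (x : ℕ → ℝ) (B : ℕ → ℕ → R) (m n : ℕ) (s : Finset ℕ) (hs : Gd x s)
    (hc : s.card = 2 * n) :
    ∑ i ∈ s, ∑ j ∈ s.erase i, (rho x s i * rho x (s.erase i) j * Sk x i j) •
        Gr x B m ((s.erase i).erase j) = (2 * (n : ℝ) - 2 * m) • Gr x B m s := by
  induction m generalizing n s with
  | zero =>
    have h1 : ∀ i ∈ s, ∑ j ∈ s.erase i, (rho x s i * rho x (s.erase i) j * Sk x i j) •
        Gr x B 0 ((s.erase i).erase j) = (1 : R) := by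
      intro i hi
      have h2 : ∀ j ∈ s.erase i, (rho x s i * rho x (s.erase i) j * Sk x i j) •
          Gr x B 0 ((s.erase i).erase j) =
          (rho x s i * rho x (s.erase i) j * Sk x i j) • (1 : R) := fun j _ => rfl
      rw [sum_congr rfl h2, ← sum_smul, sum_Sk x s hs ⟨n, by omega⟩ hi, one_smul]
    rw [sum_congr rfl h1, sum_const, hc]
    show (2 * n) • (1 : R) = (2 * (n : ℝ) - 2 * ((0 : ℕ) : ℝ)) • (1 : R)
    rw [nsmul_eq_mul, mul_one, Algebra.smul_def, mul_one]
    have : ((2 * n : ℕ) : R) = algebraMap ℝ R ((2 * n : ℕ) : ℝ) := by rw [map_natCast]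
    rw [this]
    push_cast
    simp
  | succ m ih =>
    rcases Nat.eq_zero_or_pos n with hn | hn
    · subst hn
      have : s = ∅ := card_eq_zero.1 (by omega)
      subst this
      rw [GrAdd_empty]
      simp
    obtain ⟨n', rfl⟩ : ∃ n', n = n' + 1 := ⟨n - 1, by omega⟩
    have e1 : ∑ i ∈ s, ∑ j ∈ s.erase i, (rho x s i * rho x (s.erase i) j * Sk x i j) •
        Gr x B (m + 1) ((s.erase i).erase j) =
        ∑ i ∈ s, ∑ j ∈ s.erase i, ∑ k ∈ (s.erase i).erase j, ∑ l ∈ ((s.erase i).erase j).erase k,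
          ((1 / (2 * ((m : ℝ) + 1))) * (rho x s i * rho x (s.erase i) j *
            (rho x ((s.erase i).erase j) k * rho x (((s.erase i).erase j).erase k) l)) *
            Sk x i j) • (B k l * Gr x B m ((((s.erase i).erase j).erase k).erase l)) := by
      refine sum_congr rfl fun i _ => sum_congr rfl fun j _ => ?_
      rw [GrAdd_succ, smul_smul, smul_sum]
      refine sum_congr rfl fun k _ => ?_
      rw [smul_sum]
      refine sum_congr rfl fun l _ => ?_
      rw [smul_smul]
      congr 1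
      ring
    rw [e1, swap4]
    have e2 : ∀ k ∈ s, ∀ l ∈ s.erase k,
        ∑ i ∈ (s.erase k).erase l, ∑ j ∈ ((s.erase k).erase l).erase i,
          ((1 / (2 * ((m : ℝ) + 1))) * (rho x s i * rho x (s.erase i) j *
            (rho x ((s.erase i).erase j) k * rho x (((s.erase i).erase j).erase k) l)) *
            Sk x i j) • (B k l * Gr x B m ((((s.erase i).erase j).erase k).erase l)) =
        (2 * (n' : ℝ) - 2 * m) • ((1 / (2 * ((m : ℝ) + 1))) • ((rho x s k * rho x (s.erase k) l) •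
          (B k l * Gr x B m ((s.erase k).erase l)))) := by
      intro k hk l hl
      have hkl : k ≠ l := (ne_of_mem_erase hl).symm
      have hls : l ∈ s := mem_of_mem_erase hl
      have h3 : ∀ i ∈ (s.erase k).erase l, ∀ j ∈ ((s.erase k).erase l).erase i,
          ((1 / (2 * ((m : ℝ) + 1))) * (rho x s i * rho x (s.erase i) j *
            (rho x ((s.erase i).erase j) k * rho x (((s.erase i).erase j).erase k) l)) *
            Sk x i j) • (B k l * Gr x B m ((((s.erase i).erase j).erase k).erase l)) =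
          ((1 / (2 * ((m : ℝ) + 1))) * (rho x s k * rho x (s.erase k) l)) • (B k l *
            ((rho x ((s.erase k).erase l) i * rho x (((s.erase k).erase l).erase i) j *
              Sk x i j) • Gr x B m ((((s.erase k).erase l).erase i).erase j))) := by
        intro i hi j hj
        simp only [mem_erase] at hi hj
        obtain ⟨hil, hik, his⟩ := hi
        obtain ⟨hji, hjl, hjk, hjs⟩ := hj
        have hset : (((s.erase i).erase j).erase k).erase l =
            (((s.erase k).erase l).erase i).erase j := by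
          ext a
          simp only [mem_erase]
          tauto
        rw [rho_four x s his hjs hk hls (Ne.symm hji) hik hil hjk hjl hkl, hset, mul_smul_comm,
          smul_smul]
        congr 1
        ring
      rw [sum_congr rfl fun i hi => sum_congr rfl fun j hj => h3 i hi j hj]
      have h4 := ih n' ((s.erase k).erase l) (GrAdd_erase (GrAdd_erase hs k) l)
        (GrAdd_card hc hk hl)
      rw [sum_congr rfl fun i _ => (smul_sum (s := ((s.erase k).erase l).erase i)).symm,
        ← smul_sum, sum_congr rfl fun i _ => (mul_sum (((s.erase k).erase l).erase i) _ _).symm,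
        ← mul_sum, h4, mul_smul_comm, smul_smul, smul_smul, smul_smul]
      congr 1
      ring
    rw [sum_congr rfl fun k hk => sum_congr rfl fun l hl => e2 k hk l hl]
    rw [GrAdd_succ]
    rw [sum_congr rfl fun k _ => (smul_sum (s := s.erase k)).symm, ← smul_sum,
      sum_congr rfl fun k _ => (smul_sum (s := s.erase k)).symm, ← smul_sum]
    congr 1
    push_cast
    ring

theorem Gr_add (x : ℕ → ℝ) (B : ℕ → ℕ → R) (n : ℕ) (s : Finset ℕ) (hs : Gd x s)
    (hc : s.card = 2 * n) :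
    Gr x (fun i j => algebraMap ℝ R (Sk x i j) + B i j) n s = ∑ m ∈ range (n + 1), Gr x B m s := by
  induction n generalizing s with
  | zero =>
    rw [sum_range_one]
    rfl
  | succ n ih =>
    set r : ℕ → ℕ → ℝ := fun i j => rho x s i * rho x (s.erase i) j with hr
    have e1 : ∀ i ∈ s, ∀ j ∈ s.erase i, (r i j) • ((algebraMap ℝ R (Sk x i j) + B i j) *
        Gr x (fun i j => algebraMap ℝ R (Sk x i j) + B i j) n ((s.erase i).erase j)) =
        ∑ m ∈ range (n + 1), ((r i j * Sk x i j) • Gr x B m ((s.erase i).erase j) +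
          (r i j) • (B i j * Gr x B m ((s.erase i).erase j))) := by
      intro i hi j hj
      rw [ih _ (GrAdd_erase (GrAdd_erase hs i) j) (GrAdd_card hc hi hj), mul_sum, smul_sum]
      refine sum_congr rfl fun m _ => ?_
      rw [add_mul, smul_add, ← Algebra.smul_def, smul_smul]
    have e2 : Gr x (fun i j => algebraMap ℝ R (Sk x i j) + B i j) (n + 1) s =
        (1 / (2 * ((n : ℝ) + 1))) • ∑ i ∈ s, ∑ j ∈ s.erase i, (r i j) •
          ((algebraMap ℝ R (Sk x i j) + B i j) *
            Gr x (fun i j => algebraMap ℝ R (Sk x i j) + B i j) n ((s.erase i).erase j)) := rfl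
    rw [e2, sum_congr rfl fun i hi => sum_congr rfl fun j hj => e1 i hi j hj]
    have e3 : ∑ i ∈ s, ∑ j ∈ s.erase i, ∑ m ∈ range (n + 1),
        ((r i j * Sk x i j) • Gr x B m ((s.erase i).erase j) +
          (r i j) • (B i j * Gr x B m ((s.erase i).erase j))) =
        ∑ m ∈ range (n + 1), ((2 * ((n + 1 : ℕ) : ℝ) - 2 * m) • Gr x B m s +
          (2 * ((m : ℝ) + 1)) • Gr x B (m + 1) s) := by
      rw [sum_congr rfl fun i (_ : i ∈ s) => sum_comm (s := s.erase i), sum_comm]
      refine sum_congr rfl fun m _ => ?_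
      rw [sum_congr rfl fun i (_ : i ∈ s) => sum_add_distrib (s := s.erase i), sum_add_distrib,
        Gr_comm x B m (n + 1) s hs hc, GrAdd_succ, smul_smul]
      have h5 : 2 * ((m : ℝ) + 1) * (1 / (2 * ((m : ℝ) + 1))) = 1 := by
        have : (2 * ((m : ℝ) + 1)) ≠ 0 := by positivity
        field_simp
      rw [h5, one_smul]
    rw [e3, smul_sum, ← GrAdd_tele (fun m => Gr x B m s) n]
    refine sum_congr rfl fun m _ => ?_
    rw [smul_add, smul_smul, smul_smul]
    have hn : ((n : ℝ) + 1) ≠ 0 := by positivity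
    congr 2
    · push_cast
      field_simp
    · field_simp

end Pool.Agent.H99.PA
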