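import Pool.Agent.H99.PA.Defs

/-!
# Module Sg (board pa99_mod, about 90 lines): signs and decreasing lists

`dl T` is the decreasing list of the elements of `T` (definition in Pool.H53.RQ:
`(T.sort (· ≤ ·)).reverse`), `sg T a = (-1)^#{t ∈ T : a < t}`.
PROOF.
(dl_insert) if `t0` is larger than all elements of `T`: `dl (insert t0 T) = t0 :: dl T`.  Both sides are
strictly decreasing lists with the same members (uniqueness: `List.eq_of_perm_of_sorted` /
`List.Perm.eq_of_pairwise`), or `Finset.sort_insert`-type lemmas.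
(dl_insert_zero) `0 ∉ T`: `dl (insert 0 T) = dl T ++ [0]` (same argument).
(sg_*): counting: `sg (insert t T) a = (if a < t then -1 else 1) * sg T a` for `t ∉ T`.
-/

set_option autoImplicit false

open Finset Pool.H53.RQ

namespace Pool.Agent.H99.PA

/-- `(-1)` to the number of elements of `T` larger than `a` -/
noncomputable def sg (T : Finset ℕ) (a : ℕ) : ℝ := (-1) ^ (T.filter (fun t => a < t)).card

theorem dl_length (T : Finset ℕ) : (dl T).length = T.card := by
  unfold dl
  simp

theorem mem_dl (T : Finset ℕ) (a : ℕ) : a ∈ dl T ↔ a ∈ T := by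
  unfold dl
  simp

theorem dl_empty : dl (∅ : Finset ℕ) = [] := by
  unfold dl
  simp

private theorem Sg_sorted (T : Finset ℕ) : (T.sort (· ≤ ·)).Pairwise (· ≤ ·) :=
  T.pairwise_sort (· ≤ ·)

private theorem Sg_eq (l m : List ℕ) (hl : l.Pairwise (· ≤ ·)) (hm : m.Pairwise (· ≤ ·))
    (h : l.Perm m) : l = m :=
  h.eq_of_pairwise (fun _ _ _ _ h1 h2 => le_antisymm h1 h2) hl hm

theorem dl_insert (T : Finset ℕ) (t0 : ℕ) (h : ∀ t ∈ T, t < t0) :
    dl (insert t0 T) = t0 :: dl T := by
  have hn : t0 ∉ T := fun hh => lt_irrefl _ (h t0 hh)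
  unfold dl
  have e : (insert t0 T).sort (· ≤ ·) = T.sort (· ≤ ·) ++ [t0] := by
    apply Sg_eq _ _ (Sg_sorted _)
    · rw [List.pairwise_append]
      refine ⟨Sg_sorted T, List.pairwise_singleton _ _, ?_⟩
      intro a ha b hb
      rw [List.mem_singleton] at hb
      subst hb
      exact (h a ((Finset.mem_sort (· ≤ ·)).1 ha)).le
    · rw [List.perm_ext_iff_of_nodup (Finset.sort_nodup _ _)]
      · intro a
        simp only [Finset.mem_sort, Finset.mem_insert, List.mem_append, List.mem_singleton]
        tauto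
      · rw [List.nodup_append]
        refine ⟨Finset.sort_nodup _ _, List.nodup_singleton _, ?_⟩
        intro a ha b hb
        rw [List.mem_singleton] at hb
        subst hb
        exact (h a ((Finset.mem_sort (· ≤ ·)).1 ha)).ne
  rw [e, List.reverse_append]
  simp

theorem dl_insert_zero (T : Finset ℕ) (h : 0 ∉ T) : dl (insert 0 T) = dl T ++ [0] := by
  unfold dl
  have e : (insert 0 T).sort (· ≤ ·) = 0 :: T.sort (· ≤ ·) := by
    apply Sg_eq _ _ (Sg_sorted _)
    · rw [List.pairwise_cons]
      exact ⟨fun a _ => Nat.zero_le a, Sg_sorted T⟩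
    · rw [List.perm_ext_iff_of_nodup (Finset.sort_nodup _ _)]
      · intro a
        simp only [Finset.mem_sort, Finset.mem_insert, List.mem_cons]
      · rw [List.nodup_cons]
        exact ⟨fun hh => h ((Finset.mem_sort (· ≤ ·)).1 hh), Finset.sort_nodup _ _⟩
  rw [e, List.reverse_cons]

theorem sg_insert (T : Finset ℕ) (t a : ℕ) (ht : t ∉ T) :
    sg (insert t T) a = (if a < t then -1 else 1) * sg T a := by
  unfold sg
  rw [Finset.filter_insert]
  split_ifs with h
  · rw [Finset.card_insert_of_notMem (by simp [ht]), pow_succ]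
    ring
  · rw [one_mul]

theorem sg_mul_self (T : Finset ℕ) (a : ℕ) : sg T a * sg T a = 1 := by
  unfold sg
  rw [← mul_pow]
  norm_num

end Pool.Agent.H99.PA
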