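import Pool.Agent.H99.PA.Defs

/-!
# Module XX (board pa99_mod, about 40 lines): the nodes of the window are good

PROOF.  `xx q N i = q^i` for `i < N` and `0` otherwise; all values are `≥ 0`, the powers `q^i` are positive and
pairwise distinct (`0 < q < 1`: `pow_right_injective₀` or strict antitonicity), and `range (2 * ((N+1)/2))`
contains at most one index `≥ N` (`N` itself when `N` is odd).  Sum of two different nodes: one of them is
positive, the other nonnegative.
-/

set_option autoImplicit false

open Finset Pool.H53.RQ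

namespace Pool.Agent.H99.PA

theorem Gd_xx (q : ℝ) (hq0 : 0 < q) (hq1 : q < 1) (N n : ℕ) (hn : n = (N + 1) / 2) :
    Gd (xx q N) (range (2 * n)) := by
  have hpos : ∀ i, 0 < q ^ i := fun i => pow_pos hq0 i
  have hne : ∀ i j : ℕ, i ≠ j → q ^ i ≠ q ^ j := fun i j hij h =>
    hij ((pow_right_strictAnti₀ hq0 hq1).injective h)
  intro i hi j hj hij
  rw [mem_range] at hi hj
  unfold xx
  by_cases h1 : i < N <;> by_cases h2 : j < N
  · rw [if_pos h1, if_pos h2]
    exact ⟨sub_ne_zero.2 (hne i j hij), (add_pos (hpos i) (hpos j)).ne'⟩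
  · rw [if_pos h1, if_neg h2, sub_zero, add_zero]
    exact ⟨(hpos i).ne', (hpos i).ne'⟩
  · rw [if_neg h1, if_pos h2, zero_sub, zero_add]
    exact ⟨neg_ne_zero.2 (hpos j).ne', (hpos j).ne'⟩
  · omega

end Pool.Agent.H99.PA
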