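import Pool.Agent.H99.PA.StabP
import Pool.Agent.H99.PA.Sg
import Pool.Agent.H99.PA.XX

/-!
# Module Reo (board pa99_mod, about 160 lines): from even sets of exponents to strict partitions

`n = (N+1)/2`; `SP d` = sets of positive numbers of sum `d`; `TT m d` = sets of `2m` numbers (0 allowed) of
sum `d`.
PROOF.  Map `s ∈ SP d` to `T = s` if `s.card` is even and `T = insert 0 s` if it is odd; inverse
`T ↦ T.erase 0`.  It is a bijection of `SP d` onto all even sets `T ⊆ range (d+1)` of sum `d` (for `s ∈ SP d`
the elements are between 1 and `d`), so onto the disjoint union of the `TT m d`, `m : ℕ`.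
(1) `cf q (dl s) = pf (Akm q) (dl T)`: `(dl s).length = s.card`; for odd `s.card`, `dl (insert 0 s) = dl s ++ [0]`
    (dl_insert_zero).
(2) `P (xx q N) (dl T) (range (2n)) = P (fun i => q^i) (dl s) (range N)` when `T.card ≤ 2n`:
    if `0 ∈ T`: P_append_zero for `l = dl s`, `2n - s.card` is odd (`Gd_xx`); then `range (2n) = range N`
    (`N` even) or `insert N (range N)` (`N` odd: P_zero_node with `k = N`, `xx q N N = 0`, all parts positive,
    `xx q N j = q^j ≠ 0`), and P_congr.
(3) if `T.card > 2n`, that is `T.card ≥ 2n + 2`, then `s.card ≥ 2n + 1 > N` and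
    `P (fun i => q^i) (dl s) (range N) = 0` (P_big): these `s` do not contribute on the right.
So the right side is the sum over the `s` with `T.card = 2m`, `m ≤ n`, and this is the left side
(`Finset.sum_bij` or `Finset.sum_nbij'` after `Finset.sum_sigma'`; or
`Finset.sum_fiberwise`-style with `m = T.card / 2`).
-/

set_option autoImplicit false

open Finset Pool.H53.RQ

namespace Pool.Agent.H99.PA

private noncomputable def phi (s : Finset ℕ) : Finset ℕ :=
  if Even s.card then s else insert 0 s

private theorem phi_even {s : Finset ℕ} (h : Even s.card) : phi s = s := if_pos h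

private theorem phi_odd {s : Finset ℕ} (h : ¬ Even s.card) : phi s = insert 0 s := if_neg h

private theorem even_phi {s : Finset ℕ} (h0 : 0 ∉ s) : Even (phi s).card := by
  by_cases h : Even s.card
  · rw [phi_even h]; exact h
  · rw [phi_odd h, card_insert_of_notMem h0]
    exact Odd.add_odd (Nat.not_even_iff_odd.1 h) odd_one

private theorem sum_phi (s : Finset ℕ) (h0 : 0 ∉ s) : ∑ i ∈ phi s, i = ∑ i ∈ s, i := by
  by_cases h : Even s.card
  · rw [phi_even h]
  · rw [phi_odd h, sum_insert h0, zero_add]

private theorem erase_phi {s : Finset ℕ} (h0 : 0 ∉ s) : (phi s).erase 0 = s := by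
  by_cases h : Even s.card
  · rw [phi_even h]; exact erase_eq_of_notMem h0
  · rw [phi_odd h]; exact erase_insert h0

private theorem phi_erase {T : Finset ℕ} (hT : Even T.card) : phi (T.erase 0) = T := by
  by_cases h : 0 ∈ T
  · have hc : (T.erase 0).card + 1 = T.card := card_erase_add_one h
    have hn : ¬ Even (T.erase 0).card := by
      intro he
      rw [← hc] at hT
      exact (Nat.not_even_iff_odd.2 (he.add_one)) hT
    rw [phi_odd hn, insert_erase h]
  · rw [erase_eq_of_notMem h, phi_even hT]

private theorem P_xx (q : ℝ) (hq0 : 0 < q) (N n : ℕ) (hn : n = (N + 1) / 2)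
    (l : List ℕ) (hl : ∀ a ∈ l, 0 < a) :
    P (xx q N) l (range (2 * n)) = P (fun i => q ^ i) l (range N) := by
  have hcongr : P (xx q N) l (range N) = P (fun i => q ^ i) l (range N) := by
    apply P_congr
    intro j hj
    rw [mem_range] at hj
    simp only [xx, if_pos hj]
  rcases Nat.even_or_odd' N with ⟨k, hk | hk⟩
  · have : 2 * n = N := by omega
    rw [this, hcongr]
  · have h2 : 2 * n = N + 1 := by omega
    rw [h2, range_add_one, P_zero_node (xx q N) l hl (range N) N (by simp) (by simp [xx]) ?_,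
      hcongr]
    intro j hj
    rw [mem_range] at hj
    simp only [xx, if_pos hj]
    exact (pow_pos hq0 j).ne'

private theorem term_eq (q : ℝ) (hq0 : 0 < q) (hq1 : q < 1) (N n : ℕ) (hn : n = (N + 1) / 2)
    (s : Finset ℕ) (h0 : 0 ∉ s) :
    cf q (dl s) * P (fun i => q ^ i) (dl s) (range N) =
      if (phi s).card ≤ 2 * n then
        pf (Akm q) (dl (phi s)) * P (xx q N) (dl (phi s)) (range (2 * n)) else 0 := by
  have hpos : ∀ a ∈ dl s, 0 < a := by
    intro a ha
    rw [mem_dl] at ha
    rcases Nat.eq_zero_or_pos a with h | h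
    · exact absurd (h ▸ ha) h0
    · exact h
  have hcf : cf q (dl s) = pf (Akm q) (dl (phi s)) := by
    unfold cf
    rw [dl_length]
    by_cases h : Even s.card
    · rw [if_pos h, phi_even h]
    · rw [if_neg h, phi_odd h, dl_insert_zero s h0]
  split_ifs with hle
  · rw [hcf]
    congr 1
    have key : P (xx q N) (dl (phi s)) (range (2 * n)) = P (xx q N) (dl s) (range (2 * n)) := by
      by_cases h : Even s.card
      · rw [phi_even h]
      · rw [phi_odd h, dl_insert_zero s h0]
        apply P_append_zero _ _ _ (Gd_xx q hq0 hq1 N n hn)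
        intro hlen
        rw [dl_length, card_range] at hlen ⊢
        rcases Nat.not_even_iff_odd.1 h with ⟨k, hk⟩
        exact ⟨n - k - 1, by omega⟩
    rw [key, P_xx q hq0 N n hn _ hpos]
  · have he := even_phi h0
    have hc : (phi s).card ≤ s.card + 1 := by
      by_cases h : Even s.card
      · rw [phi_even h]; omega
      · rw [phi_odd h]; exact card_insert_le 0 s
    rw [P_big, mul_zero]
    rw [card_range, dl_length]
    rcases he with ⟨k, hk⟩
    omega

private theorem mem_SP' {d : ℕ} {s : Finset ℕ} :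
    s ∈ SP d ↔ s ⊆ Icc 1 d ∧ ∑ i ∈ s, i = d := by
  simp only [SP, mem_filter, mem_powerset]

private theorem zero_notMem {d : ℕ} {s : Finset ℕ} (hs : s ∈ SP d) : 0 ∉ s := by
  intro h
  have := (mem_SP'.1 hs).1 h
  simp at this

private theorem mem_TT' {m d : ℕ} {T : Finset ℕ} :
    T ∈ TT m d ↔ (T ⊆ range (d + 1) ∧ T.card = 2 * m) ∧ ∑ i ∈ T, i = d := by
  simp only [TT, mem_filter, mem_powersetCard]

theorem reorg (q : ℝ) (hq0 : 0 < q) (hq1 : q < 1) (N n : ℕ) (hn : n = (N + 1) / 2) (d : ℕ) :
    ∑ m ∈ range (n + 1), ∑ T ∈ TT m d, pf (Akm q) (dl T) * P (xx q N) (dl T) (range (2 * n)) =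
      ∑ s ∈ SP d, cf q (dl s) * P (fun i => q ^ i) (dl s) (range N) := by
  have h1 : ∑ s ∈ SP d, cf q (dl s) * P (fun i => q ^ i) (dl s) (range N) =
      ∑ s ∈ SP d, (if (phi s).card ≤ 2 * n then
        pf (Akm q) (dl (phi s)) * P (xx q N) (dl (phi s)) (range (2 * n)) else 0) :=
    sum_congr rfl fun s hs => term_eq q hq0 hq1 N n hn s (zero_notMem hs)
  rw [h1, ← sum_filter, Finset.sum_sigma']
  symm
  refine Finset.sum_nbij' (fun s => ⟨(phi s).card / 2, phi s⟩) (fun p => p.2.erase 0)
    ?_ ?_ ?_ ?_ ?_
  · intro s hs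
    rw [mem_filter] at hs
    have h0 := zero_notMem hs.1
    rcases even_phi h0 with ⟨k, hk⟩
    have hsum := (mem_SP'.1 hs.1).2
    have hsub := (mem_SP'.1 hs.1).1
    rw [mem_sigma, mem_range, mem_TT']
    refine ⟨?_, ⟨?_, ?_⟩, ?_⟩
    · show (phi s).card / 2 < n + 1
      omega
    · show phi s ⊆ range (d + 1)
      intro a ha
      rw [mem_range]
      by_cases h : Even s.card
      · rw [phi_even h] at ha
        have := mem_Icc.1 (hsub ha)
        omega
      · rw [phi_odd h, mem_insert] at ha
        rcases ha with ha | ha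
        · omega
        · have := mem_Icc.1 (hsub ha)
          omega
    · show (phi s).card = 2 * ((phi s).card / 2)
      omega
    · show ∑ i ∈ phi s, i = d
      rw [sum_phi s h0, hsum]
  · rintro ⟨m, T⟩ hT
    rw [mem_sigma, mem_range, mem_TT'] at hT
    obtain ⟨hm, ⟨hsub, hcard⟩, hsum⟩ := hT
    simp only at hm hsub hcard hsum
    have he : Even T.card := ⟨m, by omega⟩
    show T.erase 0 ∈ _
    rw [mem_filter, mem_SP', phi_erase he]
    refine ⟨⟨?_, ?_⟩, by omega⟩
    · intro a ha
      rw [mem_erase] at ha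
      have := mem_range.1 (hsub ha.2)
      rw [mem_Icc]
      omega
    · rw [← hsum]
      exact sum_erase T rfl
  · intro s hs
    rw [mem_filter] at hs
    exact erase_phi (zero_notMem hs.1)
  · rintro ⟨m, T⟩ hT
    rw [mem_sigma, mem_range, mem_TT'] at hT
    obtain ⟨hm, ⟨hsub, hcard⟩, hsum⟩ := hT
    simp only at hm hsub hcard hsum
    have he : Even T.card := ⟨m, by omega⟩
    show (⟨(phi (T.erase 0)).card / 2, phi (T.erase 0)⟩ : Σ _ : ℕ, Finset ℕ) = ⟨m, T⟩
    rw [phi_erase he]
    have : T.card / 2 = m := by omega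
    rw [this]
  · intro s hs
    rfl

end Pool.Agent.H99.PA
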