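import Pool.Agent.H99.PA.Gen
import Pool.Agent.H99.PA.GrAdd
import Pool.Agent.H99.PA.Cof
import Pool.Agent.H99.PA.Reo
import Pool.Agent.H94.IQ.Mat

/-!
# Module FinA (board pa99_mod, about 80 lines): part (A)

PROOF.  Let `n' = (N+1)/2`, `s = range (2 n')`, `x = xx q N`, `G = Gr x (Sk + Bk) n' s ∈ ℝ⟦X⟧`.
By `gen` (module Gen), `G * D = 1` with `D = (∏_{i<N} (1 - C (q^i) X)) * ∏_{j<N} ∏_{i<j} (1 - C (q^(i+j)) X^2)`; by
`Pool.Agent.H94.IQ.Fp_gf`, `(mk fun n => aeval q (Fp n N)) * D' = 1` with the same product written over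
`Fin N` and over the pairs `e.1 < e.2` of `Fin N × Fin N` (`Finset.prod_range`,
`Finset.prod_sigma'` / `Finset.prod_bij`); so the two series are equal (inverses are unique in a commutative
ring).  Coefficient `n`: `F q n N = coeff n G`.
`G = ∑_{m ≤ n'} Gr x (Bk (Akm q) x) m s` (Gr_add, Gd_xx, `Finset.card_range`), coefficient `n` by coeff_Gr
(Akm_anti), and reorg (module Reo).
-/

set_option autoImplicit false

open Finset Pool.H53.RQ PowerSeries

namespace Pool.Agent.H99.PA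

private theorem FinA_pairs {M : Type*} [CommMonoid M] (f : ℕ → ℕ → M) (N : ℕ) :
    ∏ e ∈ (univ : Finset (Fin N × Fin N)).filter (fun e => e.1 < e.2), f e.1 e.2 =
      ∏ j ∈ range N, ∏ i ∈ range j, f i j := by
  rw [Finset.prod_filter, Fintype.prod_prod_type_right]
  have h1 : ∀ j : Fin N, ∏ i : Fin N, (if i < j then f i j else 1) = ∏ i ∈ range (j : ℕ), f i j := by
    intro j
    have h2 : ∏ i : Fin N, (if i < j then f i j else 1)
        = ∏ i ∈ range N, (if i < (j : ℕ) then f i j else 1) := by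
      rw [← Fin.prod_univ_eq_prod_range (fun i => if i < (j : ℕ) then f i j else 1) N]
      exact Finset.prod_congr rfl fun i _ => by simp only [Fin.lt_def]
    rw [h2, ← Finset.prod_filter]
    refine Finset.prod_congr ?_ fun _ _ => rfl
    ext i
    simp only [mem_filter, mem_range]
    have := j.2
    omega
  rw [Finset.prod_congr rfl fun j _ => h1 j]
  exact Fin.prod_univ_eq_prod_range (fun j => ∏ i ∈ range j, f i j) N

theorem partA (q : ℝ) (hq0 : 0 < q) (hq1 : q < 1) (n N : ℕ) :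
    F q n N = ∑ s ∈ SP n, cf q (dl s) * P (fun i => q ^ i) (dl s) (range N) := by
  have h1 := gen q hq0 hq1 N ((N + 1) / 2) rfl
  have h2 := Pool.Agent.H94.IQ.Fp_gf q N
  have hD : ((∏ i : Fin N, (1 - C (q ^ (i : ℕ)) * X)) *
        ∏ e ∈ (univ : Finset (Fin N × Fin N)).filter (fun e => e.1 < e.2),
          (1 - C (q ^ ((e.1 : ℕ) + e.2)) * X ^ 2) : PowerSeries ℝ) =
      (∏ i ∈ range N, (1 - C (q ^ i) * X)) *
        ∏ j ∈ range N, ∏ i ∈ range j, (1 - C (q ^ (i + j)) * X ^ 2) := by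
    congr 1
    · exact Fin.prod_univ_eq_prod_range (fun i => (1 - C (q ^ i) * X : PowerSeries ℝ)) N
    · exact FinA_pairs (fun i j => (1 - C (q ^ (i + j)) * X ^ 2 : PowerSeries ℝ)) N
  rw [hD] at h2
  have h3 : (PowerSeries.mk fun n => Polynomial.aeval q (Pool.H56.Inv.Fp n N))
      = Gr (xx q N) (fun i j => algebraMap ℝ (PowerSeries ℝ) (Sk (xx q N) i j) +
        Bk (Akm q) (xx q N) i j) ((N + 1) / 2) (range (2 * ((N + 1) / 2))) :=
    left_inv_eq_right_inv h2 ((mul_comm _ _).trans h1)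
  have h4 : F q n N = coeff n (Gr (xx q N) (fun i j => algebraMap ℝ (PowerSeries ℝ)
        (Sk (xx q N) i j) + Bk (Akm q) (xx q N) i j) ((N + 1) / 2)
        (range (2 * ((N + 1) / 2)))) := by
    rw [← h3, coeff_mk]
    rfl
  rw [h4, Gr_add (xx q N) (Bk (Akm q) (xx q N)) ((N + 1) / 2) _ (Gd_xx q hq0 hq1 N _ rfl)
    (card_range _), map_sum, ← reorg q hq0 hq1 N ((N + 1) / 2) rfl n]
  exact Finset.sum_congr rfl fun m _ => coeff_Gr (Akm q) (Akm_anti q) (xx q N) m n _

end Pool.Agent.H99.PA
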