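import Mathlib
import Pool.Agent.H53.RQ.Defs

/-!
# MP_1e629d_co, part (A): common definitions (board pa99_mod)

Proof of `Pool.H53.RQ.partA` without Pfaffian minors and without sums over permutations: everything is a
recursion over pairs of nodes of a finite set.  `P`, `w`, `psi`, `Akm`, `pf`, `cf`, `SP`, `dl`, `F` are the
definitions of `Pool.H53.RQ`.
-/

set_option autoImplicit false

open Finset Pool.H53.RQ

namespace Pool.Agent.H99.PA

/-- the nodes of `s` are pairwise distinct and no two different ones have sum zero -/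
def Gd (x : ℕ → ℝ) (s : Finset ℕ) : Prop :=
  ∀ i ∈ s, ∀ j ∈ s, i ≠ j → x i - x j ≠ 0 ∧ x i + x j ≠ 0

/-- `ρ_j(s) = ∏_{i ∈ s - j} (x_j + x_i)/(x_j - x_i)` -/
noncomputable def rho (x : ℕ → ℝ) (s : Finset ℕ) (j : ℕ) : ℝ :=
  ∏ i ∈ s.erase j, (x j + x i) / (x j - x i)

/-- the Schur kernel `(x_i - x_j)/(x_i + x_j)` -/
noncomputable def Sk (x : ℕ → ℝ) (i j : ℕ) : ℝ := (x i - x j) / (x i + x j)

/-- The normalised Pfaffian of the kernel `K` (of `n` pairs of nodes of `s`), by recursion over the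
pairs:  `Gr K (n+1) s = 1/(2(n+1)) ∑_{i ∈ s} ∑_{j ∈ s - i} ρ_i(s) ρ_j(s-i) K_{ij} Gr K n (s-i-j)`. -/
noncomputable def Gr {R : Type} [CommRing R] [Algebra ℝ R] (x : ℕ → ℝ) (K : ℕ → ℕ → R) :
    ℕ → Finset ℕ → R
  | 0, _ => 1
  | n + 1, s => (1 / (2 * ((n : ℝ) + 1))) • ∑ i ∈ s, ∑ j ∈ s.erase i,
      (rho x s i * rho x (s.erase i) j) • (K i j * Gr x K n ((s.erase i).erase j))

/-- the Hankel determinant `H_s(f) = det_{a,b < n} ∑_{k ∈ s} λ_k X_k^{a+b} f_k`, `X_k = x_k²`,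
`λ_k = ∏_{l ∈ s - k} 1/(X_k - X_l)` -/
noncomputable def lam (x : ℕ → ℝ) (s : Finset ℕ) (k : ℕ) : ℝ :=
  ∏ l ∈ s.erase k, (x k ^ 2 - x l ^ 2)⁻¹

/-- the Gram matrix of the monomials -/
noncomputable def Gm {R : Type} [CommRing R] [Algebra ℝ R] (x : ℕ → ℝ) (n : ℕ) (s : Finset ℕ)
    (f : ℕ → R) : Matrix (Fin n) (Fin n) R :=
  Matrix.of fun a b => ∑ k ∈ s, (lam x s k * (x k ^ 2) ^ ((a : ℕ) + (b : ℕ))) • f k

/-- `H_s(f)` -/
noncomputable def Hk {R : Type} [CommRing R] [Algebra ℝ R] (x : ℕ → ℝ) (n : ℕ) (s : Finset ℕ)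
    (f : ℕ → R) : R := (Gm x n s f).det

/-- `E(s)² = ∏_{i ∈ s} ∏_{j ∈ s, j ≠ i} (x_i + x_j)` (each pair twice) -/
noncomputable def E2 (x : ℕ → ℝ) (s : Finset ℕ) : ℝ := ∏ i ∈ s, ∏ j ∈ s.erase i, (x i + x j)

/-- the two-variable series `∑_{a+b=d} A_{ab} x_i^a x_j^b u^d` -/
noncomputable def Bk (A : ℕ → ℕ → ℝ) (x : ℕ → ℝ) (i j : ℕ) : PowerSeries ℝ :=
  PowerSeries.mk fun d => ∑ p ∈ antidiagonal d, A p.1 p.2 * x i ^ p.1 * x j ^ p.2

/-- sets of `2m` exponents of sum `d` -/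
def TT (m d : ℕ) : Finset (Finset ℕ) :=
  ((range (d + 1)).powersetCard (2 * m)).filter fun T => ∑ i ∈ T, i = d

/-- the sequence `A_{km}`: coefficients of the kernel; `A_{00} = 0`, `A_{k0} = 1`, `A_{0k} = -1`
are PROVED in module Psi. -/
noncomputable def Wc (q c : ℝ) : PowerSeries ℝ :=
  PowerSeries.mk fun n => if Even n then w q (n / 2) * c ^ (n / 2) else 0

/-- `(α;q²)_m = ∏_{s<m} (1 - q^{2s} α)` in an algebra -/
noncomputable def Qp {R : Type} [CommRing R] [Algebra ℝ R] (q : ℝ) (α : R) (m : ℕ) : R :=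
  ∏ s ∈ range m, (1 - (q ^ (2 * s)) • α)

/-- the nodes `1, q, …, q^{N-1}`, and `0` from the index `N` on -/
noncomputable def xx (q : ℝ) (N i : ℕ) : ℝ := if i < N then q ^ i else 0

end Pool.Agent.H99.PA
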