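import Pool.Agent.H99.PA.Defs

/-!
# Module Adj (board pa99_mod, about 110 lines): the shifted minor and the adjugate

PROOF of det_shift.  Let `U y : Matrix (Fin (n+1)) (Fin (n+1)) R` have first row `e_0` and row `a+1` equal to
`e_{a+1} - y e_a`: `U y i j = if i = j then 1 else if (i : ℕ) = j + 1 then -y else 0`.  It is lower triangular
with diagonal 1, so `det (U y) = 1` (`Matrix.det_of_lowerTriangular`).  Let `M = U y * G * (U z)ᵀ`; for
`a b : Fin n`: `M a.succ b.succ = G a.succ b.succ - y G a.castSucc b.succ - z G a.succ b.castSucc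
+ y z G a.castSucc b.castSucc`.  So the left side is the determinant of `M` without its first row and column,
`= M.adjugate 0 0` (`Matrix.adjugate_fin_succ_eq_det_submatrix`, `Fin.succAbove_zero`).  Now
`adjugate (A * B) = adjugate B * adjugate A` (`Matrix.adjugate_mul_distrib`), so
`M.adjugate 0 0 = ∑ a b, ((U z)ᵀ).adjugate 0 a * G.adjugate a b * (U y).adjugate b 0`.
`(U y).adjugate *ᵥ e_0 = (y ^ b)_b`: with `V = (y ^ b)_b` one has `U y *ᵥ V = e_0` (row `b+1`:
`y ^ (b+1) - y * y ^ b = 0`), so `adjugate *ᵥ e_0 = adjugate *ᵥ (U y *ᵥ V) = det • V = V`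
(`Matrix.adjugate_mul`).  Same for the transpose (`Matrix.adjugate_transpose`).
(Any other proof is fine, for example by induction or row operations.)
-/

set_option autoImplicit false

open Finset

namespace Pool.Agent.H99.PA

private def Um {R : Type} [CommRing R] (n : ℕ) (y : R) : Matrix (Fin (n + 1)) (Fin (n + 1)) R :=
  Matrix.of fun i j => if i = j then 1 else if (i : ℕ) = (j : ℕ) + 1 then -y else 0

private lemma Um_det {R : Type} [CommRing R] (n : ℕ) (y : R) : (Um n y).det = 1 := by
  rw [Matrix.det_of_lowerTriangular (Um n y) ?_]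
  · simp [Um]
  · intro i j hij
    have hij' : i < j := by simpa using hij
    have h1 : ¬ i = j := ne_of_lt hij'
    have h2 : ¬ ((i : ℕ) = (j : ℕ) + 1) := by
      have := Fin.lt_def.mp hij'
      omega
    simp [Um, h1, h2]

private lemma Um_succ {R : Type} [CommRing R] (n : ℕ) (y : R) (a : Fin n) (i : Fin (n + 1)) :
    Um n y a.succ i = (if i = a.succ then 1 else 0) + (if i = a.castSucc then -y else 0) := by
  unfold Um
  rw [Matrix.of_apply]
  by_cases h : a.succ = i
  · subst h
    have : ¬ (a.succ = a.castSucc) := by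
      intro h
      have := congrArg Fin.val h
      simp at this
    simp [this]
  · have h' : ¬ (i = a.succ) := fun e => h e.symm
    rw [if_neg h, if_neg h', zero_add]
    by_cases h2 : i = a.castSucc
    · subst h2
      simp
    · rw [if_neg h2, if_neg]
      intro h3
      apply h2
      apply Fin.ext
      simp at h3
      simp [h3]

private lemma Um_zero {R : Type} [CommRing R] (n : ℕ) (y : R) (i : Fin (n + 1)) :
    Um n y 0 i = if i = 0 then 1 else 0 := by
  unfold Um
  rw [Matrix.of_apply]
  by_cases h : i = 0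
  · subst h
    simp
  · have h' : ¬ ((0 : Fin (n + 1)) = i) := fun e => h e.symm
    rw [if_neg h, if_neg h', if_neg]
    intro h3
    simp at h3

private lemma Um_mulVec {R : Type} [CommRing R] (n : ℕ) (y : R) :
    (Um n y).mulVec (fun b : Fin (n + 1) => y ^ (b : ℕ)) = Pi.single 0 1 := by
  funext i
  refine Fin.cases ?_ ?_ i
  · simp only [Matrix.mulVec, dotProduct, Um_zero]
    simp
  · intro a
    simp only [Matrix.mulVec, dotProduct, Um_succ, add_mul, Finset.sum_add_distrib, ite_mul,
      zero_mul, Finset.sum_ite_eq', Finset.mem_univ, if_true]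
    simp [pow_succ, mul_comm]

private lemma Um_adj {R : Type} [CommRing R] (n : ℕ) (y : R) (b : Fin (n + 1)) :
    (Um n y).adjugate b 0 = y ^ (b : ℕ) := by
  have h := congrArg (fun v => (Um n y).adjugate.mulVec v) (Um_mulVec n y)
  simp only [Matrix.mulVec_mulVec, Matrix.adjugate_mul, Um_det, one_smul, Matrix.one_mulVec] at h
  have h2 := congrFun h b
  rw [Matrix.mulVec_single_one] at h2
  simpa [Matrix.col] using h2.symm

theorem det_shift {R : Type} [CommRing R] (n : ℕ) (G : Matrix (Fin (n + 1)) (Fin (n + 1)) R)
    (y z : R) :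
    (Matrix.of fun a b : Fin n => G a.succ b.succ - y * G a.castSucc b.succ
        - z * G a.succ b.castSucc + y * z * G a.castSucc b.castSucc).det =
      ∑ a : Fin (n + 1), ∑ b : Fin (n + 1), z ^ (a : ℕ) * G.adjugate a b * y ^ (b : ℕ) := by
  have hM : (Matrix.of fun a b : Fin n => G a.succ b.succ - y * G a.castSucc b.succ
        - z * G a.succ b.castSucc + y * z * G a.castSucc b.castSucc) =
      (Um n y * G * (Um n z).transpose).submatrix ((0 : Fin (n + 1)).succAbove)
        ((0 : Fin (n + 1)).succAbove) := by
    ext a b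
    simp only [Matrix.of_apply, Matrix.submatrix_apply, Fin.succAbove_zero]
    have h1 : ∀ c, (Um n y * G) a.succ c = G a.succ c - y * G a.castSucc c := by
      intro c
      simp only [Matrix.mul_apply, Um_succ, add_mul, Finset.sum_add_distrib, ite_mul, zero_mul,
        one_mul, Finset.sum_ite_eq', Finset.mem_univ, if_true]
      ring
    rw [Matrix.mul_apply]
    simp only [h1, Matrix.transpose_apply, Um_succ, mul_add, Finset.sum_add_distrib, mul_ite,
      mul_zero, mul_one, Finset.sum_ite_eq', Finset.mem_univ, if_true]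
    ring
  rw [hM]
  have h0 := Matrix.adjugate_fin_succ_eq_det_submatrix (Um n y * G * (Um n z).transpose) 0 0
  simp only [Fin.val_zero, add_zero, pow_zero, one_mul] at h0
  rw [← h0, Matrix.adjugate_mul_distrib, Matrix.adjugate_mul_distrib, ← Matrix.adjugate_transpose,
    Matrix.mul_apply]
  refine Finset.sum_congr rfl fun a _ => ?_
  rw [Matrix.mul_apply, Finset.mul_sum, Matrix.transpose_apply, Um_adj]
  refine Finset.sum_congr rfl fun b _ => ?_
  rw [Um_adj]
  ring

end Pool.Agent.H99.PA
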