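import Pool.Agent.H99.PA.Sg

/-!
# Module CofA (board pa99_mod, about 110 lines): one step of the coefficient formula

PROOF.  Unfold `Gr (m+1)`; `coeff d` is linear over `ℝ` (`PowerSeries.coeff_smul` / `map_smul`, `map_sum`), and
`coeff d (Bk A x i j * G) = ∑_{p∈antidiagonal d} (∑_{t∈antidiagonal p.1} A t.1 t.2 x_i^t.1 x_j^t.2) * coeff p.2 G`
(`PowerSeries.coeff_mul`, `coeff_mk`).  Insert the hypothesis for `G = Gr x (Bk A x) m ((s.erase i).erase j)`,
bring the sums over `i`, `j` inside (`Finset.sum_comm`, `Finset.mul_sum`), and recognise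
`∑_{i∈s} ∑_{j∈s-i} x_i^a x_j^b ρ_i(s) ρ_j(s-i) P x l (s-i-j) = P x (a::b::l) s` (the definition of `P`
unfolded twice).
-/

set_option autoImplicit false

open Finset Pool.H53.RQ PowerSeries

namespace Pool.Agent.H99.PA

theorem P_cons_cons (x : ℕ → ℝ) (a b : ℕ) (l : List ℕ) (s : Finset ℕ) :
    P x (a :: b :: l) s = ∑ i ∈ s, ∑ j ∈ s.erase i, (rho x s i * rho x (s.erase i) j) *
      (x i ^ a * x j ^ b * P x l ((s.erase i).erase j)) := by
  show ∑ i ∈ s, x i ^ a * rho x s i * (∑ j ∈ s.erase i, x j ^ b * rho x (s.erase i) j *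
      P x l ((s.erase i).erase j)) = _
  refine sum_congr rfl fun i _ => ?_
  rw [mul_sum]
  refine sum_congr rfl fun j _ => ?_
  ring

private theorem CofA_swap {α : Type} (s : Finset ℕ) (U : Finset α) (g : ℕ → ℕ → α → ℝ) :
    ∑ i ∈ s, ∑ j ∈ s.erase i, ∑ u ∈ U, g i j u = ∑ u ∈ U, ∑ i ∈ s, ∑ j ∈ s.erase i, g i j u := by
  have h : ∀ i ∈ s, ∑ j ∈ s.erase i, ∑ u ∈ U, g i j u = ∑ u ∈ U, ∑ j ∈ s.erase i, g i j u :=
    fun i _ => sum_comm
  rw [sum_congr rfl h, sum_comm]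

private theorem CofA_prod (A : ℕ → ℕ → ℝ) (x : ℕ → ℝ) (m d : ℕ) (s' : Finset ℕ) (i j : ℕ)
    (h : ∀ (r : ℕ) (s' : Finset ℕ), coeff r (Gr x (Bk A x) m s') =
      ∑ T ∈ TT m r, pf A (dl T) * P x (dl T) s') :
    coeff d (Bk A x i j * Gr x (Bk A x) m s') =
      ∑ p ∈ antidiagonal d, ∑ t ∈ antidiagonal p.1, ∑ T ∈ TT m p.2,
        A t.1 t.2 * pf A (dl T) * (x i ^ t.1 * x j ^ t.2 * P x (dl T) s') := by
  rw [coeff_mul]
  refine sum_congr rfl fun p _ => ?_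
  rw [h, Bk, coeff_mk, sum_mul_sum]
  refine sum_congr rfl fun t _ => sum_congr rfl fun T _ => ?_
  ring

theorem coeff_step (A : ℕ → ℕ → ℝ) (x : ℕ → ℝ) (m d : ℕ) (s : Finset ℕ)
    (h : ∀ (r : ℕ) (s' : Finset ℕ), coeff r (Gr x (Bk A x) m s') =
      ∑ T ∈ TT m r, pf A (dl T) * P x (dl T) s') :
    coeff d (Gr x (Bk A x) (m + 1) s) = (1 / (2 * ((m : ℝ) + 1))) *
      ∑ p ∈ antidiagonal d, ∑ t ∈ antidiagonal p.1, ∑ T ∈ TT m p.2,
        A t.1 t.2 * pf A (dl T) * P x (t.1 :: t.2 :: dl T) s := by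
  have h1 : coeff d (Gr x (Bk A x) (m + 1) s) = (1 / (2 * ((m : ℝ) + 1))) *
      ∑ i ∈ s, ∑ j ∈ s.erase i, (rho x s i * rho x (s.erase i) j) *
        coeff d (Bk A x i j * Gr x (Bk A x) m ((s.erase i).erase j)) := by
    rw [Gr, coeff_smul, smul_eq_mul, map_sum]
    congr 1
    refine sum_congr rfl fun i _ => ?_
    rw [map_sum]
    refine sum_congr rfl fun j _ => ?_
    rw [coeff_smul, smul_eq_mul]
  rw [h1]
  congr 1
  have h2 : ∀ i ∈ s, ∀ j ∈ s.erase i, (rho x s i * rho x (s.erase i) j) *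
        coeff d (Bk A x i j * Gr x (Bk A x) m ((s.erase i).erase j)) =
      ∑ p ∈ antidiagonal d, ∑ t ∈ antidiagonal p.1, ∑ T ∈ TT m p.2,
        A t.1 t.2 * pf A (dl T) * ((rho x s i * rho x (s.erase i) j) *
          (x i ^ t.1 * x j ^ t.2 * P x (dl T) ((s.erase i).erase j))) := by
    intro i _ j _
    rw [CofA_prod A x m d _ i j h, mul_sum]
    refine sum_congr rfl fun p _ => ?_
    rw [mul_sum]
    refine sum_congr rfl fun t _ => ?_
    rw [mul_sum]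
    refine sum_congr rfl fun T _ => ?_
    ring
  rw [sum_congr rfl fun i hi => sum_congr rfl fun j hj => h2 i hi j hj, CofA_swap]
  refine sum_congr rfl fun p _ => ?_
  rw [CofA_swap]
  refine sum_congr rfl fun t _ => ?_
  rw [CofA_swap]
  refine sum_congr rfl fun T _ => ?_
  rw [P_cons_cons, mul_sum]
  refine sum_congr rfl fun i _ => ?_
  rw [mul_sum]

end Pool.Agent.H99.PA
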