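import Pool.Agent.H99.PA.Defs

/-!
# Module CofB (board pa99_mod, about 110 lines): reindexing of the quadruple sum

PROOF.  Both sides are sums of `G (a, b, T')` over finite sets of triples (`Finset.sum_sigma'` or products).
Left: triples with `a + b + r = d`, `T' ∈ TT m r`, that is `T' ⊆ range (r+1)`, `|T'| = 2m`, `∑ T' = r`; by `hF`
only those with `b ∉ T'` and `a ∉ insert b T'` count (`Finset.sum_filter_of_ne` or
`Finset.sum_bij_ne_zero`).  Right: `(T, a, b)`, `T ∈ TT (m+1) d`, `a ∈ T`, `b ∈ T.erase a`.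
Bijection: `(a, b, T') ↦ (insert a (insert b T'), a, b)` with inverse `T' = (T.erase a).erase b`;
`∑ T = a + b + ∑ T'`, `|T| = |T'| + 2`; `T ⊆ range (d+1)` is automatic because every element of `T` is at
most the sum of `T` (`Finset.single_le_sum`), the same for `T' ⊆ range (r+1)`.
-/

set_option autoImplicit false

open Finset

namespace Pool.Agent.H99.PA

private theorem CofB_mem {m d : ℕ} {T : Finset ℕ} :
    T ∈ TT m d ↔ T.card = 2 * m ∧ ∑ i ∈ T, i = d := by
  unfold TT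
  rw [mem_filter, mem_powersetCard]
  constructor
  · rintro ⟨⟨_, h⟩, h'⟩
    exact ⟨h, h'⟩
  · rintro ⟨h, h'⟩
    refine ⟨⟨fun i hi => ?_, h⟩, h'⟩
    rw [mem_range]
    have := single_le_sum (f := fun i : ℕ => i) (fun _ _ => Nat.zero_le _) hi
    omega

private theorem CofB_ins {m r a b : ℕ} {T : Finset ℕ} (hT : T ∈ TT m r) (hb : b ∉ T)
    (ha : a ∉ insert b T) : insert a (insert b T) ∈ TT (m + 1) (a + b + r) := by
  rw [CofB_mem] at hT ⊢
  rw [card_insert_of_notMem ha, card_insert_of_notMem hb, sum_insert ha, sum_insert hb]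
  omega

private theorem CofB_er {m d a b : ℕ} {T : Finset ℕ} (hT : T ∈ TT (m + 1) d) (ha : a ∈ T)
    (hb : b ∈ T.erase a) : (T.erase a).erase b ∈ TT m (∑ i ∈ (T.erase a).erase b, i) ∧
      a + b + ∑ i ∈ (T.erase a).erase b, i = d := by
  rw [CofB_mem] at hT ⊢
  have h1 := add_sum_erase T (fun i : ℕ => i) ha
  have h2 := add_sum_erase (T.erase a) (fun i : ℕ => i) hb
  have h3 := card_erase_add_one ha
  have h4 := card_erase_add_one hb
  refine ⟨⟨by omega, rfl⟩, by omega⟩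

theorem reindex (F : ℕ → ℕ → Finset ℕ → ℝ)
    (hF : ∀ a b T, (b ∈ T ∨ a ∈ insert b T) → F a b T = 0) (m d : ℕ) :
    ∑ p ∈ antidiagonal d, ∑ t ∈ antidiagonal p.1, ∑ T ∈ TT m p.2, F t.1 t.2 T =
      ∑ T ∈ TT (m + 1) d, ∑ a ∈ T, ∑ b ∈ T.erase a, F a b ((T.erase a).erase b) := by
  have hL : ∑ p ∈ antidiagonal d, ∑ t ∈ antidiagonal p.1, ∑ T ∈ TT m p.2, F t.1 t.2 T =
      ∑ x ∈ (antidiagonal d).sigma fun p => (antidiagonal p.1).sigma fun _ => TT m p.2,
        F x.2.1.1 x.2.1.2 x.2.2 := by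
    rw [sum_sigma]
    refine sum_congr rfl fun p _ => ?_
    rw [sum_sigma]
  have hR : ∑ T ∈ TT (m + 1) d, ∑ a ∈ T, ∑ b ∈ T.erase a, F a b ((T.erase a).erase b) =
      ∑ x ∈ (TT (m + 1) d).sigma fun T => T.sigma fun a => T.erase a,
        F x.2.1 x.2.2 ((x.1.erase x.2.1).erase x.2.2) := by
    rw [sum_sigma]
    refine sum_congr rfl fun T _ => ?_
    rw [sum_sigma]
  rw [hL, hR]
  have hn : ∀ a b T, F a b T ≠ 0 → b ∉ T ∧ a ∉ insert b T := by
    intro a b T h
    constructor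
    · intro hb
      exact h (hF a b T (Or.inl hb))
    · intro ha
      exact h (hF a b T (Or.inr ha))
  refine sum_bij_ne_zero (fun x _ _ => ⟨insert x.2.1.1 (insert x.2.1.2 x.2.2), x.2.1.1, x.2.1.2⟩)
    ?_ ?_ ?_ ?_
  · rintro ⟨p, t, T⟩ h1 h2
    obtain ⟨hb, ha⟩ := hn _ _ _ h2
    simp only [mem_sigma, HasAntidiagonal.mem_antidiagonal] at h1 ⊢
    obtain ⟨hp, ht, hT⟩ := h1
    refine ⟨?_, mem_insert_self _ _, ?_⟩
    · have := CofB_ins hT hb ha
      rwa [ht, hp] at this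
    · rw [erase_insert ha]
      exact mem_insert_self _ _
  · rintro ⟨⟨p1, p2⟩, ⟨t1, t2⟩, T⟩ h1 h2 ⟨⟨p1', p2'⟩, ⟨t1', t2'⟩, T'⟩ h1' h2' he
    obtain ⟨hb, ha⟩ := hn _ _ _ h2
    obtain ⟨hb', ha'⟩ := hn _ _ _ h2'
    simp only [mem_sigma, HasAntidiagonal.mem_antidiagonal] at h1 h1'
    obtain ⟨hp, ht, hT⟩ := h1
    obtain ⟨hp', ht', hT'⟩ := h1'
    simp only at ha hb ha' hb' ht hp hT hp' ht' hT'
    simp only [Sigma.mk.injEq, heq_eq_eq] at he
    obtain ⟨he, e1, e2⟩ := he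
    subst e1
    subst e2
    have eT : T = T' := by
      have h3 : ((insert t1 (insert t2 T)).erase t1).erase t2 = T := by
        rw [erase_insert ha, erase_insert hb]
      have h4 : ((insert t1 (insert t2 T')).erase t1).erase t2 = T' := by
        rw [erase_insert ha', erase_insert hb']
      rw [← h3, ← h4, he]
    subst eT
    have e3 : p1 = p1' := by omega
    subst e3
    have e4 : p2 = p2' := by omega
    subst e4
    rfl
  · rintro ⟨T, a, b⟩ h1 h2
    simp only [mem_sigma] at h1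
    obtain ⟨hT, ha, hb⟩ := h1
    obtain ⟨h3, h4⟩ := CofB_er hT ha hb
    refine ⟨⟨(a + b, ∑ i ∈ (T.erase a).erase b, i), (a, b), (T.erase a).erase b⟩, ?_, h2, ?_⟩
    · simp only [mem_sigma, HasAntidiagonal.mem_antidiagonal]
      exact ⟨h4, trivial, h3⟩
    · simp only
      rw [insert_erase hb, insert_erase ha]
  · rintro ⟨p, t, T⟩ h1 h2
    obtain ⟨hb, ha⟩ := hn _ _ _ h2
    simp only
    simp only at ha hb
    rw [erase_insert ha, erase_insert hb]

end Pool.Agent.H99.PA
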