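import Pool.Agent.H99.PA.Defs

/-!
# Module DDc (board pa99_mod, about 140 lines): divided differences on the grid `q^(-2k)` in closed form

`Zk = q^(-2k)`, `dd q j m f = ∑_{k ∈ Icc j m} (∏_{l ∈ Icc j m, l ≠ k} (Z_k - Z_l)⁻¹) • f k`.
PROOF.
(dd_self) `dd j j f = f j`.
(dd_rec) for `j < m`: `(Z_m - Z_j) • dd j m f = dd (j+1) m f - dd j (m-1) f`: for `j < k < m` the coefficient of
`f k` on the right is `∏_{l ∈ [j,m], l ≠ k} (Z_k-Z_l)⁻¹ ((Z_k - Z_j) - (Z_k - Z_m))`; for `k = m` only the first,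
for `k = j` only the second term is present, with factor `Z_m - Z_j` resp. `-(Z_j - Z_m)`.
(dd_closed) Let `p = q²`.  Define real numbers `e 0 = 1`, `e (k+1) = e k * (q p^k - 1)/(p^{-(k+1)} - 1)` and
`E j m = (q p^{m-j})^j * e (m-j)` for `j ≤ m`.  Then
 (i) `E j j = q^j`; (ii) `(Z_m - Z_j) E j m = E (j+1) m - E j (m-1)` for `j < m`;
 (iii) `p^j E (j+1) m = q p^{m-1} E j (m-1)` for `j < m`.
 ((iii): with `k = m-1-j`, `E (j+1) m = (q p^k)^{j+1} e k`, `E j (m-1) = (q p^k)^j e k`.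
  (ii): `E (j+1) m - E j (m-1) = (q p^k)^j (q p^k - 1) e k`, and
  `(p^{-m} - p^{-j}) (q p^{k+1})^j e (k+1) = p^{-j} (p^{-(k+1)} - 1) q^j p^{(k+1)j} e (k+1)
   = (q p^k)^j (p^{-(k+1)} - 1) e (k+1)`.)
CLAIM: `dd j m f * Qp q (q • α) m = E j m • (f 0 * Qp q α j)` for `j ≤ m`, if
`(1 - q^(2k+1) α) f(k+1) = q (1 - q^(2k) α) f k` for all `k < m`.  By induction on `m - j`.
 `m = j`: `f j * Qp (qα) j = q^j • (f 0 * Qp α j)` by induction on `j` (`Qp q (q•α) (j+1) = Qp q (q•α) j *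
 (1 - q^(2j) • (q • α))`, `q^(2j) q = q^(2j+1)`).
 `j < m`: by dd_rec, `(Z_m - Z_j) • (dd j m f * Qp (qα) m) = dd (j+1) m f * Qp (qα) m - dd j (m-1) f * Qp (qα) m
 = E (j+1) m • (f 0 * Qp α (j+1)) - (E j (m-1) • (f 0 * Qp α j)) * (1 - q^(2(m-1)) • (q • α))`
 `= f 0 * Qp α j * ((E (j+1) m) (1 - p^j α) - (E j (m-1)) (1 - q p^{m-1} α))
 = (E (j+1) m - E j (m-1)) • (f 0 * Qp α j)` by (iii), `= (Z_m - Z_j) E j m • (...)` by (ii); cancel the nonzero
 real number `Z_m - Z_j`.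
The statement dd_closed is the CLAIM with `E j m` expressed as the divided difference of `k ↦ q^k` (the case
`R = ℝ`, `α = 0`, `f k = q^k` of the CLAIM: `Qp q 0 m = 1`).
-/

set_option autoImplicit false

open Finset Pool.H53.RQ

namespace Pool.Agent.H99.PA

/-- the divided difference of `f` at `Z_j, …, Z_m`, `Z_k = q^(-2k)` -/
noncomputable def dd {R : Type} [CommRing R] [Algebra ℝ R] (q : ℝ) (j m : ℕ) (f : ℕ → R) : R :=
  ∑ k ∈ Icc j m, (∏ l ∈ (Icc j m).erase k, ((q ^ (2 * k))⁻¹ - (q ^ (2 * l))⁻¹)⁻¹) • f k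

private theorem ddc_rec {R : Type} [CommRing R] [Algebra ℝ R] (q : ℝ) (hq0 : 0 < q) (hq1 : q < 1)
    (f : ℕ → R) (j d : ℕ) :
    ((q ^ (2 * (j + d + 1)))⁻¹ - (q ^ (2 * j))⁻¹) • dd q j (j + d + 1) f =
      dd q (j + 1) (j + 1 + d) f - dd q j (j + d) f := by
  have hinj : ∀ k l : ℕ, k ≠ l → (q ^ (2 * k))⁻¹ - (q ^ (2 * l))⁻¹ ≠ 0 := by
    intro k l hkl h
    have h1 : (q ^ (2 * k)) = (q ^ (2 * l)) := inv_injective (sub_eq_zero.mp h)
    have h2 := pow_right_injective₀ hq0 hq1.ne h1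
    exact hkl (by simpa using h2)
  have h1 : dd q (j + 1) (j + 1 + d) f = ∑ k ∈ Icc j (j + d + 1),
      (((q ^ (2 * k))⁻¹ - (q ^ (2 * j))⁻¹) *
        ∏ l ∈ (Icc j (j + d + 1)).erase k, ((q ^ (2 * k))⁻¹ - (q ^ (2 * l))⁻¹)⁻¹) • f k := by
    have hI : Icc j (j + d + 1) = insert j (Icc (j + 1) (j + 1 + d)) := by
      ext x; simp only [mem_Icc, mem_insert]; omega
    have hj : j ∉ Icc (j + 1) (j + 1 + d) := by simp
    unfold dd
    rw [hI, sum_insert hj]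
    simp only [sub_self, zero_mul, zero_smul, zero_add]
    refine sum_congr rfl fun k hk => ?_
    have hkj : k ≠ j := by rw [mem_Icc] at hk; omega
    rw [erase_insert_of_ne hkj.symm, prod_insert (by simp [hj]), ← mul_assoc,
      mul_inv_cancel₀ (hinj k j hkj), one_mul]
  have h2 : dd q j (j + d) f = ∑ k ∈ Icc j (j + d + 1),
      (((q ^ (2 * k))⁻¹ - (q ^ (2 * (j + d + 1)))⁻¹) *
        ∏ l ∈ (Icc j (j + d + 1)).erase k, ((q ^ (2 * k))⁻¹ - (q ^ (2 * l))⁻¹)⁻¹) • f k := by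
    have hI : Icc j (j + d + 1) = insert (j + d + 1) (Icc j (j + d)) := by
      ext x; simp only [mem_Icc, mem_insert]; omega
    have hj : j + d + 1 ∉ Icc j (j + d) := by simp
    unfold dd
    rw [hI, sum_insert hj]
    simp only [sub_self, zero_mul, zero_smul, zero_add]
    refine sum_congr rfl fun k hk => ?_
    have hkj : k ≠ j + d + 1 := by rw [mem_Icc] at hk; omega
    rw [erase_insert_of_ne hkj.symm, prod_insert (by simp [hj]), ← mul_assoc,
      mul_inv_cancel₀ (hinj k (j + d + 1) hkj), one_mul]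
  rw [h1, h2, ← sum_sub_distrib]
  unfold dd
  rw [smul_sum]
  refine sum_congr rfl fun k _ => ?_
  rw [smul_smul, ← sub_smul]
  congr 1
  ring

private noncomputable def ddc_e (q : ℝ) : ℕ → ℝ
  | 0 => 1
  | k + 1 => ddc_e q k * (q * q ^ (2 * k) - 1) / ((q ^ (2 * (k + 1)))⁻¹ - 1)

private theorem ddc_base {R : Type} [CommRing R] [Algebra ℝ R] (q : ℝ) (α : R) (f : ℕ → R) :
    ∀ (j : ℕ), (∀ k < j, (1 - (q ^ (2 * k + 1)) • α) * f (k + 1) =
      q • ((1 - (q ^ (2 * k)) • α) * f k)) →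
    f j * Qp q (q • α) j = (q ^ j) • (f 0 * Qp q α j) := by
  intro j
  induction j with
  | zero => intro _; simp [Qp]
  | succ j ih =>
    intro hf
    have h1 := ih (fun k hk => hf k (by omega))
    have h2 := hf j (by omega)
    have e1 : Qp q (q • α) (j + 1) = Qp q (q • α) j * (1 - (q ^ (2 * j)) • (q • α)) := by
      unfold Qp; rw [prod_range_succ]
    have e2 : Qp q α (j + 1) = Qp q α j * (1 - (q ^ (2 * j)) • α) := by
      unfold Qp; rw [prod_range_succ]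
    rw [e1, e2]
    simp only [Algebra.smul_def, map_pow] at h1 h2 ⊢
    rw [pow_succ (algebraMap ℝ R q) (2 * j)] at h2
    rw [pow_succ (algebraMap ℝ R q) j]
    linear_combination (Qp q ((algebraMap ℝ R) q * α) j) * h2 +
      ((algebraMap ℝ R) q * (1 - (algebraMap ℝ R) q ^ (2 * j) * α)) * h1

private theorem ddc_main {R : Type} [CommRing R] [Algebra ℝ R] (q : ℝ) (hq0 : 0 < q) (hq1 : q < 1)
    (α : R) (f : ℕ → R) :
    ∀ (d j : ℕ), (∀ k < j + d, (1 - (q ^ (2 * k + 1)) • α) * f (k + 1) =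
      q • ((1 - (q ^ (2 * k)) • α) * f k)) →
    dd q j (j + d) f * Qp q (q • α) (j + d) =
      ((q * q ^ (2 * d)) ^ j * ddc_e q d) • (f 0 * Qp q α j) := by
  intro d
  induction d with
  | zero =>
    intro j hf
    have h := ddc_base q α f j hf
    have h0 : dd q j (j + 0) f = f j := by simp [dd]
    rw [h0, add_zero, h]
    simp [ddc_e]
  | succ d ih =>
    intro j hf
    have h1 := ih (j + 1) (fun k hk => hf k (by omega))
    have h2 := ih j (fun k hk => hf k (by omega))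
    have hr := ddc_rec q hq0 hq1 f j d
    have hpow : ∀ n : ℕ, q ^ n ≠ 0 := fun n => pow_ne_zero n hq0.ne'
    have hz1 : (q ^ (2 * (d + 1)))⁻¹ - 1 ≠ 0 := by
      have : q ^ (2 * (d + 1)) < 1 := pow_lt_one₀ hq0.le hq1 (by omega)
      have h3 : 1 < (q ^ (2 * (d + 1)))⁻¹ := (one_lt_inv₀ (pow_pos hq0 _)).mpr this
      exact (sub_pos.mpr h3).ne'
    have hz : (q ^ (2 * (j + d + 1)))⁻¹ - (q ^ (2 * j))⁻¹ =
        (q ^ (2 * j))⁻¹ * ((q ^ (2 * (d + 1)))⁻¹ - 1) := by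
      have : 2 * (j + d + 1) = 2 * j + 2 * (d + 1) := by ring
      rw [this, pow_add, mul_inv]; ring
    have hz0 : (q ^ (2 * (j + d + 1)))⁻¹ - (q ^ (2 * j))⁻¹ ≠ 0 := by
      rw [hz]; exact mul_ne_zero (inv_ne_zero (hpow _)) hz1
    have e1 : Qp q (q • α) (j + d + 1) =
        Qp q (q • α) (j + d) * (1 - (q ^ (2 * (j + d))) • (q • α)) := by
      unfold Qp; rw [prod_range_succ]
    have e2 : Qp q α (j + 1) = Qp q α j * (1 - (q ^ (2 * j)) • α) := by
      unfold Qp; rw [prod_range_succ]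
    have key : ((q ^ (2 * (j + d + 1)))⁻¹ - (q ^ (2 * j))⁻¹) •
        (dd q j (j + d + 1) f * Qp q (q • α) (j + d + 1)) =
        ((q * q ^ (2 * d)) ^ j * ddc_e q d * (q * q ^ (2 * d) - 1)) • (f 0 * Qp q α j) := by
      rw [← smul_mul_assoc, hr, sub_mul]
      have h1' : dd q (j + 1) (j + 1 + d) f * Qp q (q • α) (j + d + 1) =
          ((q * q ^ (2 * d)) ^ (j + 1) * ddc_e q d) • (f 0 * Qp q α (j + 1)) := by
        rw [← h1]; congr 2; ring
      rw [h1', e1, ← mul_assoc, h2, e2]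
      simp only [Algebra.smul_def, map_pow, map_mul, map_sub, map_one]
      rw [show 2 * (j + d) = 2 * j + 2 * d by ring]
      simp only [pow_add, pow_succ]
      ring
    have hE : (q * q ^ (2 * d)) ^ j * ddc_e q d * (q * q ^ (2 * d) - 1) =
        ((q ^ (2 * (j + d + 1)))⁻¹ - (q ^ (2 * j))⁻¹) *
          ((q * q ^ (2 * (d + 1))) ^ j * ddc_e q (d + 1)) := by
      rw [hz]
      have hd : ((q ^ (2 * (d + 1)))⁻¹ - 1) * ddc_e q (d + 1) =
          ddc_e q d * (q * q ^ (2 * d) - 1) := by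
        rw [ddc_e, mul_div_assoc', mul_div_cancel_left₀ _ hz1]
      have hp : (q ^ (2 * j))⁻¹ * (q * q ^ (2 * (d + 1))) ^ j = (q * q ^ (2 * d)) ^ j := by
        have : (q * q ^ (2 * (d + 1))) ^ j = (q ^ (2 * j)) * (q * q ^ (2 * d)) ^ j := by
          rw [pow_mul q 2 j, ← mul_pow]
          congr 1; ring
        rw [this, ← mul_assoc, inv_mul_cancel₀ (hpow _), one_mul]
      calc (q * q ^ (2 * d)) ^ j * ddc_e q d * (q * q ^ (2 * d) - 1)
          = (q * q ^ (2 * d)) ^ j * (ddc_e q d * (q * q ^ (2 * d) - 1)) := by ring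
        _ = ((q ^ (2 * j))⁻¹ * (q * q ^ (2 * (d + 1))) ^ j) *
            (((q ^ (2 * (d + 1)))⁻¹ - 1) * ddc_e q (d + 1)) := by rw [hp, hd]
        _ = _ := by ring
    rw [hE, ← smul_smul] at key
    exact smul_right_injective R hz0 key

theorem dd_closed {R : Type} [CommRing R] [Algebra ℝ R] (q : ℝ) (hq0 : 0 < q) (hq1 : q < 1)
    (α : R) (f : ℕ → R) (j m : ℕ) (hjm : j ≤ m)
    (hf : ∀ k < m, (1 - (q ^ (2 * k + 1)) • α) * f (k + 1) = q • ((1 - (q ^ (2 * k)) • α) * f k)) :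
    dd q j m f * Qp q (q • α) m =
      (dd q j m (fun k => q ^ k) : ℝ) • (f 0 * Qp q α j) := by
  obtain ⟨d, rfl⟩ : ∃ d, m = j + d := ⟨m - j, by omega⟩
  have h1 := ddc_main q hq0 hq1 α f d j hf
  have h2 := ddc_main (R := ℝ) q hq0 hq1 0 (fun k => q ^ k) d j
    (fun k _ => by simp only [smul_eq_mul]; ring)
  have hQ : ∀ n, Qp q (0 : ℝ) n = 1 := by
    intro n; simp [Qp]
  rw [smul_zero, hQ, hQ] at h2
  simp only [pow_zero, mul_one, smul_eq_mul] at h2
  rw [h1, h2]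

end Pool.Agent.H99.PA
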