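import Pool.Agent.H99.PA.Defs

/-!
# Module GrMul (board pa99_mod, about 70 lines): congruence and scaling of `Gr`

PROOF.  Both by induction on `n` for all `s`.  In the recursion `K i j` is used only for `i ∈ s`,
`j ∈ s.erase i`, so for two different elements of `s`; the hypothesis passes to `(s.erase i).erase j`.
Scaling: for `|s| = 2(n+1)`, `K' i j * Gr K' n (s-i-j) = g i * g j * K i j * (∏_{k∈s-i-j} g k) * Gr K n (s-i-j)`
and `g i * (g j * ∏_{k∈s-i-j} g k) = ∏_{k∈s} g k` (`Finset.mul_prod_erase` twice); take the constant out of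
the sums (`Finset.mul_sum`, `smul_mul_assoc`, `mul_smul_comm`).
-/

set_option autoImplicit false

open Finset Pool.H53.RQ

namespace Pool.Agent.H99.PA

variable {R : Type} [CommRing R] [Algebra ℝ R]

theorem Gr_congr (x : ℕ → ℝ) (K K' : ℕ → ℕ → R) (n : ℕ) (s : Finset ℕ)
    (h : ∀ i ∈ s, ∀ j ∈ s, i ≠ j → K i j = K' i j) : Gr x K n s = Gr x K' n s := by
  induction n generalizing s with
  | zero => rfl
  | succ n ih =>
    simp only [Gr]
    congr 1
    refine Finset.sum_congr rfl fun i hi => Finset.sum_congr rfl fun j hj => ?_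
    have hji : j ≠ i := (Finset.mem_erase.1 hj).1
    have hjs : j ∈ s := (Finset.mem_erase.1 hj).2
    rw [h i hi j hjs hji.symm, ih ((s.erase i).erase j) fun a ha b hb hab =>
      h a (Finset.mem_of_mem_erase (Finset.mem_of_mem_erase ha)) b
        (Finset.mem_of_mem_erase (Finset.mem_of_mem_erase hb)) hab]

theorem Gr_scale (x : ℕ → ℝ) (K K' : ℕ → ℕ → R) (g : ℕ → R) (n : ℕ) (s : Finset ℕ)
    (hc : s.card = 2 * n) (h : ∀ i ∈ s, ∀ j ∈ s, i ≠ j → K' i j = g i * g j * K i j) :
    Gr x K' n s = (∏ i ∈ s, g i) * Gr x K n s := by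
  induction n generalizing s with
  | zero =>
    have hs : s = ∅ := Finset.card_eq_zero.1 (by omega)
    subst hs
    simp [Gr]
  | succ n ih =>
    simp only [Gr]
    rw [mul_smul_comm, Finset.mul_sum]
    congr 1
    refine Finset.sum_congr rfl fun i hi => ?_
    rw [Finset.mul_sum]
    refine Finset.sum_congr rfl fun j hj => ?_
    have hji : j ≠ i := (Finset.mem_erase.1 hj).1
    have hjs : j ∈ s := (Finset.mem_erase.1 hj).2
    have hc' : ((s.erase i).erase j).card = 2 * n := by
      rw [Finset.card_erase_of_mem hj, Finset.card_erase_of_mem hi]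
      omega
    rw [mul_smul_comm, h i hi j hjs hji.symm, ih ((s.erase i).erase j) hc' fun a ha b hb hab =>
      h a (Finset.mem_of_mem_erase (Finset.mem_of_mem_erase ha)) b
        (Finset.mem_of_mem_erase (Finset.mem_of_mem_erase hb)) hab,
      ← Finset.mul_prod_erase s g hi, ← Finset.mul_prod_erase (s.erase i) g hj]
    congr 1
    ring

end Pool.Agent.H99.PA
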