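import Pool.Agent.H99.PA.Psi

/-!
# Module Ker (board pa99_mod, about 200 lines): the kernel identity in `ℝ⟦u⟧`

Write `ξ = x i`, `η = x j`, `u = X`.  CLAIM:
`(ξ-η)/(ξ+η) + Bk = (1+ξu)(1+ηu) (ξ W(ξ²u²) - η W(η²u²)) (ξ W(qξ²u²) - η W(qη²u²)) / (ξ²-η²)`.
PROOF.  It is enough to prove (multiply by `ξ² - η²`, which is a nonzero real number;
`(ξ²-η²) (ξ-η)/(ξ+η) = (ξ-η)²`, `ξ+η ≠ 0`)
(*)  `C (ξ-η)² + (ξ²-η²) • Bk = (1+ξu)(1+ηu) (ξ W(ξ²) - η W(η²)) (ξ W(qξ²) - η W(qη²))`.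
For an array `c : ℕ → ℕ → ℝ` put `Bi c = mk (fun d => ∑_{a+b=d} c a b ξ^a η^b)` (so `Bk = Bi (Akm q)`).  Facts
(coefficientwise): `Bi` is linear; `(1 + C ξ * X) * Bi c = Bi (fun a b => c a b + c (a-1) b [a ≥ 1])`, the same
for `η`, `b`; for one-variable sequences `f, g`: `mk (f n ξ^n) * mk (g n η^n) = Bi (fun a b => f a * g b)`
(`PowerSeries.coeff_mul`).
Expand the right side of (*) with Wc_mul in the form `W(ξ²) W(qξ²) = ∑_m ξ^{2m} u^{2m}` (geometric series in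
`ξ²u²`; this also holds for `ξ = 0`):
`(ξ W(ξ²) - η W(η²))(ξ W(qξ²) - η W(qη²)) = ξ² ∑ ξ^{2m} u^{2m} + η² ∑ η^{2m} u^{2m}
 - ξη [W(ξ²) W(qη²) + W(η²) W(qξ²)]`.
To avoid negative shifts compare the coefficients of `u^d` of `u² (*)`, that is: both sides of (*) times `X^2`
are `Bi` of explicit arrays:
left:  array `[(2,0),(0,2) ↦ 1, (1,1) ↦ -2] + (Akm (a-2) b [a ≥ 2]) - (Akm a (b-2) [b ≥ 2])`;
right: array `[a ≥ 2, b ≤ 1] + [b ≥ 2, a ≤ 1] - [a ≥ 1, b ≥ 1] κ_{ab}`,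
`κ_{ab} = (q^α + q^β) w_α w_β`, `α = (a-1)/2`, `β = (b-1)/2` (natural division):
`(1+ξu)(1+ηu) ξ²u² ∑ (ξu)^{2m} = (1+ηu) ∑_{a≥2} (ξu)^a`, and `(1+ξu) ξu W-part`: `a = 2α+1` or `2α+2`.
The two arrays are EQUAL for all `a, b`:
`a, b ≥ 2`: `Akm (a-2) b - Akm a (b-2) = -κ_{ab}`: Akm_step with `(a-2, b-2)`: `((a-2)+1)/2 = (a-1)/2`;
`a ≥ 2, b = 1`: `Akm (a-2) 1 = 1 - κ_{a1}`: with `α = (a-1)/2`, `Akm (a-2) 1 = psi α 1 = psi (α+1) 0 - (q^α+1) w_α`
(psi_step with `B = 0`, `w_0 = 1`) and `psi (α+1) 0 = 1`;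
`a ≥ 3, b = 0`: `Akm (a-2) 0 = 1`; `a = 2, b = 0`: `1 + Akm 0 0 = 1` (`psi 0 0 = 0`);
`a = b = 1`: `-2 = -κ_{11} = -(1+1)`; `a = 1, b = 0`, `a = b = 0`: `0 = 0`; the cases with `a` and `b` exchanged
by antisymmetry of `Akm` (both sides are: left array antisymmetric up to ... simply repeat: `a = 1, b ≥ 2`:
`-Akm 1 (b-2) = 1 - κ_{1b}`; `a = 0, b ≥ 3`: `-Akm 0 (b-2) = 1`).
Then cancel `X^2` (`mul_left_cancel₀`, or compare coefficients `d+2`).
-/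

set_option autoImplicit false

open Finset Pool.H53.RQ PowerSeries

namespace Pool.Agent.H99.PA

/-- `(1 + ξ u) W(s ξ²) = ∑ w_{⌊a/2⌋} s^{⌊a/2⌋} ξ^a u^a` -/
theorem ker_fg (q s c : ℝ) :
    (1 + C c * X) * Wc q (s * c ^ 2) =
      PowerSeries.mk fun a => w q (a / 2) * s ^ (a / 2) * c ^ a := by
  ext n
  rw [add_mul, one_mul, map_add, coeff_mk]
  rcases n with _ | n
  · have h0 : coeff 0 (C c * X * Wc q (s * c ^ 2)) = 0 := by
      rw [mul_assoc, coeff_C_mul, coeff_zero_X_mul, mul_zero]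
    rw [h0]
    simp [Wc]
  · rw [mul_assoc, coeff_C_mul, coeff_succ_X_mul]
    simp only [Wc, coeff_mk]
    rcases Nat.even_or_odd' n with ⟨m, rfl | rfl⟩
    · have h1 : ¬ Even (2 * m + 1) := by simp
      have h2 : (2 * m + 1) / 2 = m := by omega
      have h3 : (2 * m) / 2 = m := by omega
      rw [if_neg h1, if_pos (even_two_mul m), h2, h3, mul_pow, ← pow_mul]
      ring
    · have h1 : ¬ Even (2 * m + 1) := by simp
      have h2 : Even (2 * m + 1 + 1) := ⟨m + 1, by ring⟩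
      have h3 : (2 * m + 1 + 1) / 2 = m + 1 := by omega
      rw [if_neg h1, if_pos h2, h3, mul_pow, ← pow_mul]
      ring

/-- `(1 + ξ u) W(ξ²) W(q ξ²) = ∑ ξ^a u^a` -/
theorem ker_geo (q : ℝ) (hq0 : 0 < q) (hq1 : q < 1) (c : ℝ) :
    (1 + C c * X) * (Wc q (c ^ 2) * Wc q (q * c ^ 2)) = PowerSeries.mk fun a => c ^ a := by
  have h := Wc_mul q hq0 hq1 (c ^ 2)
  have hne : (1 - C c * X : PowerSeries ℝ) ≠ 0 := by
    intro h0
    have := congrArg (coeff 0) h0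
    simp at this
  apply mul_left_cancel₀ hne
  have e1 : (1 - C c * X) * ((1 + C c * X) * (Wc q (c ^ 2) * Wc q (q * c ^ 2)))
      = (1 - C (c ^ 2) * X ^ 2) * (Wc q (c ^ 2) * Wc q (q * c ^ 2)) := by
    rw [map_pow]; ring
  rw [e1, h]
  ext n
  rw [sub_mul, one_mul, map_sub, mul_assoc, coeff_C_mul]
  rcases n with _ | n
  · rw [coeff_zero_X_mul]; simp
  · rw [coeff_succ_X_mul, coeff_mk, coeff_mk, coeff_one, if_neg (Nat.succ_ne_zero n)]
    ring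

theorem w_zero' (q : ℝ) : w q 0 = 1 := by simp [w]

theorem psi_one' (q : ℝ) (hq0 : 0 < q) (hq1 : q < 1) (A : ℕ) :
    psi q A 1 = 1 - (q ^ A + 1) * w q A := by
  have h := psi_step q A 0
  rw [psi_zero q hq0 hq1 (A + 1) (by omega), w_zero', zero_add] at h
  linear_combination -h

theorem Akm_one' (q : ℝ) (hq0 : 0 < q) (hq1 : q < 1) (a : ℕ) :
    Akm q a 1 = 1 - (q ^ ((a + 1) / 2) + 1) * w q ((a + 1) / 2) := by
  have : Akm q a 1 = psi q ((a + 1) / 2) 1 := rfl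
  rw [this, psi_one' q hq0 hq1]

/-- the coefficient identity behind the kernel -/
theorem ker_coef (q : ℝ) (hq0 : 0 < q) (hq1 : q < 1) (c e : ℝ) (d : ℕ) :
    (c ^ 2 - e ^ 2) * ∑ p ∈ antidiagonal (d + 1), Akm q p.1 p.2 * c ^ p.1 * e ^ p.2 =
      c ^ (d + 3) + c ^ (d + 2) * e + e ^ (d + 3) + e ^ (d + 2) * c
      - c * e * ∑ p ∈ antidiagonal (d + 1), (q ^ (p.1 / 2) + q ^ (p.2 / 2)) * w q (p.1 / 2)
          * w q (p.2 / 2) * c ^ p.1 * e ^ p.2 := by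
  rcases d with _ | d
  · have a10 := Akm_zero q hq0 hq1 1 le_rfl
    have a01 : Akm q 0 1 = -1 := by rw [Akm_anti, a10]
    simp [Finset.Nat.antidiagonal_succ, a10, a01, w_zero']
    ring
  · have aL := Akm_zero q hq0 hq1 (d + 2) (by omega)
    have aR : Akm q 0 (d + 2) = -1 := by rw [Akm_anti, aL]
    have bL := Akm_one' q hq0 hq1 (d + 1)
    have bR : Akm q 1 (d + 1) = -(1 - (q ^ ((d + 1 + 1) / 2) + 1) * w q ((d + 1 + 1) / 2)) := by
      rw [Akm_anti, bL]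
    have s1 : c ^ 2 * ∑ p ∈ antidiagonal (d + 1 + 1), Akm q p.1 p.2 * c ^ p.1 * e ^ p.2 =
        Akm q (d + 2) 0 * c ^ (d + 4) + Akm q (d + 1) 1 * c ^ (d + 3) * e
        + ∑ p ∈ antidiagonal d, Akm q p.1 (p.2 + 2) * c ^ (p.1 + 2) * e ^ (p.2 + 2) := by
      rw [Finset.Nat.sum_antidiagonal_succ', Finset.Nat.sum_antidiagonal_succ']
      rw [mul_add, mul_add, Finset.mul_sum]
      have : ∀ p ∈ antidiagonal d, c ^ 2 * (Akm q p.1 (p.2 + 1 + 1) * c ^ p.1 * e ^ (p.2 + 1 + 1))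
          = Akm q p.1 (p.2 + 2) * c ^ (p.1 + 2) * e ^ (p.2 + 2) := fun p _ => by ring
      rw [Finset.sum_congr rfl this]
      simp only [zero_add]
      ring
    have s2 : e ^ 2 * ∑ p ∈ antidiagonal (d + 1 + 1), Akm q p.1 p.2 * c ^ p.1 * e ^ p.2 =
        Akm q 0 (d + 2) * e ^ (d + 4) + Akm q 1 (d + 1) * c * e ^ (d + 3)
        + ∑ p ∈ antidiagonal d, Akm q (p.1 + 2) p.2 * c ^ (p.1 + 2) * e ^ (p.2 + 2) := by
      rw [Finset.Nat.sum_antidiagonal_succ, Finset.Nat.sum_antidiagonal_succ]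
      rw [mul_add, mul_add, Finset.mul_sum]
      have : ∀ p ∈ antidiagonal d, e ^ 2 * (Akm q (p.1 + 1 + 1) p.2 * c ^ (p.1 + 1 + 1) * e ^ p.2)
          = Akm q (p.1 + 2) p.2 * c ^ (p.1 + 2) * e ^ (p.2 + 2) := fun p _ => by ring
      rw [Finset.sum_congr rfl this]
      simp only [zero_add]
      ring
    have s3 : c * e * ∑ p ∈ antidiagonal (d + 1 + 1), (q ^ (p.1 / 2) + q ^ (p.2 / 2))
          * w q (p.1 / 2) * w q (p.2 / 2) * c ^ p.1 * e ^ p.2 =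
        (1 + q ^ ((d + 2) / 2)) * w q ((d + 2) / 2) * c * e ^ (d + 3)
        + (q ^ ((d + 2) / 2) + 1) * w q ((d + 2) / 2) * c ^ (d + 3) * e
        + ∑ p ∈ antidiagonal d, (q ^ ((p.1 + 1) / 2) + q ^ ((p.2 + 1) / 2))
          * w q ((p.1 + 1) / 2) * w q ((p.2 + 1) / 2) * c ^ (p.1 + 2) * e ^ (p.2 + 2) := by
      rw [Finset.Nat.sum_antidiagonal_succ, Finset.Nat.sum_antidiagonal_succ']
      rw [mul_add, mul_add, Finset.mul_sum]
      have : ∀ p ∈ antidiagonal d, c * e * ((q ^ ((p.1 + 1) / 2) + q ^ ((p.2 + 1) / 2))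
          * w q ((p.1 + 1) / 2) * w q ((p.2 + 1) / 2) * c ^ (p.1 + 1) * e ^ (p.2 + 1))
          = (q ^ ((p.1 + 1) / 2) + q ^ ((p.2 + 1) / 2))
          * w q ((p.1 + 1) / 2) * w q ((p.2 + 1) / 2) * c ^ (p.1 + 2) * e ^ (p.2 + 2) :=
        fun p _ => by ring
      rw [Finset.sum_congr rfl this]
      simp only [zero_add, Nat.zero_div, pow_zero, w_zero']
      ring
    have s4 : ∑ p ∈ antidiagonal d, Akm q p.1 (p.2 + 2) * c ^ (p.1 + 2) * e ^ (p.2 + 2)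
        - ∑ p ∈ antidiagonal d, Akm q (p.1 + 2) p.2 * c ^ (p.1 + 2) * e ^ (p.2 + 2)
        = - ∑ p ∈ antidiagonal d, (q ^ ((p.1 + 1) / 2) + q ^ ((p.2 + 1) / 2))
          * w q ((p.1 + 1) / 2) * w q ((p.2 + 1) / 2) * c ^ (p.1 + 2) * e ^ (p.2 + 2) := by
      rw [← Finset.sum_sub_distrib, ← Finset.sum_neg_distrib]
      apply Finset.sum_congr rfl
      intro p _
      have := Akm_step q p.1 p.2
      linear_combination (-(c ^ (p.1 + 2) * e ^ (p.2 + 2))) * this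
    rw [sub_mul, s1, s2, s3, aL, aR, bL, bR]
    rw [show d + 1 + 1 = d + 2 from rfl]
    linear_combination s4

theorem kernel (q : ℝ) (hq0 : 0 < q) (hq1 : q < 1) (x : ℕ → ℝ) (i j : ℕ)
    (hx : x i ^ 2 - x j ^ 2 ≠ 0) :
    algebraMap ℝ (PowerSeries ℝ) (Sk x i j) + Bk (Akm q) x i j =
      (1 + C (x i) * X) * (1 + C (x j) * X) * (((x i ^ 2 - x j ^ 2)⁻¹) •
        ((x i • Wc q (x i ^ 2) - x j • Wc q (x j ^ 2)) *
          (x i • Wc q (q * x i ^ 2) - x j • Wc q (q * x j ^ 2)))) := by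
  set c := x i with hc
  set e := x j with he
  have hce : c + e ≠ 0 := by
    intro h
    apply hx
    have : c ^ 2 - e ^ 2 = (c + e) * (c - e) := by ring
    rw [this, h, zero_mul]
  have hD : (C (c ^ 2 - e ^ 2) : PowerSeries ℝ) ≠ 0 := by
    intro h
    apply hx
    have := congrArg (coeff 0) h
    simpa using this
  apply mul_left_cancel₀ hD
  have eS : C (c ^ 2 - e ^ 2) * algebraMap ℝ (PowerSeries ℝ) (Sk x i j)
      = C ((c - e) ^ 2) := by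
    rw [PowerSeries.algebraMap_apply, Algebra.algebraMap_self, RingHom.id_apply, ← map_mul]
    congr 1
    rw [Sk, ← hc, ← he]
    field_simp
    ring
  have eR : C (c ^ 2 - e ^ 2) * ((1 + C c * X) * (1 + C e * X) * (((c ^ 2 - e ^ 2)⁻¹) •
        ((c • Wc q (c ^ 2) - e • Wc q (e ^ 2)) *
          (c • Wc q (q * c ^ 2) - e • Wc q (q * e ^ 2))))) =
      C (c ^ 2) * ((1 + C e * X) * ((1 + C c * X) * (Wc q (c ^ 2) * Wc q (q * c ^ 2))))
      + C (e ^ 2) * ((1 + C c * X) * ((1 + C e * X) * (Wc q (e ^ 2) * Wc q (q * e ^ 2))))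
      - C (c * e) * (((1 + C c * X) * Wc q (1 * c ^ 2)) * ((1 + C e * X) * Wc q (q * e ^ 2)))
      - C (c * e) * (((1 + C c * X) * Wc q (q * c ^ 2)) * ((1 + C e * X) * Wc q (1 * e ^ 2))) := by
    rw [PowerSeries.smul_eq_C_mul, PowerSeries.smul_eq_C_mul, PowerSeries.smul_eq_C_mul,
      PowerSeries.smul_eq_C_mul, PowerSeries.smul_eq_C_mul, one_mul, one_mul]
    have hinv : (C (c ^ 2 - e ^ 2) : PowerSeries ℝ) * C ((c ^ 2 - e ^ 2)⁻¹) = 1 := by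
      rw [← map_mul, mul_inv_cancel₀ hx, map_one]
    rw [show C (c ^ 2) = (C c * C c : PowerSeries ℝ) by rw [← map_mul, sq],
      show C (e ^ 2) = (C e * C e : PowerSeries ℝ) by rw [← map_mul, sq],
      show C (c * e) = (C c * C e : PowerSeries ℝ) by rw [← map_mul]]
    linear_combination ((1 + C c * X) * (1 + C e * X) *
        ((C c * Wc q (c ^ 2) - C e * Wc q (e ^ 2)) *
          (C c * Wc q (q * c ^ 2) - C e * Wc q (q * e ^ 2)))) * hinv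
  rw [mul_add, eS, eR]
  rw [ker_geo q hq0 hq1 c, ker_geo q hq0 hq1 e, ker_fg q 1 c, ker_fg q q c, ker_fg q 1 e,
    ker_fg q q e]
  ext n
  rw [map_add, coeff_C_mul n (Bk (Akm q) x i j)]
  simp only [map_add, map_sub, coeff_C_mul, coeff_C, add_mul, one_mul, mul_assoc]
  rcases n with _ | n
  · have hA : Akm q 0 0 = 0 := by
      have := Akm_anti q 0 0
      linarith
    simp [Bk, hA, w_zero', coeff_mul, coeff_zero_X_mul]
    ring
  · rw [coeff_succ_X_mul, coeff_succ_X_mul, if_neg (Nat.succ_ne_zero n)]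
    have hb : coeff (n + 1) (Bk (Akm q) x i j)
        = ∑ p ∈ antidiagonal (n + 1), Akm q p.1 p.2 * c ^ p.1 * e ^ p.2 := by
      simp [Bk, hc, he]
    rw [hb, ker_coef q hq0 hq1 c e n]
    simp only [coeff_mul, coeff_mk, Finset.mul_sum]
    rw [zero_add]
    have hs : ∑ p ∈ antidiagonal (n + 1), c * e * ((q ^ (p.1 / 2) + q ^ (p.2 / 2)) * w q (p.1 / 2)
          * w q (p.2 / 2) * c ^ p.1 * e ^ p.2)
        = ∑ p ∈ antidiagonal (n + 1), c * (e * (w q (p.1 / 2) * 1 ^ (p.1 / 2) * c ^ p.1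
            * (w q (p.2 / 2) * q ^ (p.2 / 2) * e ^ p.2)))
        + ∑ p ∈ antidiagonal (n + 1), c * (e * (w q (p.1 / 2) * q ^ (p.1 / 2) * c ^ p.1
            * (w q (p.2 / 2) * 1 ^ (p.2 / 2) * e ^ p.2))) := by
      rw [← Finset.sum_add_distrib]
      apply Finset.sum_congr rfl
      intro p _
      rw [one_pow, one_pow]
      ring
    rw [hs]
    simp only [mul_assoc]
    ring

end Pool.Agent.H99.PA
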