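import Pool.Agent.H99.PA.Defs

/-!
# Module PR (board pa99_mod, about 120 lines): the product identity

Write `e m = 1 - q^m • v`, `a m = Qp q v m = ∏_{s<m} e(2s)`, `b m = Qp q (q•v) m = ∏_{s<m} e(2s+1)`,
`n = (N+1)/2`.  CLAIM:
`a N * (∏_{j<N} ∏_{i<j} e(i+j)) * ∏_{j<n} (a j * b j) = ∏_{r<n} (b (N-1-r) * a (N-r))`.
PROOF.  Put `f m = ∏_{s<m} e s`.  Then `f (2m) = a m * b m`, `f (2m+1) = a (m+1) * b m` (induction), and
`(∏_{i<j} e(i+j)) * f j = f (2j)` (`Finset.prod_range_add`, up to the order of the sum).  So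
`(∏_{j<N} ∏_{i<j} e(i+j)) * ∏_{j<N} f j = ∏_{j<N} f (2j) = ∏_{j<N} (a j * b j)`.
As `R` is a domain and all `e m ≠ 0` it is enough to prove the CLAIM multiplied by `∏_{j<N} f j`:
`a N * ∏_{j<N} (a j * b j) * ∏_{j<n} (a j * b j) = (∏_{r<n} (b (N-1-r) * a (N-r))) * ∏_{j<N} f j`.
`N = 2n`: `∏_{j<2n} f j = ∏_{i<n} (a i * b i * (a (i+1) * b i))`; `∏_{r<n} b (2n-1-r) = ∏_{m∈[n,2n)} b m`,
`∏_{r<n} a (2n-r) = ∏_{m∈(n,2n]} a m` (`Finset.prod_range_reflect`); both sides are
`∏_{m<2n} b m * ∏_{m<n} b m * ∏_{m<2n} a m * a (2n) * ∏_{m<n} a m`, using `a 0 = 1`.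
`N = 2n-1` (`n ≥ 1`): `∏_{j<2n-1} f j = a (n-1) * b (n-1) * ∏_{i<n-1} (a i * b i * (a (i+1) * b i))`, the same
comparison: `∏_{r<n} b (2n-2-r) = ∏_{m∈[n-1,2n-1)} b m`, `∏_{r<n} a (2n-1-r) = ∏_{m∈[n,2n)} a m`.
(Easy alternative: induction `n → n+1` for both parities, with the same `f`.)
-/

set_option autoImplicit false

open Finset Pool.H53.RQ

namespace Pool.Agent.H99.PA

private theorem PR_f_even {R : Type} [CommRing R] (e a b f : ℕ → R)
    (ha : ∀ m, a m = ∏ s ∈ range m, e (2 * s)) (hb : ∀ m, b m = ∏ s ∈ range m, e (2 * s + 1))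
    (hf : ∀ m, f m = ∏ s ∈ range m, e s) (m : ℕ) : f (2 * m) = a m * b m := by
  rw [hf, ha, hb]
  induction m with
  | zero => simp
  | succ m ih =>
    rw [show 2 * (m + 1) = 2 * m + 1 + 1 by ring, prod_range_succ, prod_range_succ, ih,
      prod_range_succ _ m, prod_range_succ _ m]
    ring

private theorem PR_f_odd {R : Type} [CommRing R] (e a b f : ℕ → R)
    (ha : ∀ m, a m = ∏ s ∈ range m, e (2 * s)) (hb : ∀ m, b m = ∏ s ∈ range m, e (2 * s + 1))
    (hf : ∀ m, f m = ∏ s ∈ range m, e s) (m : ℕ) : f (2 * m + 1) = a (m + 1) * b m := by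
  have h := PR_f_even e a b f ha hb hf m
  rw [hf, prod_range_succ, ← hf, h, ha (m + 1), prod_range_succ, ← ha]
  ring

private theorem PR_dbl {R : Type} [CommRing R] (e f : ℕ → R)
    (hf : ∀ m, f m = ∏ s ∈ range m, e s) (j : ℕ) :
    (∏ i ∈ range j, e (i + j)) * f j = f (2 * j) := by
  rw [hf (2 * j), two_mul, prod_range_add, ← hf, mul_comm]
  congr 1
  exact prod_congr rfl fun i _ => by rw [add_comm]

private theorem PR_f2 {R : Type} [CommRing R] (e a b f : ℕ → R)
    (ha : ∀ m, a m = ∏ s ∈ range m, e (2 * s)) (hb : ∀ m, b m = ∏ s ∈ range m, e (2 * s + 1))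
    (hf : ∀ m, f m = ∏ s ∈ range m, e s) (n : ℕ) :
    ∏ j ∈ range (2 * n), f j =
      (∏ i ∈ range n, a i) * (∏ i ∈ range n, b i) * (∏ i ∈ range n, a (i + 1)) *
        (∏ i ∈ range n, b i) := by
  induction n with
  | zero => simp
  | succ n ih =>
    rw [show 2 * (n + 1) = 2 * n + 1 + 1 by ring, prod_range_succ, prod_range_succ, ih,
      prod_range_succ _ n, prod_range_succ _ n, prod_range_succ _ n,
      PR_f_even e a b f ha hb hf, PR_f_odd e a b f ha hb hf]
    ring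

private theorem PR_shift {R : Type} [CommRing R] (a : ℕ → R) (h0 : a 0 = 1) (N : ℕ) :
    ∏ i ∈ range N, a (i + 1) = a N * ∏ i ∈ range N, a i := by
  rw [mul_comm, ← prod_range_succ, prod_range_succ', h0, mul_one]

private theorem PR_refl {R : Type} [CommRing R] (g : ℕ → R) (n M k : ℕ) (h : M = k + n) :
    ∏ r ∈ range (n + 1), g (M - r) = ∏ r ∈ range (n + 1), g (k + r) := by
  rw [← prod_range_reflect (fun r => g (k + r)) (n + 1)]
  refine prod_congr rfl fun r hr => ?_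
  rw [mem_range] at hr
  congr 1
  omega

private theorem PR_main {R : Type} [CommRing R] (e a b f : ℕ → R)
    (ha : ∀ m, a m = ∏ s ∈ range m, e (2 * s)) (hb : ∀ m, b m = ∏ s ∈ range m, e (2 * s + 1))
    (hf : ∀ m, f m = ∏ s ∈ range m, e s) (N n : ℕ) (hn : n = (N + 1) / 2) :
    a N * (∏ j ∈ range N, (a j * b j)) * (∏ j ∈ range n, (a j * b j)) =
      (∏ r ∈ range n, (b (N - 1 - r) * a (N - r))) * ∏ j ∈ range N, f j := by
  have h0 : a 0 = 1 := by rw [ha]; simp
  rcases Nat.even_or_odd' N with ⟨k, hk | hk⟩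
  · have hnk : n = k := by omega
    subst hnk
    subst hk
    rcases Nat.eq_zero_or_pos n with h | h
    · subst h
      simp [h0]
    · obtain ⟨t, rfl⟩ : ∃ t, n = t + 1 := ⟨n - 1, by omega⟩
      rw [PR_f2 e a b f ha hb hf, prod_mul_distrib, prod_mul_distrib, prod_mul_distrib,
        PR_refl b t (2 * (t + 1) - 1) (t + 1) (by omega),
        PR_refl a t (2 * (t + 1)) (t + 2) (by omega)]
      have hB : (∏ i ∈ range (t + 1), b i) * (∏ r ∈ range (t + 1), b (t + 1 + r))
          = ∏ i ∈ range (2 * (t + 1)), b i := by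
        rw [two_mul, prod_range_add b (t + 1) (t + 1)]
      have hA : (∏ i ∈ range (t + 1), a (i + 1)) * (∏ r ∈ range (t + 1), a (t + 2 + r))
          = a (2 * (t + 1)) * ∏ i ∈ range (2 * (t + 1)), a i := by
        rw [← PR_shift a h0, two_mul, prod_range_add (fun i => a (i + 1)) (t + 1) (t + 1)]
        congr 1
        refine prod_congr rfl fun i _ => ?_
        show a (t + 2 + i) = a (t + 1 + i + 1)
        congr 1
        omega
      calc _ = (a (2 * (t + 1)) * ∏ i ∈ range (2 * (t + 1)), a i) *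
            (∏ i ∈ range (2 * (t + 1)), b i) *
            ((∏ j ∈ range (t + 1), a j) * ∏ j ∈ range (t + 1), b j) := by ring
        _ = _ := by rw [← hA, ← hB]; ring
  · have hnk : n = k + 1 := by omega
    subst hnk
    subst hk
    rw [prod_range_succ f, PR_f2 e a b f ha hb hf, PR_f_even e a b f ha hb hf,
      prod_mul_distrib, prod_mul_distrib, prod_mul_distrib,
      PR_refl b k (2 * k + 1 - 1) k (by omega),
      PR_refl a k (2 * k + 1) (k + 1) (by omega)]
    have hB : (∏ i ∈ range k, b i) * (∏ r ∈ range (k + 1), b (k + r))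
        = ∏ i ∈ range (2 * k + 1), b i := by
      rw [show 2 * k + 1 = k + (k + 1) by ring, prod_range_add b k (k + 1)]
    have hA : (∏ i ∈ range k, a (i + 1)) * (∏ r ∈ range (k + 1), a (k + 1 + r))
        = a (2 * k + 1) * ∏ i ∈ range (2 * k + 1), a i := by
      rw [← PR_shift a h0, show 2 * k + 1 = k + (k + 1) by ring,
        prod_range_add (fun i => a (i + 1)) k (k + 1)]
      congr 1
      refine prod_congr rfl fun i _ => ?_
      show a (k + 1 + i) = a (k + i + 1)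
      congr 1
      omega
    calc _ = (a (2 * k + 1) * ∏ i ∈ range (2 * k + 1), a i) *
          (∏ i ∈ range (2 * k + 1), b i) *
          ((∏ j ∈ range (k + 1), a j) * ∏ j ∈ range (k + 1), b j) := by ring
      _ = _ := by rw [← hA, ← hB, prod_range_succ a k, prod_range_succ b k]; ring

theorem prod_id {R : Type} [CommRing R] [IsDomain R] [Algebra ℝ R] (q : ℝ) (v : R)
    (hv : ∀ m : ℕ, 1 - (q ^ m) • v ≠ 0) (N n : ℕ) (hn : n = (N + 1) / 2) :
    Qp q v N * (∏ j ∈ range N, ∏ i ∈ range j, (1 - (q ^ (i + j)) • v)) *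
        ∏ j ∈ range n, (Qp q v j * Qp q (q • v) j) =
      ∏ r ∈ range n, (Qp q (q • v) (N - 1 - r) * Qp q v (N - r)) := by
  have hmain := PR_main (fun m => 1 - (q ^ m) • v) (fun m => Qp q v m) (fun m => Qp q (q • v) m)
    (fun m => ∏ s ∈ range m, (1 - (q ^ s) • v)) (fun m => rfl)
    (fun m => prod_congr rfl fun s _ => by
      show 1 - (q ^ (2 * s)) • (q • v) = 1 - (q ^ (2 * s + 1)) • v
      rw [smul_smul, pow_succ]) (fun m => rfl) N n hn
  have hfne : (∏ j ∈ range N, ∏ s ∈ range j, (1 - (q ^ s) • v)) ≠ 0 :=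
    prod_ne_zero_iff.mpr fun j _ => prod_ne_zero_iff.mpr fun s _ => hv s
  have hd : (∏ j ∈ range N, ∏ i ∈ range j, (1 - (q ^ (i + j)) • v)) *
      (∏ j ∈ range N, ∏ s ∈ range j, (1 - (q ^ s) • v)) =
      ∏ j ∈ range N, (Qp q v j * Qp q (q • v) j) := by
    rw [← prod_mul_distrib]
    refine prod_congr rfl fun j _ => ?_
    have h1 := PR_dbl (fun m => 1 - (q ^ m) • v) (fun m => ∏ s ∈ range m, (1 - (q ^ s) • v))
      (fun m => rfl) j
    have h2 := PR_f_even (fun m => 1 - (q ^ m) • v) (fun m => Qp q v m)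
      (fun m => Qp q (q • v) m) (fun m => ∏ s ∈ range m, (1 - (q ^ s) • v)) (fun m => rfl)
      (fun m => prod_congr rfl fun s _ => by
        show 1 - (q ^ (2 * s)) • (q • v) = 1 - (q ^ (2 * s + 1)) • v
        rw [smul_smul, pow_succ]) (fun m => rfl) j
    exact h1.trans h2
  refine mul_right_cancel₀ hfne ?_
  rw [← hmain, ← hd]
  ring

end Pool.Agent.H99.PA
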