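import Pool.Agent.H99.PA.Lm

/-!
# Module GramB (board pa99_mod, about 80 lines): Gram matrices in other polynomial bases

PROOF.  For a polynomial `P` of degree `< n`: `P.eval X = ∑_{a : Fin n} P.coeff a * X^a`
(`Polynomial.eval_eq_sum_range'`, `Fin.sum_univ_eq_sum_range`).  So the matrix on the left is the product
`C_F * Gm x n s f * C_Gᵀ` with `C_F = (F a).coeff b` (mapped to `R` by `algebraMap`); the determinant is
multiplicative; `det (M.map (algebraMap ℝ R)) = algebraMap (det M)` (`RingHom.map_det`), `Algebra.smul_def`.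
-/

set_option autoImplicit false

open Finset Pool.H53.RQ

namespace Pool.Agent.H99.PA

variable {R : Type} [CommRing R] [Algebra ℝ R]

private theorem GramB_eval (n : ℕ) (P : Polynomial ℝ) (hP : P.natDegree < n) (X : ℝ) :
    P.eval X = ∑ i : Fin n, P.coeff i * X ^ (i : ℕ) := by
  rw [Polynomial.eval_eq_sum_range' hP X, Finset.sum_range]

theorem gram_basis (x : ℕ → ℝ) (n : ℕ) (s : Finset ℕ) (f : ℕ → R)
    (F G : Fin n → Polynomial ℝ) (hF : ∀ a, (F a).natDegree < n) (hG : ∀ a, (G a).natDegree < n) :
    (Matrix.of fun a b : Fin n => ∑ k ∈ s,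
        (lam x s k * ((F a).eval (x k ^ 2) * (G b).eval (x k ^ 2))) • f k).det =
      ((Matrix.of fun a b : Fin n => (F a).coeff b).det *
        (Matrix.of fun a b : Fin n => (G a).coeff b).det) • Hk x n s f := by
  have hM : (Matrix.of fun a b : Fin n => ∑ k ∈ s,
      (lam x s k * ((F a).eval (x k ^ 2) * (G b).eval (x k ^ 2))) • f k) =
      ((Matrix.of fun a b : Fin n => (F a).coeff b).map (algebraMap ℝ R)) * Gm x n s f *
        ((Matrix.of fun a b : Fin n => (G a).coeff b).map (algebraMap ℝ R)).transpose := by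
    ext a b
    simp only [Matrix.mul_apply, Matrix.of_apply, Matrix.map_apply, Matrix.transpose_apply, Gm]
    have h1 : ∀ k, lam x s k * ((F a).eval (x k ^ 2) * (G b).eval (x k ^ 2)) =
        ∑ j : Fin n, ∑ i : Fin n, (G b).coeff j * ((F a).coeff i *
          (lam x s k * (x k ^ 2) ^ ((i : ℕ) + (j : ℕ)))) := by
      intro k
      rw [GramB_eval n _ (hF a), GramB_eval n _ (hG b), Finset.sum_mul_sum, Finset.mul_sum,
        Finset.sum_comm]
      refine Finset.sum_congr rfl fun i _ => ?_
      rw [Finset.mul_sum]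
      refine Finset.sum_congr rfl fun j _ => ?_
      rw [pow_add]
      ring
    have h3 : ∀ (c : ℝ) (v : R), v * algebraMap ℝ R c = c • v := fun c v => by
      rw [Algebra.smul_def, mul_comm]
    simp only [h1, Finset.sum_smul, h3]
    rw [Finset.sum_comm]
    refine Finset.sum_congr rfl fun j _ => ?_
    rw [Finset.sum_comm, Finset.smul_sum]
    refine Finset.sum_congr rfl fun i _ => ?_
    rw [← Algebra.smul_def, Finset.smul_sum, Finset.smul_sum]
    refine Finset.sum_congr rfl fun k _ => ?_
    rw [smul_smul, smul_smul, mul_assoc]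
  rw [hM, Matrix.det_mul, Matrix.det_mul, Matrix.det_transpose]
  have h2 : ∀ C : Matrix (Fin n) (Fin n) ℝ, (C.map (algebraMap ℝ R)).det =
      algebraMap ℝ R C.det := fun C => by
    rw [RingHom.map_det]
    rfl
  rw [h2, h2, Algebra.smul_def, map_mul]
  unfold Hk
  ring

end Pool.Agent.H99.PA
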