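import Pool.Agent.H99.PA.DDc
import Pool.Agent.H99.PA.GramB

/-!
# Module Win (board pa99_mod, about 220 lines): `H_s(f)` for the window

`N`, `n = (N+1)/2`, `s = range (2n)`, `x = xx q N` (so `x k = q^k` for `k < N` and, for odd `N`, `x N = 0`,
`2n = N + 1`; for even `N`, `2n = N`), `X_k = x_k²`.  `f : ℕ → R` with the recursion for `k + 1 < N` and
`f k = 0` for `N ≤ k`.
PROOF.  `N = 0`: all is 1.  Let `N ≥ 1`, so `n ≥ 1`.  For `a, b : Fin n` put
`F a = X^(n-1-a) * ∏_{l<a} (X - C X_l)`, `G b = X^(n-1-b) * ∏_{l<b} (X - C X_{N-1-l})` (real polynomials of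
degree `n - 1`).  Let `e_f a b = ∑_{k∈s} (lam x s k * (F a)(X_k) * (G b)(X_k)) • f k`.
(1) `e_f a b = c_{ab} • dd q a (N-1-b) f` with a real `c_{ab}` which does not depend on `f`, `R`.  Note
    `a + b ≤ 2n - 2 ≤ N - 1`, so `a ≤ m := N-1-b`.  The terms with `k ≥ N` vanish (`f k = 0`), those with
    `k < a` by `F a`, those with `m < k < N` by `G b`.  For `k ∈ Icc a m`:
    `lam x s k = (∏_{l<N, l≠k} (X_k - X_l)⁻¹) * (X_k⁻¹ if N is odd)`, so
    `lam * F a * G b = X_k^{t} ∏_{l∈[a,m], l≠k} (X_k - X_l)⁻¹`, `t = 2n-2-a-b - (N odd) = N - 2 - a - b = m-a-1`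
    (an integer `≥ -1`; use `zpow` or write `X_k^{m-a} * X_k⁻¹`), and with `Z_k = X_k⁻¹`,
    `(Z_k - Z_l)⁻¹ = X_k X_l (X_l - X_k)⁻¹`, so
    `∏_{l∈[a,m], l≠k} (Z_k - Z_l)⁻¹ = (-1)^{m-a} X_k^{m-a} X_k⁻¹ (∏_{l∈[a,m]} X_l) ∏_{l≠k} (X_k - X_l)⁻¹`.
    Hence `c_{ab} = (-1)^{m-a} (∏_{l∈[a,m]} X_l)⁻¹`.
(2) `e_f a b * Qp q (q•α) (N-1-b) = f 0 * Qp q α a * algebraMap (e_0 a b)`, `e_0 a b` = the same expression for
    `R = ℝ`, `f⁰ k = xx q N k`: dd_closed for `j = a`, `m = N-1-b` (for `k < m`, `k + 1 ≤ m ≤ N - 1 < N`), and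
    `dd q a m f⁰ = dd q a m (q^·)` because `m < N`.
(3) take determinants: `Matrix.det_mul_row`, `Matrix.det_mul_column` (or
    `Matrix.det_mul` with diagonal matrices): `det e_f * ∏_b Qp q (q•α) (N-1-b) =
    f 0 ^ n * ∏_a Qp q α a * algebraMap (det e_0)` (`Fin.prod_univ_eq_prod_range`).
(4) by gram_basis `det e_f = c • Hk f`, `det e_0 = c * Hk f⁰` with the same real
    `c = det (F-coefficients) * det (G-coefficients)`, and `c ≠ 0`:
    with `V = (X_k^b)_{k,b<n}` (`k = 0..n-1`), `(coefficients of F) * Vᵀ = ((F a)(X_k))_{a,k}` is `0` for `k < a`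
    and `X_a^{n-1-a} ∏_{l<a} (X_a - X_l) ≠ 0` for `k = a`: triangular with nonzero diagonal
    (`Matrix.det_of_upperTriangular`), so the determinant of the coefficients is `≠ 0`; for `G` use the points
    `X_{N-1-k}`, `k < n` (`N - 1 - k ≥ N - n ≥ 0`; all `X_{N-1-k} ≠ 0`, distinct).
    Cancel `c` (`smul` by a nonzero real number).
The Hankel determinant of `f⁰` in `R` is the image of the real one: `Hk x n s (fun k => algebraMap ℝ R (x k)) =
algebraMap ℝ R (Hk x n s x)` (`RingHom.map_det`).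
-/

set_option autoImplicit false

open Finset Pool.H53.RQ

namespace Pool.Agent.H99.PA

private theorem win_eval (n : ℕ) (P : Polynomial ℝ) (hP : P.natDegree < n) (X : ℝ) :
    P.eval X = ∑ i : Fin n, P.coeff i * X ^ (i : ℕ) := by
  rw [Polynomial.eval_eq_sum_range' hP X, Finset.sum_range]

private theorem win_det_ne (n : ℕ) (F : Fin n → Polynomial ℝ) (hF : ∀ a, (F a).natDegree < n)
    (y : Fin n → ℝ) (h0 : ∀ a k : Fin n, k < a → (F a).eval (y k) = 0)
    (h1 : ∀ a, (F a).eval (y a) ≠ 0) :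
    (Matrix.of fun a b : Fin n => (F a).coeff b).det ≠ 0 := by
  intro hd
  have h : (Matrix.of fun a k : Fin n => (F a).eval (y k)) =
      (Matrix.of fun a b : Fin n => (F a).coeff b) *
        (Matrix.of fun b k : Fin n => y k ^ (b : ℕ)) := by
    ext a k
    simp only [Matrix.mul_apply, Matrix.of_apply]
    exact win_eval n _ (hF a) _
  have h2 : (Matrix.of fun a k : Fin n => (F a).eval (y k)).det = ∏ a, (F a).eval (y a) := by
    apply Matrix.det_of_isUpperTriangular
    intro a k hk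
    exact h0 a k hk
  rw [h, Matrix.det_mul, hd, zero_mul] at h2
  exact Finset.prod_ne_zero_iff.2 (fun a _ => h1 a) h2.symm

private noncomputable def winY (q : ℝ) (N k : ℕ) : ℝ := xx q N k ^ 2

private theorem winY_lt {q : ℝ} {N k : ℕ} (hk : k < N) : winY q N k = q ^ (2 * k) := by
  unfold winY xx
  rw [if_pos hk, ← pow_mul, mul_comm]

private theorem winY_ge {q : ℝ} {N k : ℕ} (hk : N ≤ k) : winY q N k = 0 := by
  unfold winY xx
  rw [if_neg (by omega)]
  norm_num

private theorem winY_ne {q : ℝ} (hq0 : 0 < q) (hq1 : q < 1) {N k l : ℕ} (hk : k < N) (hl : l < N)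
    (hkl : k ≠ l) : winY q N k - winY q N l ≠ 0 := by
  rw [winY_lt hk, winY_lt hl, sub_ne_zero]
  intro h
  have := pow_right_injective₀ hq0 hq1.ne h
  omega

private theorem winY_ne0 {q : ℝ} (hq0 : 0 < q) {N k : ℕ} (hk : k < N) : winY q N k ≠ 0 := by
  rw [winY_lt hk]
  positivity

private noncomputable def winF (q : ℝ) (N n a : ℕ) : Polynomial ℝ :=
  Polynomial.X ^ (n - 1 - a) * ∏ l ∈ range a, (Polynomial.X - Polynomial.C (winY q N l))

private noncomputable def winG (q : ℝ) (N n b : ℕ) : Polynomial ℝ :=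
  Polynomial.X ^ (n - 1 - b) * ∏ l ∈ range b, (Polynomial.X - Polynomial.C (winY q N (N - 1 - l)))

private theorem win_deg (g : ℕ → ℝ) (n a : ℕ) (ha : a < n) :
    (Polynomial.X ^ (n - 1 - a) * ∏ l ∈ range a, (Polynomial.X - Polynomial.C (g l))).natDegree < n := by
  have h1 : (∏ l ∈ range a, (Polynomial.X - Polynomial.C (g l))).natDegree ≤ a := by
    refine (Polynomial.natDegree_prod_le _ _).trans ?_
    simp
  have h2 := Polynomial.natDegree_mul_le (p := (Polynomial.X : Polynomial ℝ) ^ (n - 1 - a))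
    (q := ∏ l ∈ range a, (Polynomial.X - Polynomial.C (g l)))
  have h3 : ((Polynomial.X : Polynomial ℝ) ^ (n - 1 - a)).natDegree = n - 1 - a :=
    Polynomial.natDegree_X_pow _
  omega

private theorem winF_eval (q : ℝ) (N n a : ℕ) (t : ℝ) :
    (winF q N n a).eval t = t ^ (n - 1 - a) * ∏ l ∈ range a, (t - winY q N l) := by
  unfold winF
  simp [Polynomial.eval_prod]

private theorem winG_eval (q : ℝ) (N n b : ℕ) (t : ℝ) :
    (winG q N n b).eval t = t ^ (n - 1 - b) * ∏ l ∈ range b, (t - winY q N (N - 1 - l)) := by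
  unfold winG
  simp [Polynomial.eval_prod]

private theorem win_coef (q : ℝ) (hq0 : 0 < q) (hq1 : q < 1) (N n a b k : ℕ)
    (hn : n = (N + 1) / 2) (ha : a < n) (hb : b < n) (hk : k ∈ Icc a (N - 1 - b)) :
    lam (xx q N) (range (2 * n)) k *
        ((winF q N n a).eval (xx q N k ^ 2) * (winG q N n b).eval (xx q N k ^ 2)) =
      ((-1) ^ (N - 1 - b - a) * (∏ l ∈ Icc a (N - 1 - b), winY q N l)⁻¹) *
        ∏ l ∈ (Icc a (N - 1 - b)).erase k, ((q ^ (2 * k))⁻¹ - (q ^ (2 * l))⁻¹)⁻¹ := by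
  obtain ⟨hk1, hk2⟩ := Finset.mem_Icc.1 hk
  have hkN : k < N := by omega
  change lam (xx q N) (range (2 * n)) k *
        ((winF q N n a).eval (winY q N k) * (winG q N n b).eval (winY q N k)) = _
  rw [winF_eval, winG_eval]
  set m := N - 1 - b with hm
  set y := winY q N with hy
  have hyk : y k ≠ 0 := winY_ne0 hq0 hkN
  have hyne : ∀ l, l < N → l ≠ k → y k - y l ≠ 0 := fun l hl hlk =>
    winY_ne hq0 hq1 hkN hl (Ne.symm hlk)
  -- the four parts
  have hA : ∏ l ∈ range a, (y k - y l) ≠ 0 := Finset.prod_ne_zero_iff.2 fun l hl => by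
    have := Finset.mem_range.1 hl
    exact hyne l (by omega) (by omega)
  have hC : ∏ l ∈ Ico (m + 1) N, (y k - y l) ≠ 0 := Finset.prod_ne_zero_iff.2 fun l hl => by
    have := Finset.mem_Ico.1 hl
    exact hyne l (by omega) (by omega)
  have hCG : ∏ l ∈ range b, (y k - y (N - 1 - l)) = ∏ l ∈ Ico (m + 1) N, (y k - y l) := by
    refine Finset.prod_nbij' (fun l => N - 1 - l) (fun l => N - 1 - l) ?_ ?_ ?_ ?_ ?_
    · intro l hl
      have := Finset.mem_range.1 hl
      rw [Finset.mem_Ico]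
      omega
    · intro l hl
      have := Finset.mem_Ico.1 hl
      rw [Finset.mem_range]
      omega
    · intro l hl
      have := Finset.mem_range.1 hl
      change N - 1 - (N - 1 - l) = l
      omega
    · intro l hl
      have := Finset.mem_Ico.1 hl
      change N - 1 - (N - 1 - l) = l
      omega
    · intro l hl
      rfl
  have hE : ∏ l ∈ Ico N (2 * n), (y k - y l) = y k ^ (2 * n - N) := by
    rw [← Nat.card_Ico N (2 * n), ← Finset.prod_const]
    refine Finset.prod_congr rfl fun l hl => ?_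
    have := Finset.mem_Ico.1 hl
    rw [hy, winY_ge (by omega : N ≤ l), sub_zero]
  have hlam : lam (xx q N) (range (2 * n)) k =
      ((∏ l ∈ range a, (y k - y l)) * (∏ l ∈ (Icc a m).erase k, (y k - y l)) *
        (∏ l ∈ Ico (m + 1) N, (y k - y l)) * y k ^ (2 * n - N))⁻¹ := by
    have h1 : lam (xx q N) (range (2 * n)) k = (∏ l ∈ (range (2 * n)).erase k, (y k - y l))⁻¹ := by
      unfold lam
      rw [← Finset.prod_inv_distrib]
      rfl
    rw [h1]
    congr 1
    set g : ℕ → ℝ := fun l => if l = k then 1 else y k - y l with hg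
    have hgk : g k = 1 := by rw [hg]; simp
    have hgl : ∀ l, l ≠ k → g l = y k - y l := fun l hl => by rw [hg]; simp [hl]
    have h2 : ∀ T : Finset ℕ, ∏ l ∈ T.erase k, (y k - y l) = ∏ l ∈ T, g l := fun T => by
      rw [← Finset.prod_erase T hgk]
      exact Finset.prod_congr rfl fun l hl => (hgl l (Finset.ne_of_mem_erase hl)).symm
    have hIcc : Icc a m = Ico a (m + 1) := by
      ext l
      simp only [Finset.mem_Icc, Finset.mem_Ico]
      omega
    have h3 : ∏ l ∈ range a, (y k - y l) = ∏ l ∈ range a, g l :=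
      Finset.prod_congr rfl fun l hl => (hgl l (by have := Finset.mem_range.1 hl; omega)).symm
    have h4 : ∏ l ∈ Ico (m + 1) N, (y k - y l) = ∏ l ∈ Ico (m + 1) N, g l :=
      Finset.prod_congr rfl fun l hl => (hgl l (by have := Finset.mem_Ico.1 hl; omega)).symm
    have h5 : ∏ l ∈ Ico N (2 * n), (y k - y l) = ∏ l ∈ Ico N (2 * n), g l :=
      Finset.prod_congr rfl fun l hl => (hgl l (by have := Finset.mem_Ico.1 hl; omega)).symm
    rw [h2, h2, hIcc, h3, h4, ← hE, h5, Finset.prod_range_mul_prod_Ico g (by omega : a ≤ m + 1),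
      Finset.prod_range_mul_prod_Ico g (by omega : m + 1 ≤ N),
      Finset.prod_range_mul_prod_Ico g (by omega : N ≤ 2 * n)]
  have hB : ∏ l ∈ (Icc a m).erase k, ((q ^ (2 * k))⁻¹ - (q ^ (2 * l))⁻¹)⁻¹ =
      (-(y k)) ^ (m - a) * (∏ l ∈ (Icc a m).erase k, y l) *
        (∏ l ∈ (Icc a m).erase k, (y k - y l))⁻¹ := by
    have hcard : ((Icc a m).erase k).card = m - a := by
      rw [Finset.card_erase_of_mem hk, Nat.card_Icc]
      omega
    rw [← hcard, ← Finset.prod_const, ← Finset.prod_inv_distrib, ← Finset.prod_mul_distrib,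
      ← Finset.prod_mul_distrib]
    refine Finset.prod_congr rfl fun l hl => ?_
    have hl1 := Finset.mem_Icc.1 (Finset.mem_of_mem_erase hl)
    have hl2 := Finset.ne_of_mem_erase hl
    have hlN : l < N := by omega
    have hyl : y l ≠ 0 := winY_ne0 hq0 hlN
    have hne := hyne l hlN hl2
    rw [← winY_lt hkN, ← winY_lt hlN]
    change ((y k)⁻¹ - (y l)⁻¹)⁻¹ = _
    have h6 : (y k)⁻¹ - (y l)⁻¹ = -((y k - y l) / (y k * y l)) := by
      field_simp
      ring
    rw [h6]
    field_simp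
  have hprod : ∏ l ∈ Icc a m, y l = y k * ∏ l ∈ (Icc a m).erase k, y l :=
    (Finset.mul_prod_erase _ _ hk).symm
  have hY : ∏ l ∈ (Icc a m).erase k, y l ≠ 0 := Finset.prod_ne_zero_iff.2 fun l hl => by
    have hl1 := Finset.mem_Icc.1 (Finset.mem_of_mem_erase hl)
    exact winY_ne0 hq0 (by omega)
  have hBn : ∏ l ∈ (Icc a m).erase k, (y k - y l) ≠ 0 := Finset.prod_ne_zero_iff.2 fun l hl => by
    have hl1 := Finset.mem_Icc.1 (Finset.mem_of_mem_erase hl)
    exact hyne l (by omega) (Finset.ne_of_mem_erase hl)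
  rw [hCG, hlam, hB, hprod]
  set A := ∏ l ∈ range a, (y k - y l)
  set B := ∏ l ∈ (Icc a m).erase k, (y k - y l)
  set C := ∏ l ∈ Ico (m + 1) N, (y k - y l)
  set Y := ∏ l ∈ (Icc a m).erase k, y l
  have hexp : y k ^ (n - 1 - a) * y k ^ (n - 1 - b) * y k = y k ^ (m - a) * y k ^ (2 * n - N) := by
    rw [← pow_add, ← pow_succ, ← pow_add]
    congr 1
    omega
  have hpw : y k ^ (2 * n - N) ≠ 0 := pow_ne_zero _ hyk
  have hneg : (-(y k)) ^ (m - a) = (-1) ^ (m - a) * y k ^ (m - a) := by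
    rw [neg_eq_neg_one_mul, mul_pow]
  have hsq : ((-1 : ℝ) ^ (m - a)) * (-1) ^ (m - a) = 1 := by
    rw [← mul_pow]
    norm_num
  have h7 : (A * B * C * y k ^ (2 * n - N))⁻¹ * (y k ^ (n - 1 - a) * A * (y k ^ (n - 1 - b) * C)) =
      y k ^ (m - a) * (y k)⁻¹ * B⁻¹ := by
    have h8 : y k ^ (n - 1 - a) * y k ^ (n - 1 - b) = y k ^ (m - a) * y k ^ (2 * n - N) * (y k)⁻¹ := by
      rw [← hexp]
      field_simp
    calc (A * B * C * y k ^ (2 * n - N))⁻¹ * (y k ^ (n - 1 - a) * A * (y k ^ (n - 1 - b) * C))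
        = (A * B * C * y k ^ (2 * n - N))⁻¹ * (A * C) *
            (y k ^ (n - 1 - a) * y k ^ (n - 1 - b)) := by ring
      _ = (A * B * C * y k ^ (2 * n - N))⁻¹ * (A * C) *
            (y k ^ (m - a) * y k ^ (2 * n - N) * (y k)⁻¹) := by rw [h8]
      _ = y k ^ (m - a) * (y k)⁻¹ * B⁻¹ := by field_simp
  rw [h7, hneg]
  have h9 : (-1 : ℝ) ^ (m - a) * (y k * Y)⁻¹ * ((-1) ^ (m - a) * y k ^ (m - a) * Y * B⁻¹) =
      ((-1 : ℝ) ^ (m - a) * (-1) ^ (m - a)) * (y k ^ (m - a) * (y k)⁻¹ * B⁻¹) := by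
    field_simp
  rw [h9, hsq, one_mul]

private theorem win_entry {R : Type} [CommRing R] [Algebra ℝ R] (q : ℝ) (hq0 : 0 < q) (hq1 : q < 1)
    (N n a b : ℕ) (hn : n = (N + 1) / 2) (ha : a < n) (hb : b < n) (f : ℕ → R)
    (hf0 : ∀ k, N ≤ k → f k = 0) :
    ∑ k ∈ range (2 * n), (lam (xx q N) (range (2 * n)) k *
        ((winF q N n a).eval (xx q N k ^ 2) * (winG q N n b).eval (xx q N k ^ 2))) • f k =
      ((-1) ^ (N - 1 - b - a) * (∏ l ∈ Icc a (N - 1 - b), winY q N l)⁻¹) • dd q a (N - 1 - b) f := by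
  unfold dd
  rw [Finset.smul_sum]
  have hsub : Icc a (N - 1 - b) ⊆ range (2 * n) := by
    intro k hk
    have := Finset.mem_Icc.1 hk
    rw [Finset.mem_range]
    omega
  rw [← Finset.sum_subset hsub]
  · refine Finset.sum_congr rfl fun k hk => ?_
    rw [smul_smul, win_coef q hq0 hq1 N n a b k hn ha hb hk]
  · intro k _ hk
    by_cases h1 : N ≤ k
    · rw [hf0 k h1, smul_zero]
    · have h2 : k < a ∨ N - 1 - b < k := by
        by_contra hcon
        apply hk
        rw [Finset.mem_Icc]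
        omega
      rcases h2 with h2 | h2
      · have h3 : (winF q N n a).eval (xx q N k ^ 2) = 0 := by
          change (winF q N n a).eval (winY q N k) = 0
          rw [winF_eval, Finset.prod_eq_zero (Finset.mem_range.2 h2) (sub_self _), mul_zero]
        rw [h3, zero_mul, mul_zero, zero_smul]
      · have h3 : (winG q N n b).eval (xx q N k ^ 2) = 0 := by
          change (winG q N n b).eval (winY q N k) = 0
          rw [winG_eval, Finset.prod_eq_zero (i := N - 1 - k)
            (Finset.mem_range.2 (by omega)) (by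
              rw [show N - 1 - (N - 1 - k) = k by omega, sub_self]), mul_zero]
        rw [h3, mul_zero, mul_zero, zero_smul]

private theorem win_xx_zero (q : ℝ) (N : ℕ) : ∀ k, N ≤ k → xx q N k = 0 := by
  intro k hk
  unfold xx
  rw [if_neg (by omega)]

private theorem win_dd_xx (q : ℝ) (N a m : ℕ) (hm : m < N) :
    dd q a m (xx q N) = dd q a m (fun k => q ^ k) := by
  unfold dd
  refine Finset.sum_congr rfl fun k hk => ?_
  have h1 : xx q N k = q ^ k := by
    have := Finset.mem_Icc.1 hk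
    unfold xx
    rw [if_pos (by omega)]
  rw [h1]

theorem Hk_window {R : Type} [CommRing R] [Algebra ℝ R] (q : ℝ) (hq0 : 0 < q) (hq1 : q < 1)
    (N n : ℕ) (hn : n = (N + 1) / 2) (α : R) (f : ℕ → R)
    (hf : ∀ k, k + 1 < N →
      (1 - (q ^ (2 * k + 1)) • α) * f (k + 1) = q • ((1 - (q ^ (2 * k)) • α) * f k))
    (hf0 : ∀ k, N ≤ k → f k = 0) :
    Hk (xx q N) n (range (2 * n)) f * ∏ r ∈ range n, Qp q (q • α) (N - 1 - r) =
      f 0 ^ n * (∏ j ∈ range n, Qp q α j) *
        algebraMap ℝ R (Hk (xx q N) n (range (2 * n)) (xx q N)) := by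
  rcases Nat.eq_zero_or_pos N with hN | hN
  · have hn0 : n = 0 := by omega
    subst hn0
    simp [Hk]
  have hnN : n ≤ N := by omega
  set s := range (2 * n) with hs
  set F : Fin n → Polynomial ℝ := fun a => winF q N n a with hF
  set G : Fin n → Polynomial ℝ := fun b => winG q N n b with hG
  have hFd : ∀ a, (F a).natDegree < n := fun a => win_deg _ n a a.2
  have hGd : ∀ b, (G b).natDegree < n := fun b => win_deg _ n b b.2
  have hFn : (Matrix.of fun a b : Fin n => (F a).coeff b).det ≠ 0 := by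
    apply win_det_ne n F hFd (fun k => winY q N k)
    · intro a k hk
      have hk' : (k : ℕ) < (a : ℕ) := hk
      change (winF q N n a).eval (winY q N k) = 0
      rw [winF_eval, Finset.prod_eq_zero (Finset.mem_range.2 hk') (sub_self _), mul_zero]
    · intro a
      have ha := a.2
      change (winF q N n a).eval (winY q N a) ≠ 0
      rw [winF_eval]
      refine mul_ne_zero (pow_ne_zero _ (winY_ne0 hq0 (by omega))) ?_
      refine Finset.prod_ne_zero_iff.2 fun l hl => ?_
      have := Finset.mem_range.1 hl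
      exact winY_ne hq0 hq1 (by omega) (by omega) (by omega)
  have hGn : (Matrix.of fun a b : Fin n => (G a).coeff b).det ≠ 0 := by
    apply win_det_ne n G hGd (fun k => winY q N (N - 1 - k))
    · intro a k hk
      have hk' : (k : ℕ) < (a : ℕ) := hk
      change (winG q N n a).eval (winY q N (N - 1 - k)) = 0
      rw [winG_eval, Finset.prod_eq_zero (Finset.mem_range.2 hk') (sub_self _), mul_zero]
    · intro a
      have ha := a.2
      change (winG q N n a).eval (winY q N (N - 1 - a)) ≠ 0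
      rw [winG_eval]
      refine mul_ne_zero (pow_ne_zero _ (winY_ne0 hq0 (by omega))) ?_
      refine Finset.prod_ne_zero_iff.2 fun l hl => ?_
      have := Finset.mem_range.1 hl
      exact winY_ne hq0 hq1 (by omega) (by omega) (by omega)
  set C : ℝ := (Matrix.of fun a b : Fin n => (F a).coeff b).det *
    (Matrix.of fun a b : Fin n => (G a).coeff b).det with hC
  have hCne : C ≠ 0 := mul_ne_zero hFn hGn
  have hgf := gram_basis (xx q N) n s f F G hFd hGd
  have hg0 := gram_basis (xx q N) n s (xx q N) F G hFd hGd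
  rw [← hC] at hgf hg0
  set Mf : Matrix (Fin n) (Fin n) R := Matrix.of fun a b : Fin n => ∑ k ∈ s,
    (lam (xx q N) s k * ((F a).eval (xx q N k ^ 2) * (G b).eval (xx q N k ^ 2))) • f k with hMf
  set M0 : Matrix (Fin n) (Fin n) ℝ := Matrix.of fun a b : Fin n => ∑ k ∈ s,
    (lam (xx q N) s k * ((F a).eval (xx q N k ^ 2) * (G b).eval (xx q N k ^ 2))) • xx q N k
    with hM0
  have hent : ∀ a b : Fin n, Mf a b * Qp q (q • α) (N - 1 - b) =
      (f 0 * Qp q α a) * algebraMap ℝ R (M0 a b) := by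
    intro a b
    have ha := a.2
    have hb := b.2
    have h1 : Mf a b = ((-1) ^ (N - 1 - (b : ℕ) - a) *
        (∏ l ∈ Icc (a : ℕ) (N - 1 - b), winY q N l)⁻¹) • dd q a (N - 1 - b) f :=
      win_entry q hq0 hq1 N n a b hn ha hb f hf0
    have h2 : M0 a b = ((-1) ^ (N - 1 - (b : ℕ) - a) *
        (∏ l ∈ Icc (a : ℕ) (N - 1 - b), winY q N l)⁻¹) • dd q a (N - 1 - b) (xx q N) :=
      win_entry q hq0 hq1 N n a b hn ha hb (xx q N) (win_xx_zero q N)
    have h3 := dd_closed q hq0 hq1 α f a (N - 1 - b) (by omega) (fun k hk => hf k (by omega))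
    rw [h1, h2, win_dd_xx q N a (N - 1 - b) (by omega), smul_mul_assoc, h3, smul_smul,
      Algebra.smul_def, smul_eq_mul]
    ring
  have hdet : Mf.det * ∏ b : Fin n, Qp q (q • α) (N - 1 - b) =
      (∏ a : Fin n, (f 0 * Qp q α a)) * algebraMap ℝ R M0.det := by
    have h1 : Mf * Matrix.diagonal (fun b : Fin n => Qp q (q • α) (N - 1 - b)) =
        Matrix.diagonal (fun a : Fin n => f 0 * Qp q α a) * (algebraMap ℝ R).mapMatrix M0 := by
      ext a b
      rw [Matrix.mul_diagonal, Matrix.diagonal_mul, RingHom.mapMatrix_apply, Matrix.map_apply]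
      exact hent a b
    have h2 := congrArg Matrix.det h1
    rw [Matrix.det_mul, Matrix.det_mul, Matrix.det_diagonal, Matrix.det_diagonal,
      ← RingHom.map_det] at h2
    exact h2
  have hp1 : ∏ b : Fin n, Qp q (q • α) (N - 1 - b) = ∏ r ∈ range n, Qp q (q • α) (N - 1 - r) :=
    Fin.prod_univ_eq_prod_range (fun r => Qp q (q • α) (N - 1 - r)) n
  have hp2 : ∏ a : Fin n, (f 0 * Qp q α a) = f 0 ^ n * ∏ j ∈ range n, Qp q α j := by
    rw [Fin.prod_univ_eq_prod_range (fun j => f 0 * Qp q α j) n, Finset.prod_mul_distrib,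
      Finset.prod_const, Finset.card_range]
  rw [hp1, hp2, hgf, hg0, smul_mul_assoc, smul_eq_mul, map_mul] at hdet
  have hfin : C • (Hk (xx q N) n s f * ∏ r ∈ range n, Qp q (q • α) (N - 1 - r)) =
      C • (f 0 ^ n * (∏ j ∈ range n, Qp q α j) *
        algebraMap ℝ R (Hk (xx q N) n s (xx q N))) := by
    rw [hdet, Algebra.smul_def]
    ring
  have h := congrArg (fun z => C⁻¹ • z) hfin
  simpa only [smul_smul, inv_mul_cancel₀ hCne, one_smul] using h

end Pool.Agent.H99.PA
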