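import Pool.Agent.H99.PA.Ok
import Pool.Agent.H99.PA.GrMul
import Pool.Agent.H99.PA.GrS
import Pool.Agent.H99.PA.Ker
import Pool.Agent.H99.PA.Win
import Pool.Agent.H99.PA.XX
import Pool.Agent.H99.PA.PR

/-!
# Module Gen (board pa99_mod, about 180 lines): the normalised Pfaffian of the kernel is the product

`n = (N+1)/2`, `s = range (2n)`, `x = xx q N`, `v = X^2 ∈ ℝ⟦X⟧`.
PROOF.  `f k = x k • Wc q (x k ^ 2)`, `g k = x k • Wc q (q * x k ^ 2)`; for `k < N` these are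
`q^k • Wc q (q^(2k))`, `q^k • Wc q (q * q^(2k))`, for `k ≥ N` they are `0`.
(1) kernel (module Ker; `x i ^ 2 - x j ^ 2 ≠ 0` for `i ≠ j` in `s` by `Gd_xx`, `sq_sub_ne`) and Gr_scale with
    `g i := 1 + C (x i) * X`: `Gr (Sk + Bk) n s = (∏_{i∈s} (1 + C (x i) X)) * Gr M n s`,
    `M i j = ((x i ^ 2 - x j ^ 2)⁻¹) • ((f i - f j) * (g i - g j))`; the product is `∏_{i<N} (1 + C (q^i) X)`
    (the factor of the zero node is 1).
(2) Gr_M: `Gr M n s = E2 • (Hk f * Hk g)`; the same with `f = g = x` (real): `M i j = (x i - x j)²/(x i ² - x j ²)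
    = Sk x i j` for `i ≠ j`, so (Gr_congr, Gr_Sk) `1 = E2 * (Hk x)²`, `Hk x = Hk x n s x : ℝ`.
(3) Hk_window for `f`, `α = v`, and for `g`, `α = q • v`: the recursion is Wc_fun:
    `(1 - q^(2k) • v) * Wc q (q^(2k)) = (1 - q^(2k+1) • v) * Wc q (q^(2k+2))` (`c = q^(2k)`; `C c * X^2 = c • X^2`),
    for `g`: `c = q^(2k+1)`.
    So with `a m = Qp q v m`, `b m = Qp q (q•v) m`, `c m = Qp q (q•(q•v)) m`, `f 0 = Wc q 1`, `g 0 = Wc q q`:
    `Gr M n s * ∏_{r<n} (b (N-1-r) * c (N-1-r)) = (f 0 * g 0)^n * ∏_{j<n} (a j * b j)` (using (2)).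
    For `N = 0` everything is 1 (treat it apart if `f 0` is inconvenient: then `n = 0`).
(4) `(1 - v) * (f 0 * g 0) = 1` (Wc_mul, `c = 1`), and `(1 - v) * c m = a (m+1)` (`Finset.prod_range_succ'`,
    `q^(2s) • (q • (q • v)) = q^(2(s+1)) • v`).  Multiply (3) by `(1-v)^n`:
    `Gr M n s * ∏_{r<n} (b (N-1-r) * a (N-r)) = ∏_{j<n} (a j * b j)` (`N - 1 - r + 1 = N - r` for `r < n ≤ N`).
(5) with prod_id (`hv`: constant coefficient 1):
    `Gr M n s * a N * L * ∏_{j<n} (a j b j) = ∏_{j<n} (a j b j)`, `L = ∏_{j<N} ∏_{i<j} (1 - q^(i+j) • v)`;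
    cancel the nonzero product: `Gr M n s * a N * L = 1`.
(6) `(1 + C (q^i) X)(1 - C (q^i) X) = 1 - q^(2i) • v`, so `(∏_{i<N}(1 + ..)) (∏_{i<N} (1 - ..)) = a N`.  With
    (1): `Gr (Sk+Bk) * (∏_{i<N} (1 - C (q^i) X)) * L = Gr M * a N * L = 1`.
-/

set_option autoImplicit false

open Finset Pool.H53.RQ PowerSeries

namespace Pool.Agent.H99.PA

/-- the recursion of `W` with a scalar -/
private theorem gen_rec (q : ℝ) (hq0 : 0 < q) (hq1 : q < 1) (c a : ℝ) :
    (1 - (q * c) • (X ^ 2 : PowerSeries ℝ)) * ((q * a) • Wc q (q ^ 2 * c)) =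
      q • ((1 - c • (X ^ 2 : PowerSeries ℝ)) * (a • Wc q c)) := by
  have h := Wc_fun q hq0 hq1 c
  simp only [smul_eq_C_mul, map_mul] at h ⊢
  linear_combination (-(C q * C a)) * h

private theorem gen_Qp (q : ℝ) (v : PowerSeries ℝ) (m : ℕ) :
    (1 - v) * Qp q (q • (q • v)) m = Qp q v (m + 1) := by
  unfold Qp
  rw [prod_range_succ']
  simp only [mul_zero, pow_zero, one_smul]
  rw [mul_comm]
  congr 1
  refine prod_congr rfl fun s _ => ?_
  have h : q ^ (2 * s) • (q • (q • v)) = q ^ (2 * (s + 1)) • v := by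
    rw [smul_smul, smul_smul]
    ring_nf
  rw [h]

private theorem gen_fac (q : ℝ) (i : ℕ) :
    ((1 + C (q ^ i) * X) * (1 - C (q ^ i) * X) : PowerSeries ℝ) =
      1 - (q ^ (2 * i)) • (X ^ 2 : PowerSeries ℝ) := by
  rw [smul_eq_C_mul, mul_comm 2 i, pow_mul, map_pow C (q ^ i) 2]
  ring

private theorem gen_one (q : ℝ) (v : PowerSeries ℝ) (hv : constantCoeff v = 0) (m : ℕ) :
    constantCoeff (Qp q v m) = 1 := by
  unfold Qp
  rw [map_prod]
  refine prod_eq_one fun s _ => ?_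
  rw [smul_eq_C_mul, map_sub, map_mul, hv]
  simp

/-- the product over the nodes -/
private theorem gen_nodes (q : ℝ) (N n : ℕ) (hn : n = (N + 1) / 2) :
    ∏ i ∈ range (2 * n), (1 + C (xx q N i) * X : PowerSeries ℝ) =
      ∏ i ∈ range N, (1 + C (q ^ i) * X) := by
  have hsub : range N ⊆ range (2 * n) := by
    intro i hi
    rw [mem_range] at hi ⊢
    omega
  rw [← prod_subset hsub]
  · refine prod_congr rfl fun i hi => ?_
    rw [mem_range] at hi
    rw [xx, if_pos hi]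
  · intro i _ hi
    rw [mem_range] at hi
    rw [xx, if_neg hi]
    simp

/-- the normalised Pfaffian of the product kernel -/
private theorem gen_M (q : ℝ) (hq0 : 0 < q) (hq1 : q < 1) (N n : ℕ) (hn : n = (N + 1) / 2)
    (hN : 0 < N) :
    Gr (xx q N) (fun i j => (((xx q N) i ^ 2 - (xx q N) j ^ 2)⁻¹) •
      (((xx q N i • Wc q (xx q N i ^ 2)) - (xx q N j • Wc q (xx q N j ^ 2))) *
        ((xx q N i • Wc q (q * xx q N i ^ 2)) - (xx q N j • Wc q (q * xx q N j ^ 2)))))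
      n (range (2 * n)) *
      ∏ r ∈ range n, (Qp q (q • (X ^ 2 : PowerSeries ℝ)) (N - 1 - r) *
        Qp q (X ^ 2 : PowerSeries ℝ) (N - r)) =
      ∏ j ∈ range n, (Qp q (X ^ 2 : PowerSeries ℝ) j * Qp q (q • (X ^ 2 : PowerSeries ℝ)) j) := by
  have hgd : Gd (xx q N) (range (2 * n)) := Gd_xx q hq0 hq1 N n hn
  have hcard : (range (2 * n)).card = 2 * n := card_range _
  have h2 := Gr_M (xx q N) n (range (2 * n)) hgd hcard
    (fun k => xx q N k • Wc q (xx q N k ^ 2)) (fun k => xx q N k • Wc q (q * xx q N k ^ 2))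
  have h3 := Gr_M (xx q N) n (range (2 * n)) hgd hcard (xx q N) (xx q N)
  have h4 := Gr_Sk (R := ℝ) (xx q N) n (range (2 * n)) hgd hcard
  have h5 : E2 (xx q N) (range (2 * n)) *
      (Hk (xx q N) n (range (2 * n)) (xx q N) * Hk (xx q N) n (range (2 * n)) (xx q N)) = 1 := by
    rw [← smul_eq_mul, ← h3, ← h4]
    refine Gr_congr (xx q N) _ _ n _ fun i hi j hj hij => ?_
    obtain ⟨ha, hb⟩ := hgd i hi j hj hij
    have hc : xx q N i ^ 2 - xx q N j ^ 2 = (xx q N i - xx q N j) * (xx q N i + xx q N j) := by ring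
    show (xx q N i ^ 2 - xx q N j ^ 2)⁻¹ * ((xx q N i - xx q N j) * (xx q N i - xx q N j)) =
      (xx q N i - xx q N j) / (xx q N i + xx q N j)
    rw [hc]
    field_simp
  have hxk : ∀ k, k < N → xx q N k = q ^ k := fun k hk => by rw [xx, if_pos hk]
  have hx0 : ∀ k, N ≤ k → xx q N k = 0 := fun k hk => by rw [xx, if_neg (not_lt.2 hk)]
  have hf := Hk_window q hq0 hq1 N n hn (X ^ 2 : PowerSeries ℝ)
    (fun k => xx q N k • Wc q (xx q N k ^ 2))
    (by
      intro k hk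
      show (1 - (q ^ (2 * k + 1)) • (X ^ 2 : PowerSeries ℝ)) *
        (xx q N (k + 1) • Wc q (xx q N (k + 1) ^ 2)) = q • ((1 - (q ^ (2 * k)) • (X ^ 2 : PowerSeries ℝ)) *
        (xx q N k • Wc q (xx q N k ^ 2)))
      rw [hxk (k + 1) hk, hxk k (by omega)]
      have h := gen_rec q hq0 hq1 (q ^ (2 * k)) (q ^ k)
      have e1 : q * q ^ (2 * k) = q ^ (2 * k + 1) := by ring
      have e2 : q * q ^ k = q ^ (k + 1) := by ring
      have e3 : q ^ 2 * q ^ (2 * k) = (q ^ (k + 1)) ^ 2 := by ring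
      have e4 : q ^ (2 * k) = (q ^ k) ^ 2 := by ring
      rw [e1, e2, e3] at h
      rw [← e4]
      exact h)
    (by
      intro k hk
      show xx q N k • Wc q (xx q N k ^ 2) = 0
      rw [hx0 k hk, zero_smul])
  have hg := Hk_window q hq0 hq1 N n hn (q • (X ^ 2 : PowerSeries ℝ))
    (fun k => xx q N k • Wc q (q * xx q N k ^ 2))
    (by
      intro k hk
      show (1 - (q ^ (2 * k + 1)) • (q • (X ^ 2 : PowerSeries ℝ))) *
        (xx q N (k + 1) • Wc q (q * xx q N (k + 1) ^ 2)) =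
        q • ((1 - (q ^ (2 * k)) • (q • (X ^ 2 : PowerSeries ℝ))) *
        (xx q N k • Wc q (q * xx q N k ^ 2)))
      rw [hxk (k + 1) hk, hxk k (by omega), smul_smul, smul_smul]
      have h := gen_rec q hq0 hq1 (q ^ (2 * k) * q) (q ^ k)
      have e1 : q * (q ^ (2 * k) * q) = q ^ (2 * k + 1) * q := by ring
      have e2 : q * q ^ k = q ^ (k + 1) := by ring
      have e3 : q ^ 2 * (q ^ (2 * k) * q) = q * (q ^ (k + 1)) ^ 2 := by ring
      have e4 : q ^ (2 * k) * q = q * (q ^ k) ^ 2 := by ring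
      rw [e1, e2, e3] at h
      rw [← e4]
      exact h)
    (by
      intro k hk
      show xx q N k • Wc q (q * xx q N k ^ 2) = 0
      rw [hx0 k hk, zero_smul])
  have hw := Wc_mul q hq0 hq1 1
  have hf0 : xx q N 0 • Wc q (xx q N 0 ^ 2) = Wc q 1 := by
    rw [hxk 0 hN, pow_zero, one_pow, one_smul]
  have hg0 : xx q N 0 • Wc q (q * xx q N 0 ^ 2) = Wc q (q * 1) := by
    rw [hxk 0 hN, pow_zero, one_pow, one_smul]
  rw [map_one, one_mul] at hw
  simp only [hf0] at hf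
  simp only [hg0] at hg
  rw [h2, smul_eq_C_mul]
  have hA : ∏ r ∈ range n, (Qp q (q • (X ^ 2 : PowerSeries ℝ)) (N - 1 - r) *
        Qp q (X ^ 2 : PowerSeries ℝ) (N - r)) =
      (∏ r ∈ range n, Qp q (q • (X ^ 2 : PowerSeries ℝ)) (N - 1 - r)) *
        ((1 - (X ^ 2 : PowerSeries ℝ)) ^ n *
          ∏ r ∈ range n, Qp q (q • (q • (X ^ 2 : PowerSeries ℝ))) (N - 1 - r)) := by
    rw [prod_mul_distrib]
    congr 1
    have hcst : (1 - (X ^ 2 : PowerSeries ℝ)) ^ n = ∏ _r ∈ range n, (1 - (X ^ 2 : PowerSeries ℝ)) := by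
      rw [prod_const, card_range]
    rw [hcst, ← prod_mul_distrib]
    refine prod_congr rfl fun r hr => ?_
    rw [mem_range] at hr
    rw [gen_Qp]
    congr 1
    omega
  rw [hA]
  have hE : C (E2 (xx q N) (range (2 * n))) *
      (algebraMap ℝ (PowerSeries ℝ) (Hk (xx q N) n (range (2 * n)) (xx q N)) *
        algebraMap ℝ (PowerSeries ℝ) (Hk (xx q N) n (range (2 * n)) (xx q N))) = 1 := by
    rw [← map_mul]
    have : algebraMap ℝ (PowerSeries ℝ) (Hk (xx q N) n (range (2 * n)) (xx q N) *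
        Hk (xx q N) n (range (2 * n)) (xx q N)) = C (Hk (xx q N) n (range (2 * n)) (xx q N) *
        Hk (xx q N) n (range (2 * n)) (xx q N)) := rfl
    rw [this, ← map_mul, h5, map_one]
  have hwn : (1 - (X ^ 2 : PowerSeries ℝ)) ^ n * (Wc q 1 ^ n * Wc q (q * 1) ^ n) = 1 := by
    rw [← mul_pow, ← mul_pow, hw, one_pow]
  rw [prod_mul_distrib]
  generalize (∏ r ∈ range n, Qp q (q • (X ^ 2 : PowerSeries ℝ)) (N - 1 - r)) = p1 at *
  generalize (∏ r ∈ range n, Qp q (q • (q • (X ^ 2 : PowerSeries ℝ))) (N - 1 - r)) = p2 at *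
  generalize (∏ j ∈ range n, Qp q (X ^ 2 : PowerSeries ℝ) j) = p3 at *
  generalize (∏ j ∈ range n, Qp q (q • (X ^ 2 : PowerSeries ℝ)) j) = p4 at *
  generalize (Hk (xx q N) n (range (2 * n)) fun k => xx q N k • Wc q (xx q N k ^ 2)) = Hf at *
  generalize (Hk (xx q N) n (range (2 * n)) fun k => xx q N k • Wc q (q * xx q N k ^ 2)) = Hg at *
  generalize (algebraMap ℝ (PowerSeries ℝ) (Hk (xx q N) n (range (2 * n)) (xx q N))) = hh at *
  generalize C (E2 (xx q N) (range (2 * n))) = ee at *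
  generalize (1 - (X ^ 2 : PowerSeries ℝ)) ^ n = vv at *
  calc ee * (Hf * Hg) * (p1 * (vv * p2)) = ee * vv * (Hf * p1) * (Hg * p2) := by ring
    _ = (ee * (hh * hh)) * (vv * (Wc q 1 ^ n * Wc q (q * 1) ^ n)) * (p3 * p4) := by
        rw [hf, hg]; ring
    _ = p3 * p4 := by rw [hE, hwn]; ring

theorem gen (q : ℝ) (hq0 : 0 < q) (hq1 : q < 1) (N n : ℕ) (hn : n = (N + 1) / 2) :
    Gr (xx q N) (fun i j => algebraMap ℝ (PowerSeries ℝ) (Sk (xx q N) i j) +
        Bk (Akm q) (xx q N) i j) n (range (2 * n)) *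
      ((∏ i ∈ range N, (1 - C (q ^ i) * X)) *
        ∏ j ∈ range N, ∏ i ∈ range j, (1 - C (q ^ (i + j)) * X ^ 2)) = 1 := by
  rcases Nat.eq_zero_or_pos N with rfl | hN
  · obtain rfl : n = 0 := by omega
    simp [Gr]
  have hgd : Gd (xx q N) (range (2 * n)) := Gd_xx q hq0 hq1 N n hn
  have hcard : (range (2 * n)).card = 2 * n := card_range _
  have h1 := Gr_scale (xx q N)
    (fun i j => (((xx q N) i ^ 2 - (xx q N) j ^ 2)⁻¹) •
      (((xx q N i • Wc q (xx q N i ^ 2)) - (xx q N j • Wc q (xx q N j ^ 2))) *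
        ((xx q N i • Wc q (q * xx q N i ^ 2)) - (xx q N j • Wc q (q * xx q N j ^ 2)))))
    (fun i j => algebraMap ℝ (PowerSeries ℝ) (Sk (xx q N) i j) + Bk (Akm q) (xx q N) i j)
    (fun i => 1 + C (xx q N i) * X) n (range (2 * n)) hcard
    fun i hi j hj hij => kernel q hq0 hq1 (xx q N) i j (sq_sub_ne _ _ hgd hi hj hij)
  rw [h1, gen_nodes q N n hn]
  have h2 := gen_M q hq0 hq1 N n hn hN
  have hc1 : ∀ m, constantCoeff (Qp q (X ^ 2 : PowerSeries ℝ) m) = 1 := fun m =>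
    gen_one q _ (by simp) m
  have hc2 : ∀ m, constantCoeff (Qp q (q • (X ^ 2 : PowerSeries ℝ)) m) = 1 := fun m =>
    gen_one q _ (by rw [smul_eq_C_mul, map_mul]; simp) m
  have hne : ∀ a : PowerSeries ℝ, constantCoeff a = 1 → a ≠ 0 := by
    rintro a ha rfl
    simp at ha
  have h3 := prod_id (R := PowerSeries ℝ) q (X ^ 2) (fun m => hne _ (by
    rw [smul_eq_C_mul, map_sub, map_mul]; simp)) N n hn
  rw [← h3] at h2
  have h4 : ∏ j ∈ range n, (Qp q (X ^ 2 : PowerSeries ℝ) j *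
      Qp q (q • (X ^ 2 : PowerSeries ℝ)) j) ≠ 0 :=
    hne _ (by
      rw [map_prod]
      refine prod_eq_one fun j _ => ?_
      rw [map_mul, hc1, hc2, mul_one])
  have h5 : (∏ i ∈ range N, (1 + C (q ^ i) * X : PowerSeries ℝ)) *
      (∏ i ∈ range N, (1 - C (q ^ i) * X : PowerSeries ℝ)) = Qp q (X ^ 2 : PowerSeries ℝ) N := by
    rw [← prod_mul_distrib, Qp]
    exact prod_congr rfl fun i _ => gen_fac q i
  have h6 : ∏ j ∈ range N, ∏ i ∈ range j, (1 - C (q ^ (i + j)) * X ^ 2 : PowerSeries ℝ) =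
      ∏ j ∈ range N, ∏ i ∈ range j, (1 - (q ^ (i + j)) • (X ^ 2 : PowerSeries ℝ)) := by
    refine prod_congr rfl fun j _ => prod_congr rfl fun i _ => ?_
    rw [smul_eq_C_mul]
  rw [h6]
  refine mul_right_cancel₀ h4 ?_
  rw [one_mul]
  refine Eq.trans ?_ h2
  rw [← h5]
  ring

end Pool.Agent.H99.PA
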