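import Pool.Agent.H99.PA.Defs

/-!
# Module Lm (board pa99_mod, about 80 lines): the weights `λ`

`lam x s k = ∏_{l∈s-k} 1/(X_k - X_l)`, `X_k = x_k²`; for `Gd x s` the numbers `X_k` (`k ∈ s`) are pairwise
distinct (`X_k - X_l = (x_k - x_l)(x_k + x_l)`).
PROOF.
(lam_erase) for `k ≠ i`, `k, i ∈ s`: `lam x (s.erase i) k = lam x s k * (X_k - X_i)` (take the factor `l = i`
out of `s.erase k`, `erase_right_comm`, `X_k - X_i ≠ 0`).
(sum_lam_pow) `∑_{j∈s} lam x s j X_j^a = 0` for `a + 2 ≤ |s|`: the divided difference of a polynomial of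
degree `≤ |s| - 2`.  Proof by induction on `s` or on `|s|`: for two different elements `i, j` of `s`
`(X_i - X_j) lam x s k = lam x (s.erase j) k - lam x (s.erase i) k` for `k ∈ s` different from `i` and `j`
(and the same for `k = i`, `k = j` with the missing term read as 0), so
`(X_i - X_j) ∑_{k∈s} lam x s k X_k^a = ∑_{k∈s-j} lam x (s-j) k X_k^a - ∑_{k∈s-i} lam x (s-i) k X_k^a`.
For `a + 2 ≤ |s| - 1` both sums are 0 by induction; for `a + 1 = |s| - 1` both are equal to 1: so prove together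
`∑_{k∈s} lam x s k X_k^a = if a + 1 = |s| then 1 else 0` for `a < |s|`, i.e. `a + 1 ≤ |s|` (base `|s| = 1`,
`a = 0`).  For `a + 1 = |s|` (value 1) use instead `X_k^a = X_k^{a-1} (X_k - X_i) + X_i X_k^{a-1}`:
`∑_{k∈s} lam x s k X_k^{a-1} (X_k - X_i) = ∑_{k∈s-i} lam x (s-i) k X_k^{a-1}` (lam_erase) `= 1` by induction and
`∑_{k∈s} lam x s k X_k^{a-1} = 0` (the case just proved).
ALTERNATIVE: Mathlib's Lagrange interpolation (`Lagrange.interpolate`, `Lagrange.sum_basis`, leading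
coefficients), or the same identity with `X_k^a = X_k^{a-1}(X_k - X_i) + X_i X_k^{a-1}` only.
-/

set_option autoImplicit false

open Finset Pool.H53.RQ

namespace Pool.Agent.H99.PA

theorem sq_sub_ne (x : ℕ → ℝ) (s : Finset ℕ) (hs : Gd x s) {i j : ℕ} (hi : i ∈ s) (hj : j ∈ s)
    (hij : i ≠ j) : x i ^ 2 - x j ^ 2 ≠ 0 := by
  have h := hs i hi j hj hij
  have : x i ^ 2 - x j ^ 2 = (x i - x j) * (x i + x j) := by ring
  rw [this]
  exact mul_ne_zero h.1 h.2

theorem lam_erase (x : ℕ → ℝ) (s : Finset ℕ) (hs : Gd x s) {i k : ℕ} (hi : i ∈ s) (hk : k ∈ s)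
    (hik : k ≠ i) : lam x (s.erase i) k = lam x s k * (x k ^ 2 - x i ^ 2) := by
  have h0 : x k ^ 2 - x i ^ 2 ≠ 0 := sq_sub_ne x s hs hk hi hik
  have hi' : i ∈ s.erase k := Finset.mem_erase.2 ⟨hik.symm, hi⟩
  unfold lam
  rw [Finset.erase_right_comm, ← Finset.mul_prod_erase (s.erase k) _ hi']
  rw [mul_comm, ← mul_assoc, mul_inv_cancel₀ h0, one_mul]

private theorem Lm_gd {x : ℕ → ℝ} {s : Finset ℕ} (hs : Gd x s) (i : ℕ) : Gd x (s.erase i) :=
  fun a ha b hb hab => hs a (Finset.mem_of_mem_erase ha) b (Finset.mem_of_mem_erase hb) hab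

private theorem Lm_mul (x : ℕ → ℝ) (s : Finset ℕ) (hs : Gd x s) {i : ℕ} (hi : i ∈ s) (a : ℕ) :
    ∑ k ∈ s, lam x s k * (x k ^ 2 - x i ^ 2) * (x k ^ 2) ^ a =
      ∑ k ∈ s.erase i, lam x (s.erase i) k * (x k ^ 2) ^ a := by
  rw [← Finset.add_sum_erase s _ hi, sub_self, mul_zero, zero_mul, zero_add]
  refine Finset.sum_congr rfl fun k hk => ?_
  rw [lam_erase x s hs hi (Finset.mem_of_mem_erase hk) (Finset.ne_of_mem_erase hk)]

private theorem Lm_zero (x : ℕ → ℝ) (s : Finset ℕ) (hs : Gd x s) (a : ℕ) (ha : 2 ≤ s.card)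
    (h : ∀ i ∈ s, ∀ j ∈ s, ∑ k ∈ s.erase i, lam x (s.erase i) k * (x k ^ 2) ^ a =
      ∑ k ∈ s.erase j, lam x (s.erase j) k * (x k ^ 2) ^ a) :
    ∑ k ∈ s, lam x s k * (x k ^ 2) ^ a = 0 := by
  obtain ⟨i, hi, j, hj, hij⟩ := Finset.one_lt_card.1 (show 1 < s.card by omega)
  have h0 : x i ^ 2 - x j ^ 2 ≠ 0 := sq_sub_ne x s hs hi hj hij
  have h1 : (x i ^ 2 - x j ^ 2) * ∑ k ∈ s, lam x s k * (x k ^ 2) ^ a = 0 := by
    have e : (x i ^ 2 - x j ^ 2) * ∑ k ∈ s, lam x s k * (x k ^ 2) ^ a =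
        ∑ k ∈ s, lam x s k * (x k ^ 2 - x j ^ 2) * (x k ^ 2) ^ a -
          ∑ k ∈ s, lam x s k * (x k ^ 2 - x i ^ 2) * (x k ^ 2) ^ a := by
      rw [Finset.mul_sum, ← Finset.sum_sub_distrib]
      refine Finset.sum_congr rfl fun k _ => ?_
      ring
    rw [e, Lm_mul x s hs hi, Lm_mul x s hs hj, h j hj i hi, sub_self]
  exact (mul_eq_zero.1 h1).resolve_left h0

private theorem Lm_main (x : ℕ → ℝ) (n : ℕ) : ∀ (s : Finset ℕ), Gd x s → s.card = n →
    ∀ a : ℕ, a + 1 ≤ n →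
      ∑ k ∈ s, lam x s k * (x k ^ 2) ^ a = if a + 1 = n then 1 else 0 := by
  induction n with
  | zero => intro s _ _ a ha; omega
  | succ n ih =>
    intro s hs hc a ha
    have hcard : ∀ i ∈ s, (s.erase i).card = n := fun i hi => by
      rw [Finset.card_erase_of_mem hi, hc, Nat.add_sub_cancel]
    have hz : ∀ b : ℕ, b + 2 ≤ n + 1 → ∑ k ∈ s, lam x s k * (x k ^ 2) ^ b = 0 := by
      intro b hb
      refine Lm_zero x s hs b (by omega) fun i hi j hj => ?_
      rw [ih (s.erase i) (Lm_gd hs i) (hcard i hi) b (by omega),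
        ih (s.erase j) (Lm_gd hs j) (hcard j hj) b (by omega)]
    by_cases h1 : a + 1 = n + 1
    · rw [if_pos h1]
      have han : a = n := by omega
      subst han
      cases a with
      | zero =>
        obtain ⟨k, hk⟩ := Finset.card_eq_one.1 (by simpa using hc)
        subst hk
        simp [lam]
      | succ a =>
        obtain ⟨i, hi⟩ := Finset.card_pos.1 (show 0 < s.card by omega)
        have e : ∑ k ∈ s, lam x s k * (x k ^ 2) ^ (a + 1) =
            ∑ k ∈ s, lam x s k * (x k ^ 2 - x i ^ 2) * (x k ^ 2) ^ a +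
              x i ^ 2 * ∑ k ∈ s, lam x s k * (x k ^ 2) ^ a := by
          rw [Finset.mul_sum, ← Finset.sum_add_distrib]
          refine Finset.sum_congr rfl fun k _ => ?_
          ring
        rw [e, Lm_mul x s hs hi, hz a (by omega), mul_zero, add_zero,
          ih (s.erase i) (Lm_gd hs i) (hcard i hi) a (by omega), if_pos rfl]
    · rw [if_neg h1]
      exact hz a (by omega)

theorem sum_lam_pow (x : ℕ → ℝ) (s : Finset ℕ) (hs : Gd x s) (a : ℕ) (ha : a + 2 ≤ s.card) :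
    ∑ j ∈ s, lam x s j * (x j ^ 2) ^ a = 0 := by
  rw [Lm_main x s.card s hs rfl a (by omega), if_neg (by omega)]

end Pool.Agent.H99.PA
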