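import Pool.Agent.H99.PA.Adj
import Pool.Agent.H99.PA.Lm

/-!
# Module HkE (board pa99_mod, about 90 lines): `H_{s-i-j}(f)` is the reproducing kernel at `(X_i, X_j)`

`Kf x n s f y z = ∑_{a,b<n} (y^a z^b) • adj(G)_{ab}`, `G = Gm x n s f`.
PROOF.
(Kf_symm) `G` is symmetric, so its adjugate is symmetric (`Matrix.adjugate_transpose`); exchange `a` and `b`.
(Hk_erase) for `i ≠ j` in `s`, `G = Gm x (n+1) s f`: by lam_erase twice
`lam x (s-i-j) k = lam x s k (X_k - X_i)(X_k - X_j)` for `k ∈ s-i-j`, and for `k = i`, `k = j` the right side is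
`0`, so `Gm x n (s-i-j) f a b = ∑_{k∈s} (lam x s k (X_k - X_i)(X_k - X_j) X_k^{a+b}) • f k
= G a.succ b.succ - X_i G a.castSucc b.succ - X_j G a.succ b.castSucc + X_i X_j G a.castSucc b.castSucc`
(with `X_i`, `X_j` as elements of `R` through `algebraMap`).  So det_shift (module Adj) with
`y = algebraMap X_i`, `z = algebraMap X_j` gives `∑ z^a adj_{ab} y^b`, which is `Kf (X_i) (X_j)` up to the
exchange of `a` and `b` (symmetry).
(Kf_repr) for `a < n`: `∑_{i∈s} (lam_i X_i^a) • (f i * Kf (X_i) z) = z^a • Hk`: it is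
`∑_{b,c} z^c • (G_{ab} adj_{bc})` with `G_{ab} = ∑_i (lam_i X_i^{a+b}) • f i`, and `G * adj = det • 1`
(`Matrix.mul_adjugate`).
(Kf_trace) `∑_{j∈s} lam_j • (f j * Kf (X_j) (X_j)) = ∑_{a,b} G_{ab} adj_{ab} = ∑_{a,b} G_{ba} adj_{ab} =
tr (det • 1) = n • Hk`.
-/

set_option autoImplicit false

open Finset Pool.H53.RQ

namespace Pool.Agent.H99.PA

variable {R : Type} [CommRing R] [Algebra ℝ R]

/-- the (unnormalised) reproducing kernel -/
noncomputable def Kf (x : ℕ → ℝ) (n : ℕ) (s : Finset ℕ) (f : ℕ → R) (y z : ℝ) : R :=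
  ∑ a : Fin n, ∑ b : Fin n, (y ^ (a : ℕ) * z ^ (b : ℕ)) • (Gm x n s f).adjugate a b

private theorem HkE_G (x : ℕ → ℝ) (n : ℕ) (s : Finset ℕ) (f : ℕ → R) (a b : Fin n) :
    Gm x n s f a b = ∑ k ∈ s, (lam x s k * (x k ^ 2) ^ ((a : ℕ) + (b : ℕ))) • f k := rfl

private theorem HkE_symm (x : ℕ → ℝ) (n : ℕ) (s : Finset ℕ) (f : ℕ → R) (a b : Fin n) :
    Gm x n s f a b = Gm x n s f b a := by
  rw [HkE_G, HkE_G, add_comm (a : ℕ) (b : ℕ)]

private theorem HkE_adj (x : ℕ → ℝ) (n : ℕ) (s : Finset ℕ) (f : ℕ → R) (a b : Fin n) :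
    (Gm x n s f).adjugate a b = (Gm x n s f).adjugate b a := by
  have h1 : (Gm x n s f).transpose = Gm x n s f := by
    ext a b
    rw [Matrix.transpose_apply]
    exact HkE_symm x n s f b a
  have h2 := Matrix.adjugate_transpose (Gm x n s f)
  rw [h1] at h2
  have h3 := congrFun (congrFun h2 b) a
  rw [Matrix.transpose_apply] at h3
  exact h3

theorem Kf_symm (x : ℕ → ℝ) (n : ℕ) (s : Finset ℕ) (f : ℕ → R) (y z : ℝ) :
    Kf x n s f y z = Kf x n s f z y := by
  unfold Kf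
  rw [Finset.sum_comm]
  refine Finset.sum_congr rfl fun b _ => Finset.sum_congr rfl fun a _ => ?_
  rw [HkE_adj x n s f a b, mul_comm (y ^ (a : ℕ))]

theorem Hk_erase (x : ℕ → ℝ) (n : ℕ) (s : Finset ℕ) (hs : Gd x s) (f : ℕ → R) {i j : ℕ}
    (hi : i ∈ s) (hj : j ∈ s) (hij : i ≠ j) :
    Hk x n ((s.erase i).erase j) f = Kf x (n + 1) s f (x i ^ 2) (x j ^ 2) := by
  have hj' : j ∈ s.erase i := mem_erase.2 ⟨hij.symm, hj⟩
  have hs' : Gd x (s.erase i) := fun a ha b hb => hs a (mem_of_mem_erase ha) b (mem_of_mem_erase hb)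
  have hG : Gm x n ((s.erase i).erase j) f = Matrix.of fun a b : Fin n =>
      Gm x (n + 1) s f a.succ b.succ - algebraMap ℝ R (x i ^ 2) * Gm x (n + 1) s f a.castSucc b.succ
        - algebraMap ℝ R (x j ^ 2) * Gm x (n + 1) s f a.succ b.castSucc
        + algebraMap ℝ R (x i ^ 2) * algebraMap ℝ R (x j ^ 2) *
          Gm x (n + 1) s f a.castSucc b.castSucc := by
    ext a b
    rw [Matrix.of_apply, HkE_G, HkE_G, HkE_G, HkE_G, HkE_G, ← map_mul, ← Algebra.smul_def,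
      ← Algebra.smul_def, ← Algebra.smul_def, Finset.smul_sum, Finset.smul_sum, Finset.smul_sum,
      ← Finset.sum_sub_distrib, ← Finset.sum_sub_distrib, ← Finset.sum_add_distrib]
    have h1 : ∀ k ∈ (s.erase i).erase j,
        (lam x ((s.erase i).erase j) k * (x k ^ 2) ^ ((a : ℕ) + (b : ℕ))) • f k =
        (lam x s k * ((x k ^ 2 - x i ^ 2) * (x k ^ 2 - x j ^ 2)) *
          (x k ^ 2) ^ ((a : ℕ) + (b : ℕ))) • f k := by
      intro k hk
      have hk1 := mem_erase.1 hk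
      have hk2 := mem_erase.1 hk1.2
      rw [lam_erase x (s.erase i) hs' hj' hk1.2 hk1.1, lam_erase x s hs hi hk2.2 hk2.1, mul_assoc
        (lam x s k)]
    rw [Finset.sum_congr rfl h1, Finset.sum_erase, Finset.sum_erase]
    · refine Finset.sum_congr rfl fun k _ => ?_
      rw [smul_smul, smul_smul, smul_smul, ← sub_smul, ← sub_smul, ← add_smul]
      congr 1
      simp only [Fin.val_succ, Fin.val_castSucc]
      ring
    · simp
    · simp
  unfold Hk
  rw [hG, det_shift, Kf_symm]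
  unfold Kf
  refine Finset.sum_congr rfl fun a _ => Finset.sum_congr rfl fun b _ => ?_
  rw [← map_pow, ← map_pow, Algebra.smul_def, map_mul]
  ring

theorem Kf_repr (x : ℕ → ℝ) (n : ℕ) (s : Finset ℕ) (f : ℕ → R) (a : Fin n) (z : ℝ) :
    ∑ i ∈ s, (lam x s i * (x i ^ 2) ^ (a : ℕ)) • (f i * Kf x n s f (x i ^ 2) z) =
      z ^ (a : ℕ) • Hk x n s f := by
  have h1 : ∑ i ∈ s, (lam x s i * (x i ^ 2) ^ (a : ℕ)) • (f i * Kf x n s f (x i ^ 2) z) =
      ∑ i ∈ s, ∑ b : Fin n, ∑ c : Fin n, z ^ (c : ℕ) •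
        (((lam x s i * (x i ^ 2) ^ ((a : ℕ) + (b : ℕ))) • f i) * (Gm x n s f).adjugate b c) := by
    refine Finset.sum_congr rfl fun i _ => ?_
    unfold Kf
    rw [Finset.mul_sum, Finset.smul_sum]
    refine Finset.sum_congr rfl fun b _ => ?_
    rw [Finset.mul_sum, Finset.smul_sum]
    refine Finset.sum_congr rfl fun c _ => ?_
    rw [mul_smul_comm, smul_mul_assoc, smul_smul, smul_smul]
    congr 1
    ring
  have h2 : ∑ i ∈ s, ∑ b : Fin n, ∑ c : Fin n, z ^ (c : ℕ) •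
        (((lam x s i * (x i ^ 2) ^ ((a : ℕ) + (b : ℕ))) • f i) * (Gm x n s f).adjugate b c) =
      ∑ b : Fin n, ∑ c : Fin n, z ^ (c : ℕ) • (Gm x n s f a b * (Gm x n s f).adjugate b c) := by
    rw [Finset.sum_comm]
    refine Finset.sum_congr rfl fun b _ => ?_
    rw [Finset.sum_comm]
    refine Finset.sum_congr rfl fun c _ => ?_
    rw [← Finset.smul_sum, ← Finset.sum_mul, HkE_G]
  have h3 : ∀ c : Fin n, ∑ b : Fin n, Gm x n s f a b * (Gm x n s f).adjugate b c =
      if a = c then (Gm x n s f).det else 0 := by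
    intro c
    have h4 := congrFun (congrFun (Matrix.mul_adjugate (Gm x n s f)) a) c
    rw [Matrix.mul_apply, Matrix.smul_apply, Matrix.one_apply, smul_eq_mul] at h4
    rw [h4]
    split_ifs <;> simp
  rw [h1, h2, Finset.sum_comm]
  have h5 : ∀ c ∈ (Finset.univ : Finset (Fin n)),
      ∑ b : Fin n, z ^ (c : ℕ) • (Gm x n s f a b * (Gm x n s f).adjugate b c) =
      if a = c then z ^ (a : ℕ) • (Gm x n s f).det else 0 := by
    intro c _
    rw [← Finset.smul_sum, h3 c]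
    split_ifs with h
    · rw [h]
    · rw [smul_zero]
  rw [Finset.sum_congr rfl h5, Finset.sum_ite_eq, if_pos (Finset.mem_univ a)]
  rfl

theorem Kf_trace (x : ℕ → ℝ) (n : ℕ) (s : Finset ℕ) (f : ℕ → R) :
    ∑ j ∈ s, lam x s j • (f j * Kf x n s f (x j ^ 2) (x j ^ 2)) = (n : ℝ) • Hk x n s f := by
  have h1 : ∑ j ∈ s, lam x s j • (f j * Kf x n s f (x j ^ 2) (x j ^ 2)) =
      ∑ j ∈ s, ∑ a : Fin n, ∑ b : Fin n,
        (((lam x s j * (x j ^ 2) ^ ((b : ℕ) + (a : ℕ))) • f j) * (Gm x n s f).adjugate a b) := by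
    refine Finset.sum_congr rfl fun j _ => ?_
    unfold Kf
    rw [Finset.mul_sum, Finset.smul_sum]
    refine Finset.sum_congr rfl fun a _ => ?_
    rw [Finset.mul_sum, Finset.smul_sum]
    refine Finset.sum_congr rfl fun b _ => ?_
    rw [mul_smul_comm, smul_mul_assoc, smul_smul]
    congr 1
    rw [pow_add]
    ring
  have h2 : ∑ j ∈ s, ∑ a : Fin n, ∑ b : Fin n,
        (((lam x s j * (x j ^ 2) ^ ((b : ℕ) + (a : ℕ))) • f j) * (Gm x n s f).adjugate a b) =
      ∑ a : Fin n, ∑ b : Fin n, Gm x n s f b a * (Gm x n s f).adjugate a b := by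
    rw [Finset.sum_comm]
    refine Finset.sum_congr rfl fun a _ => ?_
    rw [Finset.sum_comm]
    refine Finset.sum_congr rfl fun b _ => ?_
    rw [← Finset.sum_mul, HkE_G]
  have h3 : ∀ b ∈ (Finset.univ : Finset (Fin n)),
      ∑ a : Fin n, Gm x n s f b a * (Gm x n s f).adjugate a b = (Gm x n s f).det := by
    intro b _
    have h4 := congrFun (congrFun (Matrix.mul_adjugate (Gm x n s f)) b) b
    rw [Matrix.mul_apply, Matrix.smul_apply, Matrix.one_apply, if_pos rfl, smul_eq_mul,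
      mul_one] at h4
    exact h4
  rw [h1, h2, Finset.sum_comm, Finset.sum_congr rfl h3, Finset.sum_const, Finset.card_univ,
    Fintype.card_fin, Nat.cast_smul_eq_nsmul]
  rfl

end Pool.Agent.H99.PA
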