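import Pool.Agent.H99.PA.Lm

/-!
# Module OkW (board pa99_mod, about 90 lines): the real weights in the recursion

CLAIM: for `i ≠ j` in `s`, `ρ_i(s) ρ_j(s-i) (X_i - X_j)⁻¹ E2(s-i-j) = - E2(s) λ_i λ_j`.
PROOF.  With `s' = s-i-j` (all products over `s'`, `Finset.mul_prod_erase`, `erase_right_comm`):
`E2 s = E2 s' (x_i+x_j)² ∏_{l∈s'} ((x_i+x_l)² (x_j+x_l)²)` (the double product over `k ∈ s`, `l ∈ s-k`: the pairs
inside `s'`, the pairs `(i,j)`, `(j,i)`, and `(i,l)`, `(l,i)`, `(j,l)`, `(l,j)`; `Finset.prod_mul_distrib`),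
`λ_i = (X_i-X_j)⁻¹ ∏_{l∈s'} (X_i-X_l)⁻¹`, `λ_j = (X_j-X_i)⁻¹ ∏_{l∈s'} (X_j-X_l)⁻¹`,
`ρ_i(s) = (x_i+x_j)/(x_i-x_j) ∏_{l∈s'} (x_i+x_l)/(x_i-x_l)`, `ρ_j(s-i) = ∏_{l∈s'} (x_j+x_l)/(x_j-x_l)`,
`X_i - X_l = (x_i-x_l)(x_i+x_l)`; compare factor by factor (all factors nonzero by `Gd`; sq_sub_ne).
-/

set_option autoImplicit false

open Finset Pool.H53.RQ

namespace Pool.Agent.H99.PA

theorem weight (x : ℕ → ℝ) (s : Finset ℕ) (hs : Gd x s) {i j : ℕ} (hi : i ∈ s) (hj : j ∈ s)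
    (hij : i ≠ j) :
    rho x s i * rho x (s.erase i) j * (x i ^ 2 - x j ^ 2)⁻¹ * E2 x ((s.erase i).erase j) =
      -(E2 x s * (lam x s i * lam x s j)) := by
  have hj' : j ∈ s.erase i := mem_erase.2 ⟨hij.symm, hj⟩
  have hi' : i ∈ s.erase j := mem_erase.2 ⟨hij, hi⟩
  have hc : (s.erase j).erase i = (s.erase i).erase j := erase_right_comm
  have hmem : ∀ l ∈ (s.erase i).erase j, l ∈ s ∧ l ≠ i ∧ l ≠ j := by
    intro l hl
    have h1 := mem_erase.1 hl
    have h2 := mem_erase.1 h1.2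
    exact ⟨h2.2, h2.1, h1.1⟩
  have hD := hs i hi j hj hij
  -- nonzero products
  have hPi : (∏ l ∈ (s.erase i).erase j, (x i + x l)) ≠ 0 :=
    prod_ne_zero_iff.2 fun l hl => (hs i hi l (hmem l hl).1 (hmem l hl).2.1.symm).2
  have hQi : (∏ l ∈ (s.erase i).erase j, (x i - x l)) ≠ 0 :=
    prod_ne_zero_iff.2 fun l hl => (hs i hi l (hmem l hl).1 (hmem l hl).2.1.symm).1
  have hPj : (∏ l ∈ (s.erase i).erase j, (x j + x l)) ≠ 0 :=
    prod_ne_zero_iff.2 fun l hl => (hs j hj l (hmem l hl).1 (hmem l hl).2.2.symm).2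
  have hQj : (∏ l ∈ (s.erase i).erase j, (x j - x l)) ≠ 0 :=
    prod_ne_zero_iff.2 fun l hl => (hs j hj l (hmem l hl).1 (hmem l hl).2.2.symm).1
  -- the products
  have e1 : rho x s i = (x i + x j) / (x i - x j) *
      ((∏ l ∈ (s.erase i).erase j, (x i + x l)) / ∏ l ∈ (s.erase i).erase j, (x i - x l)) := by
    unfold rho
    rw [← mul_prod_erase (s.erase i) _ hj', prod_div_distrib]
  have e2 : rho x (s.erase i) j =
      (∏ l ∈ (s.erase i).erase j, (x j + x l)) / ∏ l ∈ (s.erase i).erase j, (x j - x l) := by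
    unfold rho
    rw [prod_div_distrib]
  have hsq : ∀ k : ℕ, ∏ l ∈ (s.erase i).erase j, (x k ^ 2 - x l ^ 2)⁻¹ =
      ((∏ l ∈ (s.erase i).erase j, (x k - x l)) * ∏ l ∈ (s.erase i).erase j, (x k + x l))⁻¹ := by
    intro k
    rw [← prod_mul_distrib, ← prod_inv_distrib]
    refine prod_congr rfl fun l _ => ?_
    congr 1
    ring
  have e3 : lam x s i = (x i ^ 2 - x j ^ 2)⁻¹ *
      ((∏ l ∈ (s.erase i).erase j, (x i - x l)) * ∏ l ∈ (s.erase i).erase j, (x i + x l))⁻¹ := by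
    unfold lam
    rw [← mul_prod_erase (s.erase i) _ hj', hsq i]
  have e4 : lam x s j = (x j ^ 2 - x i ^ 2)⁻¹ *
      ((∏ l ∈ (s.erase i).erase j, (x j - x l)) * ∏ l ∈ (s.erase i).erase j, (x j + x l))⁻¹ := by
    unfold lam
    rw [← mul_prod_erase (s.erase j) _ hi', hc, hsq j]
  have e5 : E2 x s = (x i + x j) ^ 2 * (∏ l ∈ (s.erase i).erase j, (x i + x l)) ^ 2 *
      (∏ l ∈ (s.erase i).erase j, (x j + x l)) ^ 2 * E2 x ((s.erase i).erase j) := by
    unfold E2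
    have f1 : ∏ k ∈ s, ∏ l ∈ s.erase k, (x k + x l) =
        (∏ l ∈ s.erase i, (x i + x l)) * ∏ k ∈ s.erase i, ∏ l ∈ s.erase k, (x k + x l) :=
      (mul_prod_erase s (fun k => ∏ l ∈ s.erase k, (x k + x l)) hi).symm
    have f2 : ∏ k ∈ s.erase i, ∏ l ∈ s.erase k, (x k + x l) =
        (∏ l ∈ s.erase j, (x j + x l)) *
          ∏ k ∈ (s.erase i).erase j, ∏ l ∈ s.erase k, (x k + x l) :=
      (mul_prod_erase (s.erase i) (fun k => ∏ l ∈ s.erase k, (x k + x l)) hj').symm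
    have f3 : ∏ l ∈ s.erase i, (x i + x l) =
        (x i + x j) * ∏ l ∈ (s.erase i).erase j, (x i + x l) :=
      (mul_prod_erase (s.erase i) (fun l => x i + x l) hj').symm
    have f4 : ∏ l ∈ s.erase j, (x j + x l) =
        (x j + x i) * ∏ l ∈ (s.erase i).erase j, (x j + x l) := by
      rw [← hc]
      exact (mul_prod_erase (s.erase j) (fun l => x j + x l) hi').symm
    rw [f1, f2, f3, f4]
    have h1 : ∏ k ∈ (s.erase i).erase j, ∏ l ∈ s.erase k, (x k + x l) =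
        (∏ l ∈ (s.erase i).erase j, (x i + x l)) * (∏ l ∈ (s.erase i).erase j, (x j + x l)) *
          ∏ k ∈ (s.erase i).erase j, ∏ l ∈ ((s.erase i).erase j).erase k, (x k + x l) := by
      rw [← prod_mul_distrib, ← prod_mul_distrib]
      refine prod_congr rfl fun k hk => ?_
      obtain ⟨h2, h3, h4⟩ := hmem k hk
      have h5 : i ∈ s.erase k := mem_erase.2 ⟨h3.symm, hi⟩
      have h6 : j ∈ (s.erase k).erase i := mem_erase.2 ⟨hij.symm, mem_erase.2 ⟨h4.symm, hj⟩⟩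
      rw [← mul_prod_erase (s.erase k) (fun l => x k + x l) h5,
        ← mul_prod_erase ((s.erase k).erase i) (fun l => x k + x l) h6]
      have h7 : ((s.erase k).erase i).erase j = ((s.erase i).erase j).erase k := by
        rw [erase_right_comm (a := k) (b := i), erase_right_comm (a := k) (b := j)]
      rw [h7]
      ring
    rw [h1]
    ring
  rw [e1, e2, e3, e4, e5]
  have h1 : x i ^ 2 - x j ^ 2 ≠ 0 := by
    have : x i ^ 2 - x j ^ 2 = (x i - x j) * (x i + x j) := by ring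
    rw [this]
    exact mul_ne_zero hD.1 hD.2
  have h2 : (x j ^ 2 - x i ^ 2)⁻¹ = -((x i - x j) * (x i + x j))⁻¹ := by
    rw [← inv_neg]
    congr 1
    ring
  have h3 : (x i ^ 2 - x j ^ 2)⁻¹ = ((x i - x j) * (x i + x j))⁻¹ := by
    congr 1
    ring
  rw [h2, h3]
  have hD1 := hD.1
  have hD2 := hD.2
  field_simp

end Pool.Agent.H99.PA
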