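import Pool.Agent.H99.PA.OkR
import Pool.Agent.H99.PA.OkW

/-!
# Module Ok (board pa99_mod, about 70 lines): the normalised Pfaffian of `(f_i-f_j)(g_i-g_j)/(X_i-X_j)`

PROOF of Gr_M: induction on `n`: insert the induction hypothesis for `s-i-j` (`2n` elements, `Gd`) in the
recursion, use `weight` (module OkW) and `ok_rec` (module OkR):
`Gr (n+1) s = 1/(2(n+1)) • ∑∑ (ρ_i(s) ρ_j(s-i)) • ((X_i-X_j)⁻¹ • (f_i-f_j)(g_i-g_j) * E2(s-i-j) • (Hk Hk))
= 1/(2(n+1)) • ∑∑ (-E2(s) λ_i λ_j) • ((f_i-f_j)(g_i-g_j) Hk(s-i-j) f Hk(s-i-j) g)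
= 1/(2(n+1)) • E2(s) • (2(n+1)) • (Hf Hg)`.  `n = 0`: `s = ∅`, all is 1 (`Matrix.det_isEmpty`).
-/

set_option autoImplicit false

open Finset Pool.H53.RQ

namespace Pool.Agent.H99.PA

variable {R : Type} [CommRing R] [Algebra ℝ R]

theorem Gr_M (x : ℕ → ℝ) (n : ℕ) (s : Finset ℕ) (hs : Gd x s) (hc : s.card = 2 * n) (f g : ℕ → R) :
    Gr x (fun i j => ((x i ^ 2 - x j ^ 2)⁻¹) • ((f i - f j) * (g i - g j))) n s =
      E2 x s • (Hk x n s f * Hk x n s g) := by
  induction n generalizing s with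
  | zero =>
    have h0 : s = ∅ := Finset.card_eq_zero.1 (by simpa using hc)
    subst h0
    simp [Gr, Hk, E2]
  | succ n ih =>
    have hstep : ∀ i ∈ s, ∀ j ∈ s.erase i,
        (rho x s i * rho x (s.erase i) j) •
          ((((x i ^ 2 - x j ^ 2)⁻¹) • ((f i - f j) * (g i - g j))) *
            Gr x (fun i j => ((x i ^ 2 - x j ^ 2)⁻¹) • ((f i - f j) * (g i - g j))) n
              ((s.erase i).erase j)) =
        (-(E2 x s)) • ((lam x s i * lam x s j) • ((f i - f j) * (g i - g j) *
          (Hk x n ((s.erase i).erase j) f * Hk x n ((s.erase i).erase j) g))) := by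
      intro i hi j hj
      have hj' := Finset.mem_erase.1 hj
      have hs' : Gd x ((s.erase i).erase j) := by
        intro a ha b hb hab
        exact hs a (Finset.mem_of_mem_erase (Finset.mem_of_mem_erase ha)) b
          (Finset.mem_of_mem_erase (Finset.mem_of_mem_erase hb)) hab
      have hc' : ((s.erase i).erase j).card = 2 * n := by
        rw [Finset.card_erase_of_mem hj, Finset.card_erase_of_mem hi, hc]
        omega
      rw [ih _ hs' hc']
      have hw := weight x s hs hi hj'.2 (Ne.symm hj'.1)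
      rw [smul_mul_assoc, mul_smul_comm, smul_smul, smul_smul, smul_smul]
      congr 1
      rw [← neg_mul] at hw
      linarith [hw]
    show (1 / (2 * ((n : ℝ) + 1))) • ∑ i ∈ s, ∑ j ∈ s.erase i,
      (rho x s i * rho x (s.erase i) j) •
        ((((x i ^ 2 - x j ^ 2)⁻¹) • ((f i - f j) * (g i - g j))) *
          Gr x (fun i j => ((x i ^ 2 - x j ^ 2)⁻¹) • ((f i - f j) * (g i - g j))) n
            ((s.erase i).erase j)) = _
    rw [Finset.sum_congr rfl fun i hi => Finset.sum_congr rfl fun j hj => hstep i hi j hj]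
    simp only [← Finset.smul_sum]
    rw [ok_rec x n s hs hc f g, smul_neg, neg_smul, neg_neg, smul_smul, smul_smul]
    congr 1
    have hn : (2 * ((n : ℝ) + 1)) ≠ 0 := by positivity
    field_simp

end Pool.Agent.H99.PA
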