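import Pool.Agent.H99.PA.HkE

/-!
# Module OkR (board pa99_mod, about 130 lines): the recursion of `H_s(f) H_s(g)`

`|s| = 2(n+1)`, `k_f = Kf x (n+1) s f`, `k_g = Kf x (n+1) s g`, `λ = lam x s`.
PROOF.  By Hk_erase the summand for `i ≠ j` is `(λ_i λ_j) • ((f i - f j)(g i - g j) k_f(X_i,X_j) k_g(X_i,X_j))`;
the term `i = j` of this expression is `0`, so the double sum may be taken over all `i, j ∈ s`.  Expand
`(f_i - f_j)(g_i - g_j) = f_i g_i + f_j g_j - f_i g_j - f_j g_i`.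
 * `∑_{i,j} λ_i λ_j f_i g_j k_f(X_i,X_j) k_g(X_i,X_j)`: for fixed `j` write
   `k_g(X_i,X_j) = ∑_{a,b} (X_i^a X_j^b) • adj_g(a,b)`; by Kf_repr (for `f`, `z = X_j`)
   `∑_i (λ_i X_i^a) • (f_i k_f(X_i,X_j)) = X_j^a • Hf`; so the sum over `i` is `Hf * k_g(X_j,X_j)` and the total
   is `Hf * ∑_j λ_j g_j k_g(X_j,X_j) = (n+1) • (Hf * Hg)` (Kf_trace).  The term with `f_j g_i` is the same
   after exchanging the names `i`, `j` (Kf_symm).
 * `∑_{i,j} λ_i λ_j f_i g_i k_f(X_i,X_j) k_g(X_i,X_j)`: for fixed `i` the product of the kernels is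
   `∑ (X_i^{a+c} X_j^{b+d}) • adj_f(a,b) adj_g(c,d)` with `b + d ≤ 2n`, and `∑_j λ_j X_j^{b+d} = 0`
   by sum_lam_pow (`b + d + 2 ≤ 2(n+1) = |s|`).  Same for `f_j g_j`.
 So `∑_{i}∑_{j≠i} = -2(n+1) • (Hf * Hg)`.
-/

set_option autoImplicit false

open Finset Pool.H53.RQ

namespace Pool.Agent.H99.PA

variable {R : Type} [CommRing R] [Algebra ℝ R]

private theorem kk_zero (x : ℕ → ℝ) (n : ℕ) (s : Finset ℕ) (hs : Gd x s)
    (hc : s.card = 2 * (n + 1)) (f g : ℕ → R) (y : ℝ) :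
    ∑ j ∈ s, lam x s j • (Kf x (n + 1) s f y (x j ^ 2) * Kf x (n + 1) s g y (x j ^ 2)) = 0 := by
  have h1 : ∀ j ∈ s, lam x s j • (Kf x (n + 1) s f y (x j ^ 2) * Kf x (n + 1) s g y (x j ^ 2)) =
      ∑ a : Fin (n + 1), ∑ c : Fin (n + 1), ∑ b : Fin (n + 1), ∑ d : Fin (n + 1),
        (lam x s j * (x j ^ 2) ^ ((b : ℕ) + (d : ℕ)) * (y ^ (a : ℕ) * y ^ (c : ℕ))) •
          ((Gm x (n + 1) s f).adjugate a b * (Gm x (n + 1) s g).adjugate c d) := by
    intro j _
    unfold Kf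
    rw [Finset.sum_mul_sum, Finset.smul_sum]
    refine Finset.sum_congr rfl fun a _ => ?_
    rw [Finset.smul_sum]
    refine Finset.sum_congr rfl fun c _ => ?_
    rw [Finset.sum_mul_sum, Finset.smul_sum]
    refine Finset.sum_congr rfl fun b _ => ?_
    rw [Finset.smul_sum]
    refine Finset.sum_congr rfl fun d _ => ?_
    rw [smul_mul_smul_comm, smul_smul]
    congr 1
    rw [pow_add]
    ring
  rw [Finset.sum_congr rfl h1, Finset.sum_comm]
  refine Finset.sum_eq_zero fun a _ => ?_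
  rw [Finset.sum_comm]
  refine Finset.sum_eq_zero fun c _ => ?_
  rw [Finset.sum_comm]
  refine Finset.sum_eq_zero fun b _ => ?_
  rw [Finset.sum_comm]
  refine Finset.sum_eq_zero fun d _ => ?_
  rw [← Finset.sum_smul, ← Finset.sum_mul, sum_lam_pow x s hs ((b : ℕ) + (d : ℕ)) (by omega),
    zero_mul, zero_smul]

private theorem kk_repr (x : ℕ → ℝ) (n : ℕ) (s : Finset ℕ) (f g : ℕ → R) (z : ℝ) :
    ∑ i ∈ s, lam x s i • (f i * (Kf x n s f (x i ^ 2) z * Kf x n s g (x i ^ 2) z)) =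
      Hk x n s f * Kf x n s g z z := by
  have h1 : ∀ i ∈ s, lam x s i • (f i * (Kf x n s f (x i ^ 2) z * Kf x n s g (x i ^ 2) z)) =
      ∑ a : Fin n, ∑ b : Fin n, (z ^ (b : ℕ)) •
        (((lam x s i * (x i ^ 2) ^ (a : ℕ)) • (f i * Kf x n s f (x i ^ 2) z)) *
          (Gm x n s g).adjugate a b) := by
    intro i _
    have e : Kf x n s g (x i ^ 2) z = ∑ a : Fin n, ∑ b : Fin n,
      ((x i ^ 2) ^ (a : ℕ) * z ^ (b : ℕ)) • (Gm x n s g).adjugate a b := rfl
    rw [e, ← mul_assoc, Finset.mul_sum, Finset.smul_sum]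
    refine Finset.sum_congr rfl fun a _ => ?_
    rw [Finset.mul_sum, Finset.smul_sum]
    refine Finset.sum_congr rfl fun b _ => ?_
    rw [mul_smul_comm, smul_smul, smul_mul_assoc, smul_smul]
    congr 1
    ring
  rw [Finset.sum_congr rfl h1, Finset.sum_comm]
  have e : Kf x n s g z z = ∑ a : Fin n, ∑ b : Fin n,
      (z ^ (a : ℕ) * z ^ (b : ℕ)) • (Gm x n s g).adjugate a b := rfl
  rw [e, Finset.mul_sum]
  refine Finset.sum_congr rfl fun a _ => ?_
  rw [Finset.sum_comm, Finset.mul_sum]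
  refine Finset.sum_congr rfl fun b _ => ?_
  rw [← Finset.smul_sum, ← Finset.sum_mul, Kf_repr, smul_mul_assoc, smul_smul, mul_smul_comm]
  congr 1
  ring

private theorem kk_C (x : ℕ → ℝ) (n : ℕ) (s : Finset ℕ) (f g : ℕ → R) :
    ∑ i ∈ s, ∑ j ∈ s, (lam x s i * lam x s j) • (f i * g j *
        (Kf x n s f (x i ^ 2) (x j ^ 2) * Kf x n s g (x i ^ 2) (x j ^ 2))) =
      (n : ℝ) • (Hk x n s f * Hk x n s g) := by
  rw [Finset.sum_comm]
  have h1 : ∀ j ∈ s, ∑ i ∈ s, (lam x s i * lam x s j) • (f i * g j *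
        (Kf x n s f (x i ^ 2) (x j ^ 2) * Kf x n s g (x i ^ 2) (x j ^ 2))) =
      Hk x n s f * (lam x s j • (g j * Kf x n s g (x j ^ 2) (x j ^ 2))) := by
    intro j _
    have h2 := kk_repr x n s f g (x j ^ 2)
    have h3 : Hk x n s f * (lam x s j • (g j * Kf x n s g (x j ^ 2) (x j ^ 2))) =
        lam x s j • (g j * (Hk x n s f * Kf x n s g (x j ^ 2) (x j ^ 2))) := by
      rw [mul_smul_comm]
      congr 1
      ring
    rw [h3, ← h2, Finset.mul_sum, Finset.smul_sum]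
    refine Finset.sum_congr rfl fun i _ => ?_
    rw [mul_smul_comm, smul_smul, mul_comm (lam x s j)]
    congr 1
    ring
  rw [Finset.sum_congr rfl h1, ← Finset.mul_sum, Kf_trace, mul_smul_comm]

theorem ok_rec (x : ℕ → ℝ) (n : ℕ) (s : Finset ℕ) (hs : Gd x s) (hc : s.card = 2 * (n + 1))
    (f g : ℕ → R) :
    ∑ i ∈ s, ∑ j ∈ s.erase i, (lam x s i * lam x s j) • ((f i - f j) * (g i - g j) *
        (Hk x n ((s.erase i).erase j) f * Hk x n ((s.erase i).erase j) g)) =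
      -((2 * ((n : ℝ) + 1)) • (Hk x (n + 1) s f * Hk x (n + 1) s g)) := by
  set L := lam x s with hL
  set kf := fun i j => Kf x (n + 1) s f (x i ^ 2) (x j ^ 2) with hkf
  set kg := fun i j => Kf x (n + 1) s g (x i ^ 2) (x j ^ 2) with hkg
  have h1 : ∀ i ∈ s, ∑ j ∈ s.erase i, (L i * L j) • ((f i - f j) * (g i - g j) *
        (Hk x n ((s.erase i).erase j) f * Hk x n ((s.erase i).erase j) g)) =
      ∑ j ∈ s, ((L i * L j) • (f i * g i * (kf i j * kg i j)) +
        (L i * L j) • (f j * g j * (kf i j * kg i j)) -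
        (L i * L j) • (f i * g j * (kf i j * kg i j)) -
        (L i * L j) • (g i * f j * (kg i j * kf i j))) := by
    intro i hi
    have e : ∀ j, (L i * L j) • (f i * g i * (kf i j * kg i j)) +
        (L i * L j) • (f j * g j * (kf i j * kg i j)) -
        (L i * L j) • (f i * g j * (kf i j * kg i j)) -
        (L i * L j) • (g i * f j * (kg i j * kf i j)) =
        (L i * L j) • ((f i - f j) * (g i - g j) * (kf i j * kg i j)) := by
      intro j
      rw [← smul_add, ← smul_sub, ← smul_sub]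
      congr 1
      ring
    rw [Finset.sum_congr rfl fun j _ => e j]
    rw [← Finset.sum_erase (s := s) (a := i)
      (f := fun j => (L i * L j) • ((f i - f j) * (g i - g j) * (kf i j * kg i j)))]
    · refine Finset.sum_congr rfl fun j hj => ?_
      have hj' := Finset.mem_erase.1 hj
      rw [Hk_erase x n s hs f hi hj'.2 (Ne.symm hj'.1), Hk_erase x n s hs g hi hj'.2 (Ne.symm hj'.1)]
    · simp only [sub_self, zero_mul, smul_zero]
  rw [Finset.sum_congr rfl h1]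
  simp only [Finset.sum_sub_distrib, Finset.sum_add_distrib]
  have hA : ∑ i ∈ s, ∑ j ∈ s, (L i * L j) • (f i * g i * (kf i j * kg i j)) = 0 := by
    refine Finset.sum_eq_zero fun i _ => ?_
    have h2 := kk_zero x n s hs hc f g (x i ^ 2)
    have h3 : ∀ j ∈ s, (L i * L j) • (f i * g i * (kf i j * kg i j)) =
        (L i • (f i * g i)) * (L j • (kf i j * kg i j)) := by
      intro j _
      rw [smul_mul_smul_comm]
    rw [Finset.sum_congr rfl h3, ← Finset.mul_sum]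
    rw [show ∑ j ∈ s, L j • (kf i j * kg i j) = 0 from h2, mul_zero]
  have hB : ∑ i ∈ s, ∑ j ∈ s, (L i * L j) • (f j * g j * (kf i j * kg i j)) = 0 := by
    rw [Finset.sum_comm]
    rw [← hA]
    refine Finset.sum_congr rfl fun i _ => Finset.sum_congr rfl fun j _ => ?_
    rw [show kf j i = kf i j from Kf_symm x (n + 1) s f _ _,
      show kg j i = kg i j from Kf_symm x (n + 1) s g _ _, mul_comm (L j)]
  have hC : ∑ i ∈ s, ∑ j ∈ s, (L i * L j) • (f i * g j * (kf i j * kg i j)) =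
      ((n + 1 : ℕ) : ℝ) • (Hk x (n + 1) s f * Hk x (n + 1) s g) := kk_C x (n + 1) s f g
  have hD : ∑ i ∈ s, ∑ j ∈ s, (L i * L j) • (g i * f j * (kg i j * kf i j)) =
      ((n + 1 : ℕ) : ℝ) • (Hk x (n + 1) s g * Hk x (n + 1) s f) := kk_C x (n + 1) s g f
  rw [hA, hB, hC, hD, mul_comm (Hk x (n + 1) s g), ← neg_smul]
  rw [add_zero, zero_sub, ← neg_smul, ← sub_smul]
  congr 1
  push_cast
  ring

end Pool.Agent.H99.PA
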