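import Pool.Agent.H99.PA.Defs

/-!
# Module Rh (board pa99_mod, about 90 lines): the symmetries of the weights `ρ`

PROOF.  Write `τ i j = (x i + x j)/(x i - x j)`; `τ j i = - τ i j` always (for `x i = x j` both are `0`
because `/ 0 = 0`).  `rho x s i = ∏_{k ∈ s - i} τ i k`.
(rho_swap) `rho x s i = τ i j * ∏_{k ∈ s-i-j} τ i k`, `rho x (s-i) j = ∏_{k ∈ s-i-j} τ j k`; same with `i`
and `j` exchanged, and `(s.erase i).erase j = (s.erase j).erase i` (`Finset.erase_right_comm`); so the two
products differ by `τ i j` against `τ j i`.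
(rho_four) take the factors with both arguments in `{i,j,k,l}` out of all the products
(`Finset.mul_prod_erase`); the left side has `τ i j τ i k τ i l τ j k τ j l τ k l`, the right side
`τ k l τ k i τ k j τ l i τ l j τ i j`: four signs; the remaining products over
`s - i - j - k - l` are the same.
-/

set_option autoImplicit false

open Finset Pool.H53.RQ

namespace Pool.Agent.H99.PA

private theorem rh_split (f : ℕ → ℝ) {A : Finset ℕ} {j : ℕ} (hj : j ∈ A) :
    ∏ k ∈ A, f k = f j * ∏ k ∈ A.erase j, f k :=
  (Finset.mul_prod_erase A f hj).symm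

private theorem rh_neg (x : ℕ → ℝ) (i j : ℕ) :
    (x j + x i) / (x j - x i) = -((x i + x j) / (x i - x j)) := by
  rw [← neg_sub (x i) (x j), div_neg, add_comm (x j) (x i)]

theorem rho_swap (x : ℕ → ℝ) (s : Finset ℕ) {i j : ℕ} (hi : i ∈ s) (hj : j ∈ s) (hij : i ≠ j) :
    rho x s i * rho x (s.erase i) j = -(rho x s j * rho x (s.erase j) i) := by
  unfold rho
  rw [rh_split _ (Finset.mem_erase.2 ⟨hij.symm, hj⟩ : j ∈ s.erase i),
    rh_split _ (Finset.mem_erase.2 ⟨hij, hi⟩ : i ∈ s.erase j),
    Finset.erase_right_comm (a := j) (b := i), rh_neg x i j]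
  ring

theorem rho_four (x : ℕ → ℝ) (s : Finset ℕ) {i j k l : ℕ} (hi : i ∈ s) (hj : j ∈ s) (hk : k ∈ s)
    (hl : l ∈ s) (hij : i ≠ j) (hik : i ≠ k) (hil : i ≠ l) (hjk : j ≠ k) (hjl : j ≠ l) (hkl : k ≠ l) :
    rho x s i * rho x (s.erase i) j *
        (rho x ((s.erase i).erase j) k * rho x (((s.erase i).erase j).erase k) l) =
      rho x s k * rho x (s.erase k) l *
        (rho x ((s.erase k).erase l) i * rho x (((s.erase k).erase l).erase i) j) := by
  have e : ∀ a, ∀ A : Finset ℕ, rho x A a = ∏ m ∈ A.erase a, (x a + x m) / (x a - x m) :=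
    fun _ _ => rfl
  have hT : (((s.erase k).erase l).erase i).erase j = (((s.erase i).erase j).erase k).erase l := by
    ext a
    simp only [Finset.mem_erase]
    tauto
  have hT1 : ((s.erase k).erase i).erase j = ((s.erase i).erase j).erase k := by
    ext a
    simp only [Finset.mem_erase]
    tauto
  have hT2 : (((s.erase k).erase l).erase i) = (((s.erase i).erase k).erase l) := by
    ext a
    simp only [Finset.mem_erase]
    tauto
  -- left side
  have l1 : rho x s i = (x i + x j) / (x i - x j) * ((x i + x k) / (x i - x k) *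
      ((x i + x l) / (x i - x l) *
        ∏ m ∈ (((s.erase i).erase j).erase k).erase l, (x i + x m) / (x i - x m))) := by
    rw [e, rh_split _ (by simp [hij.symm, hj] : j ∈ s.erase i),
      rh_split _ (by simp [hik.symm, hjk.symm, hk] : k ∈ (s.erase i).erase j),
      rh_split _ (by simp [hil.symm, hjl.symm, hkl.symm, hl] :
        l ∈ ((s.erase i).erase j).erase k)]
  have l2 : rho x (s.erase i) j = (x j + x k) / (x j - x k) * ((x j + x l) / (x j - x l) *
        ∏ m ∈ (((s.erase i).erase j).erase k).erase l, (x j + x m) / (x j - x m)) := by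
    rw [e, rh_split _ (by simp [hik.symm, hjk.symm, hk] : k ∈ (s.erase i).erase j),
      rh_split _ (by simp [hil.symm, hjl.symm, hkl.symm, hl] :
        l ∈ ((s.erase i).erase j).erase k)]
  have l3 : rho x ((s.erase i).erase j) k = (x k + x l) / (x k - x l) *
        ∏ m ∈ (((s.erase i).erase j).erase k).erase l, (x k + x m) / (x k - x m) := by
    rw [e, rh_split _ (by simp [hil.symm, hjl.symm, hkl.symm, hl] :
        l ∈ ((s.erase i).erase j).erase k)]
  have l4 : rho x (((s.erase i).erase j).erase k) l =
        ∏ m ∈ (((s.erase i).erase j).erase k).erase l, (x l + x m) / (x l - x m) := e _ _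
  have r1 : rho x s k = (x k + x l) / (x k - x l) * ((x k + x i) / (x k - x i) *
      ((x k + x j) / (x k - x j) *
        ∏ m ∈ (((s.erase i).erase j).erase k).erase l, (x k + x m) / (x k - x m))) := by
    rw [e, rh_split _ (by simp [hkl.symm, hl] : l ∈ s.erase k),
      rh_split _ (by simp [hil, hik, hi] : i ∈ (s.erase k).erase l),
      rh_split _ (by simp [hij.symm, hjl, hjk, hj] :
        j ∈ ((s.erase k).erase l).erase i), hT]
  have r2 : rho x (s.erase k) l = (x l + x i) / (x l - x i) * ((x l + x j) / (x l - x j) *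
        ∏ m ∈ (((s.erase i).erase j).erase k).erase l, (x l + x m) / (x l - x m)) := by
    rw [e, rh_split _ (by simp [hil, hik, hi] : i ∈ (s.erase k).erase l),
      rh_split _ (by simp [hij.symm, hjl, hjk, hj] :
        j ∈ ((s.erase k).erase l).erase i), hT]
  have r3 : rho x ((s.erase k).erase l) i = (x i + x j) / (x i - x j) *
        ∏ m ∈ (((s.erase i).erase j).erase k).erase l, (x i + x m) / (x i - x m) := by
    rw [e, rh_split _ (by simp [hij.symm, hjl, hjk, hj] :
        j ∈ ((s.erase k).erase l).erase i), hT]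
  have r4 : rho x (((s.erase k).erase l).erase i) j =
        ∏ m ∈ (((s.erase i).erase j).erase k).erase l, (x j + x m) / (x j - x m) := by
    rw [e, hT]
  rw [l1, l2, l3, l4, r1, r2, r3, r4, rh_neg x i k, rh_neg x j k, rh_neg x i l, rh_neg x j l]
  ring

end Pool.Agent.H99.PA
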