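import Pool.Agent.H99.PA.Sg
import Pool.Agent.H99.PA.Rh
import Pool.Agent.H99.PA.Sw

/-!
# Module PSort (board pa99_mod, about 110 lines): `P` is antisymmetric in its exponents

`P x (a :: l) s = ∑_{j∈s} x_j^a * rho x s j * P x l (s.erase j)` (definition of `P`, `rho` unfolded).
PROOF.
(P_swap) unfold twice: `P x (a::b::l) s = ∑_{i∈s} ∑_{j∈s-i} x_i^a x_j^b (ρ_i(s) ρ_j(s-i)) P x l (s-i-j)`;
exchange the names `i`, `j` in `P x (b::a::l) s` (swap2), `(s.erase i).erase j = (s.erase j).erase i`, rho_swap.
(P_cons_mem), (P_cons_sort) by induction on `T` (`Finset.induction_on_max`: `T = insert t0 T'`,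
`t0` larger than all of `T'`, `dl T = t0 :: dl T'`), for all `s`:
 `T = ∅`: `dl (insert a ∅) = a :: dl ∅` (dl_insert), `sg ∅ a = 1`.
 `a = t0`: `P x (a::a::l) s = - P x (a::a::l) s`, so it is 0.
 `a > t0`: `a ∉ T`, `dl (insert a T) = a :: dl T`, `sg T a = 1`.
 `a < t0`: `P x (a::t0::dl T') s = -P x (t0::a::dl T') s = -∑_j x_j^t0 ρ_j(s) P x (a::dl T') (s-j)`; by the
 induction hypothesis it is 0 if `a ∈ T'`, and otherwise
 `-sg T' a * P x (t0 :: dl (insert a T')) s = sg T a * P x (dl (insert a T)) s` (sg_insert, dl_insert,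
 `insert t0 (insert a T') = insert a (insert t0 T')`).
-/

set_option autoImplicit false

open Finset Pool.H53.RQ

namespace Pool.Agent.H99.PA

private theorem PSort_cons (x : ℕ → ℝ) (a : ℕ) (l : List ℕ) (s : Finset ℕ) :
    P x (a :: l) s = ∑ j ∈ s, x j ^ a * rho x s j * P x l (s.erase j) := rfl

private theorem PSort_two (x : ℕ → ℝ) (a b : ℕ) (l : List ℕ) (s : Finset ℕ) :
    P x (a :: b :: l) s = ∑ i ∈ s, ∑ j ∈ s.erase i,
      x i ^ a * x j ^ b * (rho x s i * rho x (s.erase i) j) * P x l ((s.erase i).erase j) := by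
  rw [PSort_cons]
  refine Finset.sum_congr rfl fun i _ => ?_
  rw [PSort_cons, Finset.mul_sum]
  refine Finset.sum_congr rfl fun j _ => ?_
  ring

theorem P_swap (x : ℕ → ℝ) (a b : ℕ) (l : List ℕ) (s : Finset ℕ) :
    P x (a :: b :: l) s = -P x (b :: a :: l) s := by
  rw [PSort_two, PSort_two, swap2 s, ← Finset.sum_neg_distrib]
  refine Finset.sum_congr rfl fun j hj => ?_
  rw [← Finset.sum_neg_distrib]
  refine Finset.sum_congr rfl fun i hi => ?_
  have hij : i ≠ j := (Finset.mem_erase.mp hi).1
  have his : i ∈ s := (Finset.mem_erase.mp hi).2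
  rw [rho_swap x s his hj hij, Finset.erase_right_comm]
  ring

private theorem PSort_congr (x : ℕ → ℝ) (a : ℕ) (l : List ℕ) (c : ℝ) (l' : List ℕ)
    (h : ∀ s : Finset ℕ, P x l s = c * P x l' s) (s : Finset ℕ) :
    P x (a :: l) s = c * P x (a :: l') s := by
  rw [PSort_cons, PSort_cons, Finset.mul_sum]
  refine Finset.sum_congr rfl fun j _ => ?_
  rw [h]
  ring

theorem P_cons_mem (x : ℕ → ℝ) (T : Finset ℕ) (a : ℕ) (ha : a ∈ T) (s : Finset ℕ) :
    P x (a :: dl T) s = 0 := by
  induction T using Finset.induction_on_max generalizing s with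
  | empty => simp at ha
  | insert t0 T' hmax ih =>
    rw [dl_insert T' t0 hmax]
    by_cases h : a = t0
    · subst h
      have := P_swap x a a (dl T') s
      linarith
    · have haT : a ∈ T' := by
        rcases Finset.mem_insert.mp ha with h1 | h1
        · exact absurd h1 h
        · exact h1
      rw [P_swap, PSort_congr x t0 (a :: dl T') 0 [] (fun u => by rw [ih haT u, zero_mul]) s]
      simp

theorem P_cons_sort (x : ℕ → ℝ) (T : Finset ℕ) (a : ℕ) (ha : a ∉ T) (s : Finset ℕ) :
    P x (a :: dl T) s = sg T a * P x (dl (insert a T)) s := by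
  induction T using Finset.induction_on_max generalizing s with
  | empty =>
    have h1 : dl (insert a (∅ : Finset ℕ)) = a :: dl ∅ :=
      dl_insert ∅ a (fun t ht => absurd ht (Finset.notMem_empty t))
    rw [h1]
    simp [sg]
  | insert t0 T' hmax ih =>
    have hat : a ≠ t0 := fun h => ha (by rw [h]; exact Finset.mem_insert_self _ _)
    have haT : a ∉ T' := fun h => ha (Finset.mem_insert_of_mem h)
    have ht0 : t0 ∉ T' := fun h => absurd (hmax t0 h) (lt_irrefl _)
    rcases lt_or_gt_of_ne hat with hlt | hgt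
    · have h1 : dl (insert a (insert t0 T')) = t0 :: dl (insert a T') := by
        rw [Finset.insert_comm]
        apply dl_insert
        intro t ht
        rcases Finset.mem_insert.mp ht with h2 | h2
        · rw [h2]; exact hlt
        · exact hmax t h2
      rw [h1, dl_insert T' t0 hmax, P_swap,
        PSort_congr x t0 (a :: dl T') (sg T' a) (dl (insert a T')) (fun u => ih haT u) s,
        sg_insert T' t0 a ht0, if_pos hlt]
      ring
    · have h1 : dl (insert a (insert t0 T')) = a :: dl (insert t0 T') := by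
        apply dl_insert
        intro t ht
        rcases Finset.mem_insert.mp ht with h2 | h2
        · rw [h2]; exact hgt
        · exact lt_trans (hmax t h2) hgt
      have h2 : sg (insert t0 T') a = 1 := by
        unfold sg
        have : (insert t0 T').filter (fun t => a < t) = ∅ := by
          apply Finset.filter_false_of_mem
          intro t ht
          rcases Finset.mem_insert.mp ht with h3 | h3
          · rw [h3]; exact not_lt.mpr hgt.le
          · exact not_lt.mpr (lt_trans (hmax t h3) hgt).le
        rw [this]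
        simp
      rw [h1, h2, one_mul]

end Pool.Agent.H99.PA
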