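import Pool.Agent.H99.PA.Sg

/-!
# Module PfF (board pa99_mod, about 110 lines): first row expansion of `pf` on sets

`pf A (a :: l') = ∑ j : Fin l'.length, (-1)^j * A a (l'.get j) * pf A (l'.eraseIdx j)` (definition; use
`rw [pf]`).
PROOF.  Let `t0` be larger than all elements of `T`, `l' = dl T`.  The map `j ↦ l'.get j` is a bijection from
`Fin l'.length` onto `T`; for `b = l'.get j` the elements of `T` larger than `b` are exactly the `l'.get i`,
`i < j` (strictly decreasing), so `sg (T.erase b) b = (-1)^j` (removing `b` changes nothing); and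
`l'.eraseIdx j = dl (T.erase b)` (both strictly decreasing with the same members).
-/

set_option autoImplicit false

open Finset Pool.H53.RQ

namespace Pool.Agent.H99.PA

theorem pf_dl_empty (A : ℕ → ℕ → ℝ) : pf A (dl ∅) = 1 := by
  rw [dl_empty, pf]

private lemma PfF_S (T : Finset ℕ) : (dl T).SortedGT := (T.sortedLT_sort).reverse

private lemma PfF_U {l : List ℕ} {T : Finset ℕ} (h : l.SortedGT) (hm : ∀ a, a ∈ l ↔ a ∈ T) :
    dl T = l :=
  (PfF_S T).eq_of_mem_iff h (fun a => by rw [mem_dl, hm])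

private lemma PfF_E (T : Finset ℕ) (j : Fin (dl T).length) :
    dl (T.erase ((dl T).get j)) = (dl T).eraseIdx j := by
  have hn : (dl T).Nodup := (PfF_S T).nodup
  apply PfF_U
  · exact ((PfF_S T).pairwise.sublist (List.eraseIdx_sublist _ _)).sortedGT
  · intro a
    rw [← hn.erase_get j, hn.mem_erase_iff, Finset.mem_erase, mem_dl]

private lemma PfF_C (T : Finset ℕ) (j : Fin (dl T).length) :
    ((T.erase ((dl T).get j)).filter (fun t => (dl T).get j < t)).card = (j : ℕ) := by
  have hA : StrictAnti (dl T).get := (PfF_S T).strictAnti_get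
  have he : (T.erase ((dl T).get j)).filter (fun t => (dl T).get j < t) =
      (Finset.Iio j).image (dl T).get := by
    ext a
    rw [Finset.mem_filter, Finset.mem_erase, Finset.mem_image]
    constructor
    · rintro ⟨⟨_, h2⟩, h3⟩
      obtain ⟨i, hi⟩ := List.mem_iff_get.1 ((mem_dl T a).2 h2)
      refine ⟨i, ?_, hi⟩
      rw [Finset.mem_Iio]
      rw [← hi] at h3
      exact hA.lt_iff_gt.1 h3
    · rintro ⟨i, hi, rfl⟩
      rw [Finset.mem_Iio] at hi
      have h3 := hA hi
      exact ⟨⟨ne_of_gt h3, (mem_dl T _).1 (List.get_mem _ _)⟩, h3⟩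
  rw [he, Finset.card_image_of_injective _ hA.injective, Fin.card_Iio]

theorem pf_first (A : ℕ → ℕ → ℝ) (T : Finset ℕ) (t0 : ℕ) (h : ∀ t ∈ T, t < t0) :
    pf A (dl (insert t0 T)) =
      ∑ b ∈ T, sg (T.erase b) b * A t0 b * pf A (dl (T.erase b)) := by
  have hA : StrictAnti (dl T).get := (PfF_S T).strictAnti_get
  rw [dl_insert T t0 h, pf]
  refine Finset.sum_nbij (fun j => (dl T).get j) ?_ ?_ ?_ ?_
  · intro j _
    exact (mem_dl T _).1 (List.get_mem _ _)
  · intro i _ j _ hij
    exact hA.injective hij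
  · intro a ha
    obtain ⟨i, hi⟩ := List.mem_iff_get.1 ((mem_dl T a).2 ha)
    exact ⟨i, Finset.mem_coe.2 (Finset.mem_univ _), hi⟩
  · intro j _
    rw [PfF_E T j, sg, PfF_C T j]

end Pool.Agent.H99.PA
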