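import Pool.Agent.H99.PA.PfF
import Pool.Agent.H99.PA.Sw

/-!
# Module PfR (board pa99_mod, about 150 lines): expansion of `pf` along any row

CLAIM.  `A` antisymmetric, `|T| = 2(m+1)`, `a ∈ T`:
`∑_{b∈T-a} sg (T-a) a * sg (T-a-b) b * A a b * pf A (dl (T-a-b)) = pf A (dl T)`.
PROOF by induction on `m` (for all `T`, `a`).  Let `t0 = max T`, `T = insert t0 (T - t0)`.
* `a = t0`: `sg (T-t0) t0 = 1` (nothing is larger), and this is pf_first.
* `a ≠ t0` (so `a < t0`).  By pf_first
  `pf (dl T) = ∑_{c∈T-t0} sg (T-t0-c) c * A t0 c * pf (dl (T-t0-c))`.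
  Term `c = a`: `sg (T-t0-a) a * A t0 a * pf (dl (T-t0-a))`.  On the left side of the claim the term `b = t0`
  is `sg (T-a) a * sg (T-a-t0) t0 * A a t0 * pf (dl (T-a-t0))` with `sg (T-a-t0) t0 = 1` and
  `sg (T-a) a = - sg (T-a-t0) a`: equal, as `A a t0 = - A t0 a`.  If `m = 0` there are no other terms.
  `m ≥ 1`, `c ≠ a`: the induction hypothesis for `T-t0-c` (`2m` elements, contains `a`) gives
  `pf (dl (T-t0-c)) = ∑_{b∈T-t0-c-a} sg (T-t0-c-a) a * sg (T-t0-c-a-b) b * A a b * pf (dl (T-t0-c-a-b))`.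
  On the left side, for `b ≠ t0`, pf_first for `T-a-b` (its maximum is `t0`):
  `pf (dl (T-a-b)) = ∑_{c∈T-a-b-t0} sg (T-a-b-t0-c) c * A t0 c * pf (dl (T-a-b-t0-c))`.
  Both are double sums over pairs `b ≠ c` of `T-t0-a` (swap of the sums: module Sw, swap2), and the signs agree:
  with `U = T - t0 - a - b - c` and `[p] = if p then -1 else 1` (sg_insert)
  first:  `sg(U∪{a,b}) c * sg(U∪{b}) a * sg U b = sg U a sg U b sg U c * [c<a][c<b][a<b]`,
  second: `sg(U∪{t0,b,c}) a * sg(U∪{t0,c}) b * sg U c = sg U a sg U b sg U c * [a<t0][a<b][a<c][b<t0][b<c]`,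
  `[a<t0][b<t0] = 1`, `[c<a] = -[a<c]`, `[c<b] = -[b<c]`.
-/

set_option autoImplicit false

open Finset Pool.H53.RQ

namespace Pool.Agent.H99.PA

private lemma pfr_top (S : Finset ℕ) (t0 : ℕ) (h : ∀ t ∈ S, t < t0) : sg S t0 = 1 := by
  unfold sg
  rw [Finset.filter_eq_empty_iff.2 fun t ht => not_lt.2 (h t ht).le, Finset.card_empty, pow_zero]

private lemma pfr_flip {a c : ℕ} (h : a ≠ c) :
    (if c < a then (-1 : ℝ) else 1) = -(if a < c then (-1 : ℝ) else 1) := by
  rcases lt_or_gt_of_ne h with h1 | h1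
  · rw [if_neg (not_lt.2 h1.le), if_pos h1, neg_neg]
  · rw [if_pos h1, if_neg (not_lt.2 h1.le)]

/-- the comparison of the two double sums -/
private lemma pfr_sign (S : Finset ℕ) (t0 a b c : ℕ) (h : ∀ t ∈ S, t < t0) (hat : a < t0)
    (ha : a ∉ S) (hc : c ∈ S) (hb : b ∈ S.erase c) :
    sg (insert t0 S) a * sg (insert t0 (S.erase b)) b * sg ((S.erase b).erase c) c =
      sg (insert a (S.erase c)) c * sg (S.erase c) a * sg ((S.erase c).erase b) b := by
  have hbc : b ≠ c := (Finset.mem_erase.1 hb).1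
  have hbS : b ∈ S := (Finset.mem_erase.1 hb).2
  have hab : a ≠ b := fun h1 => ha (h1 ▸ hbS)
  have hac : a ≠ c := fun h1 => ha (h1 ▸ hc)
  have h0 : t0 ∉ S := fun h1 => lt_irrefl _ (h t0 h1)
  set U := (S.erase c).erase b with hU
  have hU' : (S.erase b).erase c = U := Finset.erase_right_comm
  have hbU : b ∉ U := Finset.notMem_erase b _
  have hcU : c ∉ U := fun h1 => (Finset.mem_erase.1 (Finset.mem_erase.1 h1).2).1 rfl
  have haU : a ∉ U := fun h1 => ha (Finset.mem_erase.1 (Finset.mem_erase.1 h1).2).2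
  have e1 : S.erase c = insert b U := (Finset.insert_erase hb).symm
  have e2 : S.erase b = insert c U := by
    rw [← hU']
    exact (Finset.insert_erase (Finset.mem_erase.2 ⟨hbc.symm, hc⟩)).symm
  have e3 : S = insert c (insert b U) := by
    rw [← e1, Finset.insert_erase hc]
  have hcb : c ∉ insert b U := by
    rw [Finset.mem_insert]
    rintro (h1 | h1)
    · exact hbc h1.symm
    · exact hcU h1
  have haI : a ∉ insert b U := by
    rw [Finset.mem_insert]
    rintro (h1 | h1)
    · exact hab h1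
    · exact haU h1
  have h0b : t0 ∉ S.erase b := fun h1 => h0 (Finset.mem_erase.1 h1).2
  rw [sg_insert S t0 a h0, sg_insert (S.erase b) t0 b h0b, if_pos hat, if_pos (h b hbS), hU', e1, e2]
  have e4 : sg S a = (if a < c then (-1 : ℝ) else 1) * ((if a < b then (-1 : ℝ) else 1) * sg U a) := by
    rw [e3, sg_insert _ _ _ hcb, sg_insert _ _ _ hbU]
  rw [e4, sg_insert U c b hcU, sg_insert (insert b U) a c haI, sg_insert U b c hbU,
    sg_insert U b a hbU, pfr_flip hac, pfr_flip hbc]
  ring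

private lemma pfr_main (A : ℕ → ℕ → ℝ) (hA : ∀ a b, A a b = -A b a) {m : ℕ} (T : Finset ℕ)
    (a : ℕ) (ha : a ∈ T)
    (ih : ∀ (T' : Finset ℕ) (a' : ℕ), a' ∈ T' → T'.card + 2 = T.card → 0 < T'.card →
      ∑ b ∈ T'.erase a', sg (T'.erase a') a' * sg ((T'.erase a').erase b) b * A a' b *
        pf A (dl ((T'.erase a').erase b)) = pf A (dl T'))
    (hT : T.card = 2 * (m + 1)) :
    ∑ b ∈ T.erase a, sg (T.erase a) a * sg ((T.erase a).erase b) b * A a b *
        pf A (dl ((T.erase a).erase b)) = pf A (dl T) := by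
  have hne : T.Nonempty := ⟨a, ha⟩
  obtain ⟨t0, T', h0, hlt, rfl⟩ : ∃ (t0 : ℕ) (T' : Finset ℕ), t0 ∉ T' ∧ (∀ t ∈ T', t < t0) ∧
      T = insert t0 T' := by
    refine ⟨T.max' hne, T.erase (T.max' hne), Finset.notMem_erase _ _, ?_,
      (Finset.insert_erase (Finset.max'_mem T hne)).symm⟩
    intro t ht
    exact lt_of_le_of_ne (Finset.le_max' T t (Finset.mem_erase.1 ht).2) (Finset.mem_erase.1 ht).1
  rw [Finset.card_insert_of_notMem h0] at hT
  rw [pf_first A T' t0 hlt]
  by_cases hat : a = t0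
  · rw [hat, Finset.erase_insert h0]
    refine Finset.sum_congr rfl fun b _ => ?_
    rw [pfr_top T' t0 hlt, one_mul]
  have haT : a ∈ T' := (Finset.mem_insert.1 ha).resolve_left hat
  have halt : a < t0 := hlt a haT
  set S := T'.erase a with hS
  have hSlt : ∀ t ∈ S, t < t0 := fun t ht => hlt t (Finset.mem_erase.1 ht).2
  have haS : a ∉ S := Finset.notMem_erase a _
  have h0S : t0 ∉ S := fun h1 => lt_irrefl _ (hSlt t0 h1)
  have e1 : (insert t0 T').erase a = insert t0 S := by
    rw [Finset.erase_insert_of_ne (Ne.symm hat)]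
  have e2 : T' = insert a S := (Finset.insert_erase haT).symm
  rw [e1, Finset.sum_insert h0S, Finset.erase_insert h0S]
  have e3 : ∑ c ∈ T', sg (T'.erase c) c * A t0 c * pf A (dl (T'.erase c)) =
      sg S a * A t0 a * pf A (dl S) +
        ∑ c ∈ S, sg (T'.erase c) c * A t0 c * pf A (dl (T'.erase c)) := by
    rw [← Finset.add_sum_erase T' _ haT]
  rw [e3]
  have e4 : sg (insert t0 S) a * sg S t0 * A a t0 * pf A (dl S) =
      sg S a * A t0 a * pf A (dl S) := by
    rw [sg_insert S t0 a h0S, if_pos halt, pfr_top S t0 hSlt, hA a t0]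
    ring
  rw [e4]
  congr 1
  have hL : ∀ b ∈ S, sg (insert t0 S) a * sg ((insert t0 S).erase b) b * A a b *
      pf A (dl ((insert t0 S).erase b)) =
      ∑ c ∈ S.erase b, sg (insert t0 S) a * sg (insert t0 (S.erase b)) b *
        sg ((S.erase b).erase c) c * (A a b * A t0 c * pf A (dl ((S.erase b).erase c))) := by
    intro b hb
    have hbt : t0 ≠ b := fun h1 => h0S (h1 ▸ hb)
    rw [Finset.erase_insert_of_ne hbt, pf_first A (S.erase b) t0
      (fun t ht => hSlt t (Finset.mem_erase.1 ht).2), Finset.mul_sum]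
    refine Finset.sum_congr rfl fun c _ => ?_
    ring
  have hR : ∀ c ∈ S, sg (T'.erase c) c * A t0 c * pf A (dl (T'.erase c)) =
      ∑ b ∈ S.erase c, sg (insert a (S.erase c)) c * sg (S.erase c) a *
        sg ((S.erase c).erase b) b * (A a b * A t0 c * pf A (dl ((S.erase c).erase b))) := by
    intro c hc
    have hac : a ≠ c := fun h1 => haS (h1 ▸ hc)
    have e5 : T'.erase c = insert a (S.erase c) := by
      rw [e2, Finset.erase_insert_of_ne hac]
    have haSc : a ∉ S.erase c := fun h1 => haS (Finset.mem_erase.1 h1).2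
    have hcard : (insert a (S.erase c)).card + 2 = (insert t0 T').card := by
      rw [← e5, Finset.card_insert_of_notMem h0, Finset.card_erase_of_mem
        (Finset.mem_erase.1 hc).2]
      have : 0 < T'.card := Finset.card_pos.2 ⟨a, haT⟩
      omega
    have h1 := ih (insert a (S.erase c)) a (Finset.mem_insert_self _ _) hcard
      (Finset.card_pos.2 ⟨a, Finset.mem_insert_self _ _⟩)
    rw [Finset.erase_insert haSc] at h1
    rw [e5, ← h1, Finset.mul_sum]
    refine Finset.sum_congr rfl fun b _ => ?_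
    ring
  rw [Finset.sum_congr rfl hL, Finset.sum_congr rfl hR, swap2]
  refine Finset.sum_congr rfl fun c hc => Finset.sum_congr rfl fun b hb => ?_
  have e6 : (S.erase b).erase c = (S.erase c).erase b := Finset.erase_right_comm
  rw [pfr_sign S t0 a b c hSlt halt haS hc hb, e6]

theorem pf_row (A : ℕ → ℕ → ℝ) (hA : ∀ a b, A a b = -A b a) (m : ℕ) (T : Finset ℕ)
    (hT : T.card = 2 * (m + 1)) (a : ℕ) (ha : a ∈ T) :
    ∑ b ∈ T.erase a, sg (T.erase a) a * sg ((T.erase a).erase b) b * A a b *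
        pf A (dl ((T.erase a).erase b)) = pf A (dl T) := by
  induction m generalizing T a with
  | zero =>
    exact pfr_main A hA T a ha (by
      intro T' c _ hcard _
      omega) hT
  | succ m ih =>
    exact pfr_main A hA T a ha (by
      intro T' a' ha' hcard hcard'
      exact ih T' (by omega) a' ha') hT

end Pool.Agent.H99.PA
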