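import Pool.Agent.H99.PA.WS

/-!
# Module Psi (board pa99_mod, about 90 lines): the array `ψ`

`psi q A B = ∑_{i ∈ Ico B A} q^i w_i w_{A+B-1-i} - ∑_{i ∈ Ico A B} (same)`; one of the two sums is empty.
PROOF.
(psi_anti) exchange the two sums (`A + B = B + A`).
(psi_step) `psi (A+1) B - psi A (B+1) = (q^A + q^B) w_A w_B`, all `A, B` (here `A+1+B-1 = A+(B+1)-1 = A+B`):
 * `B < A`: `psi (A+1) B = ∑_{i=B}^{A}`, `psi A (B+1) = ∑_{i=B+1}^{A-1}` of `q^i w_i w_{A+B-i}`: the difference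
   is the terms `i = B` and `i = A`;
 * `A = B`: `psi (A+1) A = q^A w_A w_A`, `psi A (A+1) = - q^A w_A w_A`;
 * `A < B`: `psi (A+1) B = - ∑_{i=A+1}^{B-1}`, `psi A (B+1) = - ∑_{i=A}^{B}`: the difference is again the terms
   `i = A` and `i = B`.  (Or: from the case `B < A` with psi_anti.)
(psi_zero) `psi q A 0 = ∑_{i<A} q^i w_i w_{A-1-i} = 1` for `A ≥ 1` by w_conv
(`Finset.Nat.sum_antidiagonal_eq_sum_range_succ`).
(Akm_*) translation to `Akm q k m = psi q ((k+1)/2) ((m+1)/2)`.  Akm_step: for `a, b ≥ 1`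
with `α = (a-1)/2`, `β = (b-1)/2` (natural division), `(a+1)/2 = α + 1`; here `a ↦ a+1`, `b ↦ b+1`:
`(a+1+1)/2 = a/2 + 1`, and `Akm q (a+1) (b+1) = psi (a/2+1) (b/2+1)`.
Statement in the form used by module Ker, for all `a b : ℕ`:
`Akm q a (b+2) = psi (⌈a/2⌉) (⌈b/2⌉+1)`, `Akm q (a+2) b = psi (⌈a/2⌉+1) (⌈b/2⌉)`, so
`Akm q (a+2) b - Akm q a (b+2) = (q^⌈a/2⌉ + q^⌈b/2⌉) w_⌈a/2⌉ w_⌈b/2⌉`.
-/

set_option autoImplicit false

open Finset Pool.H53.RQ

namespace Pool.Agent.H99.PA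

theorem psi_range (q : ℝ) (A B : ℕ) : psi q A B =
    (∑ i ∈ range A, q ^ i * w q i * w q (A + B - 1 - i))
      - ∑ i ∈ range B, q ^ i * w q i * w q (A + B - 1 - i) := by
  unfold psi
  rcases le_total A B with h | h
  · rw [Ico_eq_empty_of_le h, sum_empty, sum_Ico_eq_sub _ h]
    ring
  · rw [Ico_eq_empty_of_le h, sum_empty, sum_Ico_eq_sub _ h]
    ring

theorem psi_anti (q : ℝ) (A B : ℕ) : psi q A B = -psi q B A := by
  rw [psi_range, psi_range, add_comm B A]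
  ring

theorem psi_step (q : ℝ) (A B : ℕ) :
    psi q (A + 1) B - psi q A (B + 1) = (q ^ A + q ^ B) * w q A * w q B := by
  rw [psi_range, psi_range]
  have e1 : A + (B + 1) - 1 = A + B := by omega
  have e2 : A + 1 + B - 1 = A + B := by omega
  rw [e1, e2, sum_range_succ _ A, sum_range_succ _ B]
  have e3 : A + B - A = B := by omega
  have e4 : A + B - B = A := by omega
  rw [e3, e4]
  ring

theorem psi_zero (q : ℝ) (hq0 : 0 < q) (hq1 : q < 1) (A : ℕ) (hA : 1 ≤ A) : psi q A 0 = 1 := by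
  obtain ⟨n, rfl⟩ : ∃ n, A = n + 1 := ⟨A - 1, by omega⟩
  have h := w_conv q hq0 hq1 n
  rw [Finset.Nat.sum_antidiagonal_eq_sum_range_succ_mk] at h
  rw [psi_range, range_zero, sum_empty, sub_zero, ← h]
  apply sum_congr rfl
  intro i _
  rw [show n + 1 + 0 - 1 - i = n - i from by omega]

theorem Akm_anti (q : ℝ) (a b : ℕ) : Akm q a b = -Akm q b a := psi_anti q _ _

theorem Akm_zero (q : ℝ) (hq0 : 0 < q) (hq1 : q < 1) (a : ℕ) (ha : 1 ≤ a) : Akm q a 0 = 1 := by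
  show psi q ((a + 1) / 2) ((0 + 1) / 2) = 1
  rw [show (0 + 1) / 2 = 0 from rfl]
  exact psi_zero q hq0 hq1 _ (by omega)

theorem Akm_step (q : ℝ) (a b : ℕ) :
    Akm q (a + 2) b - Akm q a (b + 2) =
      (q ^ ((a + 1) / 2) + q ^ ((b + 1) / 2)) * w q ((a + 1) / 2) * w q ((b + 1) / 2) := by
  rw [← psi_step]
  show psi q ((a + 2 + 1) / 2) ((b + 1) / 2) - psi q ((a + 1) / 2) ((b + 2 + 1) / 2) = _
  rw [show (a + 2 + 1) / 2 = (a + 1) / 2 + 1 from by omega,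
    show (b + 2 + 1) / 2 = (b + 1) / 2 + 1 from by omega]

end Pool.Agent.H99.PA
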