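import Pool.Agent.H99.PA.Defs

/-!
# Module RhSum (board pa99_mod, about 120 lines): the partial fraction sums of the weights `ρ`

Put `c = if Even |s| then 1 else 0`, `Π_s(z) = ∏_{j∈s} (z - x_j)/(z + x_j)`.
PROOF of sum_rho and sum_pf SIMULTANEOUSLY by induction on `s` (`Finset.induction_on`, adding a node `y`,
index `k ∉ s`, `y = x k`; `Gd x (insert k s)` gives `Gd x s`).  For `j ∈ s`
`rho x (insert k s) j = rho x s j * (x_j + y)/(x_j - y)`, and
`rho x (insert k s) k = ∏_{l∈s} (y + x_l)/(y - x_l) = Π_s(-y)` (each factor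
`(-y - x_l)/(-y + x_l) = (y + x_l)/(y - x_l)`).
The induction hypothesis sum_pf at `z' = -y` (allowed: `-y + x_j ≠ 0`) reads
`∑_j (y + x_j)/(y - x_j) rho x s j = Π_s(-y) - c`.
* sum_rho: `∑_{j∈s} rho x s j (x_j+y)/(x_j-y) + Π_s(-y) = -(Π_s(-y) - c) + Π_s(-y) = c`, and `c` is the
  claimed value for `insert k s` (one more element).
* sum_pf: pointwise, for `z + x ≠ 0`, `z + y ≠ 0`, `x ≠ y`,
  `(z-x)/(z+x) * (x+y)/(x-y) = -1 + (z-y)/(z+y) * ((z-x)/(z+x) - (y+x)/(y-x))` (field_simp; ring).
  Sum over `j ∈ s` with weight `rho x s j`, add the new term `(z-y)/(z+y) Π_s(-y)`; with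
  `∑ rho x s j = 1 - c` one gets `-(1-c) + (z-y)/(z+y) (Π_s(z) - c - Π_s(-y) + c) + (z-y)/(z+y) Π_s(-y)
  = (z-y)/(z+y) Π_s(z) - (1-c)`.
* sum_x_rho: also by induction, with the two facts above and, pointwise,
  `x (x+y)/(x-y) = x + y - y (y+x)/(y-x)`:
  `∑ x_j rho x s j + y (1-c) - y (Π_s(-y) - c) + y Π_s(-y) = ∑_{j∈s} x_j + y`.
No node is excluded from being `0`.
-/

set_option autoImplicit false

open Finset Pool.H53.RQ

namespace Pool.Agent.H99.PA

theorem RhSum_old (x : ℕ → ℝ) (s : Finset ℕ) {k j : ℕ} (hk : k ∉ s) (hj : j ∈ s) :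
    rho x (insert k s) j = rho x s j * ((x j + x k) / (x j - x k)) := by
  have hjk : j ≠ k := fun h => hk (h ▸ hj)
  have h1 : (insert k s).erase j = insert k (s.erase j) := by
    ext a
    simp only [mem_erase, mem_insert]
    constructor
    · rintro ⟨h1, h2 | h2⟩
      · exact Or.inl h2
      · exact Or.inr ⟨h1, h2⟩
    · rintro (h1 | ⟨h1, h2⟩)
      · exact ⟨fun h => hjk (h ▸ h1 ▸ rfl), Or.inl h1⟩
      · exact ⟨h1, Or.inr h2⟩
  have h2 : k ∉ s.erase j := fun h => hk (mem_of_mem_erase h)
  unfold rho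
  rw [h1, prod_insert h2, mul_comm]

theorem RhSum_new (x : ℕ → ℝ) (s : Finset ℕ) {k : ℕ} (hk : k ∉ s) :
    rho x (insert k s) k = ∏ l ∈ s, (x k + x l) / (x k - x l) := by
  unfold rho
  rw [erase_insert hk]

theorem RhSum_all (x : ℕ → ℝ) (s : Finset ℕ) : Gd x s →
    (∑ j ∈ s, rho x s j = if Even s.card then 0 else 1) ∧
    (∀ z : ℝ, (∀ j ∈ s, z + x j ≠ 0) → ∑ j ∈ s, (z - x j) / (z + x j) * rho x s j =
      ∏ j ∈ s, (z - x j) / (z + x j) - (if Even s.card then 1 else 0)) ∧
    (∑ j ∈ s, x j * rho x s j = ∑ j ∈ s, x j) := by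
  induction s using Finset.induction_on with
  | empty => intro _; simp
  | insert k s hk ih =>
    intro hG
    have hG' : Gd x s := fun i hi j hj hij =>
      hG i (mem_insert_of_mem hi) j (mem_insert_of_mem hj) hij
    obtain ⟨h1, h2, h3⟩ := ih hG'
    have hne : ∀ j ∈ s, x k - x j ≠ 0 ∧ x k + x j ≠ 0 := fun j hj =>
      hG k (mem_insert_self _ _) j (mem_insert_of_mem hj) (fun h => hk (h ▸ hj))
    have hne' : ∀ j ∈ s, x j - x k ≠ 0 := fun j hj =>
      (hG j (mem_insert_of_mem hj) k (mem_insert_self _ _) (fun h => hk (h ▸ hj))).1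
    have key := h2 (-x k) (fun j hj => by
      have := hne' j hj
      rwa [neg_add_eq_sub])
    have hfac : ∀ j, (-x k - x j) / (-x k + x j) = (x k + x j) / (x k - x j) := fun j => by
      rw [← neg_div_neg_eq]
      congr 1 <;> ring
    simp only [hfac] at key
    set Q := ∏ l ∈ s, (x k + x l) / (x k - x l) with hQ
    rw [card_insert_of_notMem hk]
    have hold : ∀ j ∈ s, rho x (insert k s) j = rho x s j * ((x j + x k) / (x j - x k)) :=
      fun j hj => RhSum_old x s hk hj
    have hnew : rho x (insert k s) k = Q := RhSum_new x s hk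
    have hpar : (if Even (s.card + 1) then (0 : ℝ) else 1) = if Even s.card then 1 else 0 := by
      by_cases h : Even s.card
      · rw [if_neg (by rw [Nat.even_add_one]; exact fun h' => h' h), if_pos h]
      · rw [if_pos (by rw [Nat.even_add_one]; exact h), if_neg h]
    have hpar' : (if Even (s.card + 1) then (1 : ℝ) else 0) = if Even s.card then 0 else 1 := by
      by_cases h : Even s.card
      · rw [if_neg (by rw [Nat.even_add_one]; exact fun h' => h' h), if_pos h]
      · rw [if_pos (by rw [Nat.even_add_one]; exact h), if_neg h]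
    have hsum : (if Even s.card then (0 : ℝ) else 1) + (if Even s.card then (1 : ℝ) else 0) = 1 := by
      by_cases h : Even s.card
      · simp [h]
      · simp [h]
    refine ⟨?_, ?_, ?_⟩
    · rw [sum_insert hk, hnew, hpar]
      have e1 : ∑ j ∈ s, rho x (insert k s) j =
          -∑ j ∈ s, (x k + x j) / (x k - x j) * rho x s j := by
        rw [← sum_neg_distrib]
        refine sum_congr rfl fun j hj => ?_
        rw [hold j hj]
        have h4 := hne' j hj
        have h5 := (hne j hj).1
        field_simp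
        ring
      rw [e1, key]
      ring
    · intro z hz
      have hzk : z + x k ≠ 0 := hz k (mem_insert_self _ _)
      have h2z := h2 z (fun j hj => hz j (mem_insert_of_mem hj))
      rw [sum_insert hk, hnew, prod_insert hk, hpar']
      have e1 : ∑ j ∈ s, (z - x j) / (z + x j) * rho x (insert k s) j =
          -∑ j ∈ s, rho x s j +
          (z - x k) / (z + x k) * ∑ j ∈ s, (z - x j) / (z + x j) * rho x s j -
          (z - x k) / (z + x k) * ∑ j ∈ s, (x k + x j) / (x k - x j) * rho x s j := by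
        rw [mul_sum, mul_sum, ← sum_neg_distrib, ← sum_add_distrib, ← sum_sub_distrib]
        refine sum_congr rfl fun j hj => ?_
        rw [hold j hj]
        have h4 := hne' j hj
        have h5 := (hne j hj).1
        have h6 := hz j (mem_insert_of_mem hj)
        field_simp
        ring
      rw [e1, key, h2z, h1]
      ring
    · rw [sum_insert hk, hnew, sum_insert hk]
      have e1 : ∑ j ∈ s, x j * rho x (insert k s) j =
          ∑ j ∈ s, x j * rho x s j + x k * ∑ j ∈ s, rho x s j -
          x k * ∑ j ∈ s, (x k + x j) / (x k - x j) * rho x s j := by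
        rw [mul_sum, mul_sum, ← sum_add_distrib, ← sum_sub_distrib]
        refine sum_congr rfl fun j hj => ?_
        rw [hold j hj]
        have h4 := hne' j hj
        have h5 := (hne j hj).1
        field_simp
        ring
      rw [e1, key, h1, h3]
      linear_combination (x k) * hsum

theorem sum_rho (x : ℕ → ℝ) (s : Finset ℕ) (hs : Gd x s) :
    ∑ j ∈ s, rho x s j = if Even s.card then 0 else 1 :=
  (RhSum_all x s hs).1

theorem sum_pf (x : ℕ → ℝ) (s : Finset ℕ) (hs : Gd x s) (z : ℝ) (hz : ∀ j ∈ s, z + x j ≠ 0) :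
    ∑ j ∈ s, (z - x j) / (z + x j) * rho x s j =
      ∏ j ∈ s, (z - x j) / (z + x j) - (if Even s.card then 1 else 0) :=
  (RhSum_all x s hs).2.1 z hz

theorem sum_x_rho (x : ℕ → ℝ) (s : Finset ℕ) (hs : Gd x s) :
    ∑ j ∈ s, x j * rho x s j = ∑ j ∈ s, x j :=
  (RhSum_all x s hs).2.2

end Pool.Agent.H99.PA
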