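import Pool.Agent.H99.PA.RhSum

/-!
# Module StabP (board pa99_mod, about 130 lines): a zero node, a zero exponent

`P x (a :: l) s = ∑_{j∈s} x_j^a * rho x s j * P x l (s.erase j)`.
PROOF.
(P_congr) induction on `l`.
(P_big) induction on `l`: `s.card < l.length`; for `l = a :: l'`, each `s.erase j` has `s.card - 1 < l'.length`
elements (if `s = ∅` the sum is empty).
(P_zero_node) induction on `l`.  `P x (a::l) (insert k s)`: the term `j = k` has the factor `x_k^a = 0^a = 0`
(`a > 0`).  For `j ∈ s`: `(insert k s).erase j = insert k (s.erase j)`, and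
`rho x (insert k s) j = (x_j + 0)/(x_j - 0) * rho x s j = rho x s j` (`x_j ≠ 0`); induction for `s.erase j`.
(P_append_zero) induction on `l`.  `l = []`: `P x [0] s = ∑_{j∈s} rho x s j` (`x_j^0 = 1`), which is 1 because
`s.card` is odd (hypothesis with `0 ≤ s.card`; sum_rho).  `l = a :: l'`: term by term;
`(s.erase j).card = s.card - 1`, `Gd x (s.erase j)`, and `l'.length ≤ s.card - 1` is equivalent to
`l.length ≤ s.card` with the same difference.
-/

set_option autoImplicit false

open Finset Pool.H53.RQ

namespace Pool.Agent.H99.PA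

private theorem StabP_cons (x : ℕ → ℝ) (a : ℕ) (l : List ℕ) (s : Finset ℕ) :
    P x (a :: l) s = ∑ j ∈ s, x j ^ a * rho x s j * P x l (s.erase j) := rfl

private theorem StabP_rho_congr (x y : ℕ → ℝ) (s : Finset ℕ) (h : ∀ j ∈ s, x j = y j) (j : ℕ)
    (hj : j ∈ s) : rho x s j = rho y s j := by
  unfold rho
  refine prod_congr rfl fun i hi => ?_
  rw [h j hj, h i (mem_of_mem_erase hi)]

theorem P_congr (x y : ℕ → ℝ) (l : List ℕ) (s : Finset ℕ) (h : ∀ j ∈ s, x j = y j) :
    P x l s = P y l s := by
  induction l generalizing s with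
  | nil => rfl
  | cons a l ih =>
    rw [StabP_cons, StabP_cons]
    refine sum_congr rfl fun j hj => ?_
    rw [h j hj, StabP_rho_congr x y s h j hj, ih (s.erase j) fun i hi => h i (mem_of_mem_erase hi)]

theorem P_big (x : ℕ → ℝ) (l : List ℕ) (s : Finset ℕ) (h : s.card < l.length) : P x l s = 0 := by
  induction l generalizing s with
  | nil => simp at h
  | cons a l ih =>
    rw [StabP_cons]
    refine sum_eq_zero fun j hj => ?_
    have h1 : (s.erase j).card < l.length := by
      have h2 := card_erase_add_one hj
      rw [List.length_cons] at h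
      omega
    rw [ih _ h1, mul_zero]

theorem P_zero_node (x : ℕ → ℝ) (l : List ℕ) (hl : ∀ a ∈ l, 0 < a) (s : Finset ℕ) (k : ℕ)
    (hk : k ∉ s) (hx : x k = 0) (hs : ∀ j ∈ s, x j ≠ 0) : P x l (insert k s) = P x l s := by
  induction l generalizing s with
  | nil => rfl
  | cons a l ih =>
    have ha : 0 < a := hl a List.mem_cons_self
    rw [StabP_cons, StabP_cons, sum_insert hk, hx, zero_pow ha.ne', zero_mul, zero_mul, zero_add]
    refine sum_congr rfl fun j hj => ?_
    have hjk : j ≠ k := fun h => hk (h ▸ hj)
    have h1 : (insert k s).erase j = insert k (s.erase j) := by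
      ext b
      simp only [mem_erase, mem_insert]
      constructor
      · rintro ⟨h1, h2 | h2⟩
        · exact Or.inl h2
        · exact Or.inr ⟨h1, h2⟩
      · rintro (h1 | ⟨h1, h2⟩)
        · exact ⟨fun h => hjk (h.symm.trans h1), Or.inl h1⟩
        · exact ⟨h1, Or.inr h2⟩
    have h2 : rho x (insert k s) j = rho x s j := by
      rw [RhSum_old x s hk hj, hx, add_zero, sub_zero, div_self (hs j hj), mul_one]
    rw [h1, h2, ih (fun b hb => hl b (List.mem_cons_of_mem _ hb)) (s.erase j)
      (fun h => hk (mem_of_mem_erase h)) (fun i hi => hs i (mem_of_mem_erase hi))]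

theorem P_append_zero (x : ℕ → ℝ) (l : List ℕ) (s : Finset ℕ) (hs : Gd x s)
    (h : l.length ≤ s.card → Odd (s.card - l.length)) : P x (l ++ [0]) s = P x l s := by
  induction l generalizing s with
  | nil =>
    have h1 : P x ([] ++ [0]) s = ∑ j ∈ s, rho x s j := by
      rw [List.nil_append, StabP_cons]
      refine sum_congr rfl fun j hj => ?_
      rw [pow_zero, one_mul]
      exact mul_one _
    rw [h1, sum_rho x s hs]
    have h2 : Odd s.card := by simpa using h (Nat.zero_le _)
    rw [if_neg (Nat.not_even_iff_odd.2 h2)]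
    rfl
  | cons a l ih =>
    rw [List.cons_append, StabP_cons, StabP_cons]
    refine sum_congr rfl fun j hj => ?_
    have h2 := card_erase_add_one hj
    rw [ih (s.erase j) (fun i hi i' hi' hne => hs i (mem_of_mem_erase hi) i'
      (mem_of_mem_erase hi') hne) (fun hle => ?_)]
    have h3 := h (by rw [List.length_cons]; omega)
    rw [List.length_cons] at h3
    have h4 : (s.erase j).card - l.length = s.card - (l.length + 1) := by omega
    rw [h4]
    exact h3

end Pool.Agent.H99.PA
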