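import Pool.Agent.H99.PA.Defs

/-!
# Module WS (board pa99_mod, about 130 lines): the series `W`

`w q i = ∏_{s<i} (1 - q^(2s+1))/(1 - q^(2s+2))`, so `w q (i+1) (1 - q^(2i+2)) = w q i (1 - q^(2i+1))`.
PROOF.
(w_conv) `∑_{i+j=n} q^i w_i w_j = 1`.  Let `V = mk (w q) : PowerSeries ℝ`.  From the recursion of `w`,
`(1 - X) V = (1 - C q * X) * rescale (q^2) V` (coefficient of `X^(i+1)`: `w_{i+1} - w_i =
q^(2i+2) w_{i+1} - q * q^(2i) w_i`; coefficient `0`: `1 = 1`).  Put `G = (1 - X) * V * rescale q V`.  Apply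
`rescale q` (a ring homomorphism, `rescale q X = C q * X`, `rescale q (rescale q V) = rescale (q^2) V`):
`rescale q G = (1 - C q X) * rescale q V * rescale (q^2) V = (1 - X) V * rescale q V = G`.  So the coefficients
`g_n` of `G` satisfy `q^n g_n = g_n`, hence `g_n = 0` for `n ≥ 1` (`0 < q < 1`), and `g_0 = 1`: `G = 1`.
So `V * rescale q V = (1 - X)⁻¹`, all coefficients `1`: `V * rescale q V = mk 1` because
`(1 - X) * (V * rescale q V) = 1 = (1 - X) * mk 1` and `1 - X` is not a zero divisor (constant coefficient 1).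
Coefficient `n` of `rescale q V * V` (`PowerSeries.coeff_mul`) is the claim.
(Wc_fun), (Wc_mul): coefficientwise.  Coefficient of `X^n` in `C c * X^2 * Wc q c'` is `0` for `n < 2` and
`c * coeff (n-2)` otherwise; all series have only even powers; with `n = 2m`, `m ≥ 1`, Wc_fun says
`w_m c^m - c w_{m-1} c^{m-1} = w_m (q²c)^m - q c w_{m-1} (q²c)^{m-1}`: recursion of `w` times `c^m`.
Wc_mul: coefficient of `X^(2m)` of `Wc q c * Wc q (q*c)` is `∑_{i+j=m} w_i c^i w_j (q c)^j = c^m` by w_conv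
(exchange `i`, `j`), odd coefficients are 0; so `(1 - C c X²) * (product)` has coefficients `c^m - c c^{m-1} = 0`.
(It may be convenient to show first that `Wc q c = expand / subst` form or
`PowerSeries.coeff` lemma: coeff `(2m)` is `w_m c^m`, coeff `(2m+1)` is 0.)
-/

set_option autoImplicit false

open Finset Pool.H53.RQ PowerSeries

namespace Pool.Agent.H99.PA

theorem w_rec (q : ℝ) (hq0 : 0 < q) (hq1 : q < 1) (i : ℕ) :
    w q (i + 1) * (1 - q ^ (2 * i + 2)) = w q i * (1 - q ^ (2 * i + 1)) := by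
  have h : (1 : ℝ) - q ^ (2 * i + 2) ≠ 0 := by
    have := pow_lt_one₀ hq0.le hq1 (n := 2 * i + 2) (by omega)
    exact ne_of_gt (by linarith)
  rw [w, prod_range_succ, ← w]
  field_simp

private theorem ws_zero (q : ℝ) : w q 0 = 1 := by simp [w]

private theorem ws_key (q : ℝ) (hq0 : 0 < q) (hq1 : q < 1) :
    ((1 - X) * (PowerSeries.mk (w q)) : PowerSeries ℝ)
      = (1 - C q * X) * (rescale (q ^ 2) (PowerSeries.mk (w q)) : PowerSeries ℝ) := by
  ext n
  rw [sub_mul, sub_mul, one_mul, one_mul, map_sub, map_sub, mul_assoc, coeff_C_mul]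
  cases n with
  | zero => simp [ws_zero]
  | succ n =>
    rw [coeff_succ_X_mul, coeff_succ_X_mul, coeff_rescale, coeff_rescale, coeff_mk, coeff_mk]
    have := w_rec q hq0 hq1 n
    have e1 : (q ^ 2) ^ (n + 1) = q ^ (2 * n + 2) := by rw [← pow_mul]; ring_nf
    have e2 : q * ((q ^ 2) ^ n * w q n) = q ^ (2 * n + 1) * w q n := by
      rw [← pow_mul]; ring
    rw [e1, e2]
    linarith

private theorem ws_c0 (q : ℝ) :
    constantCoeff (rescale q (PowerSeries.mk (w q)) : PowerSeries ℝ) = 1 := by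
  rw [← coeff_zero_eq_constantCoeff_apply, coeff_rescale, coeff_mk, ws_zero]
  simp

private theorem ws_G (q : ℝ) (hq0 : 0 < q) (hq1 : q < 1) :
    rescale q ((1 - X) * PowerSeries.mk (w q) * rescale q (PowerSeries.mk (w q)) : PowerSeries ℝ)
      = (1 - X) * PowerSeries.mk (w q) * rescale q (PowerSeries.mk (w q)) := by
  rw [map_mul, map_mul, map_sub, map_one, rescale_rescale, ← sq, rescale_X]
  rw [ws_key q hq0 hq1]
  ring

private theorem ws_G1 (q : ℝ) (hq0 : 0 < q) (hq1 : q < 1) :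
    ((1 - X) * PowerSeries.mk (w q) * rescale q (PowerSeries.mk (w q)) : PowerSeries ℝ) = 1 := by
  ext n
  have h := congrArg (coeff n) (ws_G q hq0 hq1)
  rw [coeff_rescale] at h
  cases n with
  | zero => simp [ws_zero, ws_c0]
  | succ n =>
    have h1 : q ^ (n + 1) ≠ 1 := (pow_lt_one₀ hq0.le hq1 (by omega)).ne
    have h2 : (q ^ (n + 1) - 1) * coeff (n + 1)
        ((1 - X) * PowerSeries.mk (w q) * rescale q (PowerSeries.mk (w q)) : PowerSeries ℝ) = 0 := by linarith
    rcases mul_eq_zero.mp h2 with h3 | h3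
    · exact absurd (by linarith) h1
    · rw [h3, coeff_one]
      simp

theorem w_conv (q : ℝ) (hq0 : 0 < q) (hq1 : q < 1) (n : ℕ) :
    ∑ p ∈ antidiagonal n, q ^ p.1 * w q p.1 * w q p.2 = 1 := by
  have h := ws_G1 q hq0 hq1
  have h2 : (1 - X) * (rescale q (PowerSeries.mk (w q)) * PowerSeries.mk (w q) : PowerSeries ℝ) = (1 - X) * PowerSeries.mk 1 := by
    have h3 : (1 - X) * (PowerSeries.mk 1 : PowerSeries ℝ) = 1 := by
      rw [mul_comm]
      exact mk_one_mul_one_sub_eq_one ℝ
    rw [h3]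
    linear_combination h
  have hne : (1 - X : PowerSeries ℝ) ≠ 0 := by
    intro h0
    have := congrArg (coeff 0) h0
    simp at this
  have h4 := mul_left_cancel₀ hne h2
  have h5 := congrArg (coeff n) h4
  rw [coeff_mul, coeff_mk] at h5
  simp only [coeff_rescale, coeff_mk, Pi.one_apply] at h5
  exact h5

private theorem ws_even (q c : ℝ) (m : ℕ) : coeff (2 * m) (Wc q c) = w q m * c ^ m := by
  rw [Wc, coeff_mk, if_pos (even_two_mul m)]
  have : 2 * m / 2 = m := by omega
  rw [this]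

private theorem ws_odd (q c : ℝ) (m : ℕ) : coeff (2 * m + 1) (Wc q c) = 0 := by
  rw [Wc, coeff_mk, if_neg (by simp)]

theorem Wc_fun (q : ℝ) (hq0 : 0 < q) (hq1 : q < 1) (c : ℝ) :
    (1 - C c * X ^ 2) * Wc q c = (1 - C (q * c) * X ^ 2) * Wc q (q ^ 2 * c) := by
  ext n
  rw [sub_mul, sub_mul, one_mul, one_mul, map_sub, map_sub, mul_assoc, mul_assoc, coeff_C_mul,
    coeff_C_mul]
  rcases Nat.even_or_odd' n with ⟨m, rfl | rfl⟩
  · rw [ws_even, ws_even]
    cases m with
    | zero => simp [coeff_X_pow_mul']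
    | succ m =>
      have e : 2 * (m + 1) = 2 * m + 2 := by ring
      rw [e, coeff_X_pow_mul, coeff_X_pow_mul, ws_even, ws_even]
      have h := w_rec q hq0 hq1 m
      have e1 : (q ^ 2 * c) ^ (m + 1) = q ^ (2 * m + 2) * c ^ (m + 1) := by
        rw [mul_pow, ← pow_mul]; ring
      have e2 : q * c * (w q m * (q ^ 2 * c) ^ m) = q ^ (2 * m + 1) * w q m * c ^ (m + 1) := by
        rw [mul_pow, ← pow_mul]; ring
      rw [e1, e2]
      linear_combination c ^ (m + 1) * h
  · rw [ws_odd, ws_odd]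
    cases m with
    | zero => simp [coeff_X_pow_mul']
    | succ m =>
      have e : 2 * (m + 1) + 1 = (2 * m + 1) + 2 := by ring
      rw [e, coeff_X_pow_mul, coeff_X_pow_mul, ws_odd, ws_odd]
      simp

private theorem ws_prod (q : ℝ) (hq0 : 0 < q) (hq1 : q < 1) (c : ℝ) (m : ℕ) :
    coeff (2 * m) (Wc q c * Wc q (q * c)) = c ^ m := by
  rw [coeff_mul]
  have hs : ∑ p ∈ antidiagonal (2 * m), coeff p.1 (Wc q c) * coeff p.2 (Wc q (q * c))
      = ∑ p ∈ antidiagonal m, coeff (2 * p.1) (Wc q c) * coeff (2 * p.2) (Wc q (q * c)) := by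
    symm
    apply Finset.sum_of_injOn (fun p : ℕ × ℕ => (2 * p.1, 2 * p.2))
    · intro a _ b _ hab
      simp only [Prod.mk.injEq] at hab
      ext <;> omega
    · intro a ha
      simp only [Finset.mem_coe, HasAntidiagonal.mem_antidiagonal] at ha ⊢
      omega
    · rintro ⟨a, b⟩ hab hn
      rw [HasAntidiagonal.mem_antidiagonal] at hab
      simp only at hab
      rcases Nat.even_or_odd' a with ⟨a', rfl | rfl⟩
      · exfalso
        apply hn
        refine ⟨(a', m - a'), ?_, ?_⟩
        · simp only [Finset.mem_coe, HasAntidiagonal.mem_antidiagonal]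
          omega
        · simp only [Prod.mk.injEq, true_and]
          omega
      · rw [ws_odd, zero_mul]
    · intro a _
      rfl
  rw [hs]
  have h := w_conv q hq0 hq1 m
  rw [← Finset.Nat.sum_antidiagonal_swap] at h
  calc _ = ∑ p ∈ antidiagonal m, c ^ m * (q ^ p.2 * w q p.2 * w q p.1) := by
        apply Finset.sum_congr rfl
        intro p hp
        rw [HasAntidiagonal.mem_antidiagonal] at hp
        rw [ws_even, ws_even, ← hp, mul_pow, pow_add]
        ring
    _ = c ^ m := by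
        rw [← Finset.mul_sum]
        simp only [Prod.fst_swap, Prod.snd_swap] at h
        rw [h, mul_one]

private theorem ws_prod_odd (q c : ℝ) (m : ℕ) :
    coeff (2 * m + 1) (Wc q c * Wc q (q * c)) = 0 := by
  rw [coeff_mul]
  apply Finset.sum_eq_zero
  rintro ⟨a, b⟩ hab
  rw [HasAntidiagonal.mem_antidiagonal] at hab
  simp only at hab ⊢
  rcases Nat.even_or_odd' a with ⟨a', rfl | rfl⟩
  · have : b = 2 * (m - a') + 1 := by omega
    rw [this, ws_odd, mul_zero]
  · rw [ws_odd, zero_mul]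

theorem Wc_mul (q : ℝ) (hq0 : 0 < q) (hq1 : q < 1) (c : ℝ) :
    (1 - C c * X ^ 2) * (Wc q c * Wc q (q * c)) = 1 := by
  ext n
  rw [sub_mul, one_mul, map_sub, mul_assoc, coeff_C_mul]
  rcases Nat.even_or_odd' n with ⟨m, rfl | rfl⟩
  · rw [ws_prod q hq0 hq1]
    cases m with
    | zero => simp [coeff_X_pow_mul']
    | succ m =>
      have e : 2 * (m + 1) = 2 * m + 2 := by ring
      rw [e, coeff_X_pow_mul, ws_prod q hq0 hq1, coeff_one, if_neg (by omega)]
      ring
  · rw [ws_prod_odd]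
    cases m with
    | zero => simp [coeff_X_pow_mul', coeff_one]
    | succ m =>
      have e : 2 * (m + 1) + 1 = (2 * m + 1) + 2 := by ring
      rw [e, coeff_X_pow_mul, ws_prod_odd, coeff_one, if_neg (by omega)]
      simp

end Pool.Agent.H99.PA
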